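import Mathlib
import Pool.Agent.J4.H38.SR.Corr

/-! Correlations of centred rough divisor sums: arbitrary positions of the shifts. -/

set_option autoImplicit false

namespace Pool.Agent.J4.H38.SR2

open Finset
open Pool.Agent.Y822
open Pool.Agent.J4.H38.SR

/-- bound for the correlations -/
noncomputable def KL (C0 K0 b y D N l : ℕ) (V : ℝ) : ℝ :=
  4 * EE y D ^ 2 * ((1 / 2) ^ b * (N * V) + (2 + Ad C0 K0 b y) * D ^ 2) +
  (4 ^ l + 3 * EE y D) ^ 2 *
    (Nat.log y N * ((N : ℝ) / y + 1) + 3 * (N : ℝ) / y + 2 * (D : ℝ) / y)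

/-- the sum over a common prime -/
lemma Tp_corr2 {y D : ℕ} {c c' : ℕ → ℝ} (hc : Co y c) (hc' : Co y c') (hy : 2 ≤ y) {N M a a' : ℕ}
    (ha : N + a ≤ M) (ha' : N + a' ≤ M) {p : ℕ} (hp : p.Prime) (hyp : y < p) :
    ∑ n ∈ Icc 1 N, Tp y D c p (n + a) * Tp y D c' p (n + a') ≤
      (4 ^ Nat.log y M + 3 * EE y D) ^ 2 *
        ((if p ∣ max a a' - min a a' then (N : ℝ) / y + 1 else 0) +
          (3 * N * (1 / (p : ℝ) ^ 2) + 2 * (1 / (p : ℝ)))) := by
  classical
  set B := (4 : ℝ) ^ Nat.log y M + 3 * EE y D with hB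
  have hB0 : 0 ≤ B := by have := (EE_pos y D).le; positivity
  have hp0 : (0 : ℝ) < p := by exact_mod_cast hp.pos
  have h1 : ∀ n ∈ Icc 1 N, Tp y D c p (n + a) * Tp y D c' p (n + a') ≤
      B ^ 2 * (acen p (n + a) * acen p (n + a')) := by
    intro n hn
    rw [mem_Icc] at hn
    have e1 := Tp_le (D := D) hc hy hp (m := n + a) (M := M) (by omega) (by omega)
    have e2 := Tp_le (D := D) hc' hy hp (m := n + a') (M := M) (by omega) (by omega)
    calc _ ≤ (B * acen p (n + a)) * (B * acen p (n + a')) :=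
          mul_le_mul e1 e2 (Tp_nonneg _ _) (mul_nonneg hB0 (acen_nonneg _ _))
      _ = _ := by ring
  refine (sum_le_sum h1).trans ?_
  rw [← mul_sum]
  refine mul_le_mul_of_nonneg_left ?_ (by positivity)
  have h2 : ∀ n ∈ Icc 1 N, acen p (n + a) * acen p (n + a') =
      (if p ∣ n + a then (1 : ℝ) else 0) * (if p ∣ n + a' then (1 : ℝ) else 0) +
      (1 / (p : ℝ)) * (if p ∣ n + a then (1 : ℝ) else 0) +
      (1 / (p : ℝ)) * (if p ∣ n + a' then (1 : ℝ) else 0) + 1 / (p : ℝ) ^ 2 := by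
    intro n _
    unfold acen
    field_simp
    ring
  rw [sum_congr rfl h2, sum_add_distrib, sum_add_distrib, sum_add_distrib, ← mul_sum, ← mul_sum,
    sum_const, Nat.card_Icc, nsmul_eq_mul]
  have h3 := card_mult_le N a p hp.one_lt.le
  have h4 := card_mult_le N a' p hp.one_lt.le
  have h5 : ∑ n ∈ Icc 1 N, (if p ∣ n + a then (1 : ℝ) else 0) * (if p ∣ n + a' then (1 : ℝ) else 0) ≤
      (if p ∣ max a a' - min a a' then (N : ℝ) / y + 1 else 0) := by
    split_ifs with hdv
    · calc _ ≤ ∑ n ∈ Icc 1 N, (if p ∣ n + a then (1 : ℝ) else 0) := by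
            refine sum_le_sum fun n _ => ?_
            split_ifs <;> norm_num
        _ ≤ N / p + 1 := h3
        _ ≤ N / y + 1 := by
            have : (N : ℝ) / p ≤ N / y := by
              apply div_le_div_of_nonneg_left (Nat.cast_nonneg _)
              · exact_mod_cast (by omega : 0 < y)
              · exact_mod_cast hyp.le
            linarith
    · refine (sum_eq_zero fun n _ => ?_).le
      by_cases e1 : p ∣ n + a
      · by_cases e2 : p ∣ n + a'
        · exfalso
          apply hdv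
          rcases le_total a a' with h | h
          · rw [max_eq_right h, min_eq_left h]
            have : a' - a = (n + a') - (n + a) := by omega
            rw [this]
            exact Nat.dvd_sub e2 e1
          · rw [max_eq_left h, min_eq_right h]
            have : a - a' = (n + a) - (n + a') := by omega
            rw [this]
            exact Nat.dvd_sub e1 e2
        · rw [if_neg e2, mul_zero]
      · rw [if_neg e1, zero_mul]
  have hip : 0 ≤ 1 / (p : ℝ) := by positivity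
  have h6 := mul_le_mul_of_nonneg_left h3 hip
  have h7 := mul_le_mul_of_nonneg_left h4 hip
  have e3 : 1 / (p : ℝ) * (N / p + 1) = N * (1 / (p : ℝ) ^ 2) + 1 / p := by field_simp
  rw [e3] at h6 h7
  have e4 : ((N + 1 - 1 : ℕ) : ℝ) = N := by simp
  rw [e4]
  linarith

/-- **the correlation bound** -/
theorem corrT2 {C0 K0 b y M : ℕ} (hy : 2 ≤ y) (D N : ℕ) {c c' : ℕ → ℝ} (hc : Co y c) (hc' : Co y c')
    {a a' : ℕ} (hne : a ≠ a') (ha : N + a ≤ M) (ha' : N + a' ≤ M)
    (hmN : max a a' - min a a' ≤ N) (T : Finset ℕ)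
    (hcnt' : CntH C0 K0 b y (insert a (insert a' T))) :
    |∑ n ∈ Icc 1 N, rT T y n * (GF y D c (n + a) * GF y D c' (n + a'))| ≤
      KL C0 K0 b y D N (Nat.log y M) (VT y (insert a (insert a' T))) := by
  rw [corr_expandT hc hc']
  set T2 := insert a (insert a' T) with hT2
  set V := VT y T2 with hV
  have hV0 : 0 ≤ V := VT_nonneg y T2
  have hE := (EE_pos y D).le
  have hAd := Ad_nonneg C0 K0 b y
  have s1 : |∑ d ∈ SD y D, ∑ d' ∈ SD y D, c d * c' d' * IT T2 y N a a' d d'| ≤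
      ∑ d ∈ SD y D, ∑ d' ∈ SD y D, (4 * (1 / 2) ^ b * (N * V) * ((|c d| / d) * (|c' d'| / d')) +
        4 * (2 + Ad C0 K0 b y) * (|c d| * |c' d'|) +
        ∑ p ∈ PP y D, ∑ n ∈ Icc 1 N, (|c d| * (if p ∣ d then acen d (n + a) else 0)) *
          (|c' d'| * (if p ∣ d' then acen d' (n + a') else 0))) := by
    refine (abs_sum_le_sum_abs _ _).trans (sum_le_sum fun d hd => ?_)
    refine (abs_sum_le_sum_abs _ _).trans (sum_le_sum fun d' hd' => ?_)
    rw [abs_mul, abs_mul]
    have h1 := IT_le hcnt' N a a' d d' hd hd'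
    have h2 := mul_le_mul_of_nonneg_left h1 (mul_nonneg (abs_nonneg (c d)) (abs_nonneg (c' d')))
    refine h2.trans (le_of_eq ?_)
    have hd1 : (d : ℝ) ≠ 0 := by have := (mem_SD.1 hd).1.1; positivity
    have hd1' : (d' : ℝ) ≠ 0 := by have := (mem_SD.1 hd').1.1; positivity
    rw [mul_add]
    congr 1
    · rw [← hV]
      field_simp
    · rw [mul_sum]
      refine sum_congr rfl fun p _ => ?_
      rw [mul_sum]
      refine sum_congr rfl fun n _ => ?_
      ring
  refine s1.trans ?_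
  have s2 : ∑ d ∈ SD y D, ∑ d' ∈ SD y D, (4 * (1 / 2) ^ b * (N * V) * ((|c d| / d) * (|c' d'| / d')) +
        4 * (2 + Ad C0 K0 b y) * (|c d| * |c' d'|) +
        ∑ p ∈ PP y D, ∑ n ∈ Icc 1 N, (|c d| * (if p ∣ d then acen d (n + a) else 0)) *
          (|c' d'| * (if p ∣ d' then acen d' (n + a') else 0))) =
      4 * (1 / 2) ^ b * (N * V) * ((∑ d ∈ SD y D, |c d| / d) * (∑ d ∈ SD y D, |c' d| / d)) +
        4 * (2 + Ad C0 K0 b y) * ((∑ d ∈ SD y D, |c d|) * (∑ d ∈ SD y D, |c' d|)) +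
        ∑ p ∈ PP y D, ∑ n ∈ Icc 1 N, Tp y D c p (n + a) * Tp y D c' p (n + a') := by
    simp only [sum_add_distrib]
    congr 1
    · congr 1
      · rw [sum_mul_sum, mul_sum]
        refine sum_congr rfl fun d _ => ?_
        rw [mul_sum]
      · rw [sum_mul_sum, mul_sum]
        refine sum_congr rfl fun d _ => ?_
        rw [mul_sum]
    · rw [sum_congr rfl fun d _ => sum_comm, sum_comm]
      refine sum_congr rfl fun p _ => ?_
      rw [sum_congr rfl fun d _ => sum_comm, sum_comm]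
      refine sum_congr rfl fun n _ => ?_
      unfold Tp
      rw [sum_mul_sum]
  rw [s2]
  have hS1 : ∑ d ∈ SD y D, |c d| / d ≤ EE y D := sum_c_div hc
  have hS2 : ∑ d ∈ SD y D, |c d| ≤ D * EE y D := sum_c_abs hc
  have hS1' : ∑ d ∈ SD y D, |c' d| / d ≤ EE y D := sum_c_div hc'
  have hS2' : ∑ d ∈ SD y D, |c' d| ≤ D * EE y D := sum_c_abs hc'
  have hS10 : 0 ≤ ∑ d ∈ SD y D, |c' d| / (d : ℝ) := sum_nonneg fun d _ => by positivity
  have hS20 : 0 ≤ ∑ d ∈ SD y D, |c' d| := sum_nonneg fun d _ => abs_nonneg _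
  have t1 : 4 * (1 / 2 : ℝ) ^ b * (N * V) *
      ((∑ d ∈ SD y D, |c d| / d) * (∑ d ∈ SD y D, |c' d| / d)) ≤
      4 * (1 / 2 : ℝ) ^ b * (N * V) * EE y D ^ 2 := by
    rw [sq]
    exact mul_le_mul_of_nonneg_left (mul_le_mul hS1 hS1' hS10 hE) (by positivity)
  have t2 : 4 * (2 + Ad C0 K0 b y) * ((∑ d ∈ SD y D, |c d|) * (∑ d ∈ SD y D, |c' d|)) ≤
      4 * (2 + Ad C0 K0 b y) * (D * EE y D) ^ 2 := by
    rw [sq]
    exact mul_le_mul_of_nonneg_left (mul_le_mul hS2 hS2' hS20 (by positivity)) (by positivity)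
  set B := (4 : ℝ) ^ Nat.log y M + 3 * EE y D with hB
  have hB0 : 0 ≤ B := by positivity
  have t3 : ∑ p ∈ PP y D, ∑ n ∈ Icc 1 N, Tp y D c p (n + a) * Tp y D c' p (n + a') ≤
      B ^ 2 * (Nat.log y N * ((N : ℝ) / y + 1) + 3 * (N : ℝ) / y + 2 * (D : ℝ) / y) := by
    have h1 : ∀ p ∈ PP y D, ∑ n ∈ Icc 1 N, Tp y D c p (n + a) * Tp y D c' p (n + a') ≤
        B ^ 2 * ((if p ∣ max a a' - min a a' then (N : ℝ) / y + 1 else 0) +
          (3 * N * (1 / (p : ℝ) ^ 2) + 2 * (1 / (p : ℝ)))) := by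
      intro p hp
      rw [mem_PP] at hp
      exact Tp_corr2 hc hc' hy ha ha' hp.2 hp.1.1
    refine (sum_le_sum h1).trans ?_
    rw [← mul_sum]
    refine mul_le_mul_of_nonneg_left ?_ (by positivity)
    rw [sum_add_distrib, sum_add_distrib, ← mul_sum, ← mul_sum]
    have hmm : 1 ≤ max a a' - min a a' := by
      rcases lt_or_gt_of_ne hne with h | h
      · rw [max_eq_right h.le, min_eq_left h.le]; omega
      · rw [max_eq_left h.le, min_eq_right h.le]; omega
    have u1 := sum_big_dvd y D (max a a' - min a a') N hy hmm hmN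
      (x := (N : ℝ) / y + 1) (by positivity)
    have u2 : ∑ p ∈ PP y D, 1 / (p : ℝ) ^ 2 ≤ 1 / (y : ℝ) :=
      inv_sq_gt (by omega) (PP y D) (fun p hp => (mem_PP.1 hp).1.1)
    have hy0 : (0 : ℝ) < y := by exact_mod_cast (by omega : 0 < y)
    have u3 : ∑ p ∈ PP y D, 1 / (p : ℝ) ≤ D / y := by
      calc ∑ p ∈ PP y D, 1 / (p : ℝ) ≤ ∑ _p ∈ PP y D, 1 / (y : ℝ) := by
            refine sum_le_sum fun p hp => ?_
            have : (y : ℝ) < p := by exact_mod_cast (mem_PP.1 hp).1.1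
            exact one_div_le_one_div_of_le hy0 this.le
        _ = (PP y D).card * (1 / (y : ℝ)) := by rw [sum_const, nsmul_eq_mul]
        _ ≤ D * (1 / (y : ℝ)) := by
            refine mul_le_mul_of_nonneg_right ?_ (by positivity)
            have : (PP y D).card ≤ D := by
              unfold PP
              refine (card_filter_le _ _).trans ?_
              rw [Nat.card_Ioc]
              omega
            exact_mod_cast this
        _ = D / y := by ring
    have u4 : 3 * (N : ℝ) * ∑ p ∈ PP y D, 1 / (p : ℝ) ^ 2 ≤ 3 * N * (1 / y) :=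
      mul_le_mul_of_nonneg_left u2 (by positivity)
    have u5 : 2 * ∑ p ∈ PP y D, 1 / (p : ℝ) ≤ 2 * (D / y) :=
      mul_le_mul_of_nonneg_left u3 (by norm_num)
    have e1 : 3 * (N : ℝ) * (1 / y) = 3 * N / y := by ring
    have e2 : 2 * ((D : ℝ) / y) = 2 * D / y := by ring
    rw [e1] at u4
    rw [e2] at u5
    linarith
  unfold KL
  rw [← hB]
  have e3 : 4 * EE y D ^ 2 * ((1 / 2 : ℝ) ^ b * (N * V) + (2 + Ad C0 K0 b y) * D ^ 2) =
      4 * (1 / 2 : ℝ) ^ b * (N * V) * EE y D ^ 2 +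
        4 * (2 + Ad C0 K0 b y) * (D * EE y D) ^ 2 := by ring
  rw [e3]
  linarith

/-- diagonal -/
lemma diagT2 {C0 K0 b y D M : ℕ} {c : ℕ → ℝ} (hc : Co y c) (hy : 2 ≤ y) (N a : ℕ) (ha : N + a ≤ M)
    (T : Finset ℕ) (hcnt : CntH C0 K0 b y (insert a T)) :
    ∑ n ∈ Icc 1 N, rT T y n * (GF y D c (n + a) * GF y D c (n + a)) ≤
      (4 ^ Nat.log y M + EE y D) ^ 2 *
        (2 * (N * VT y (insert a T)) + (2 + Ad C0 K0 b y)) := by
  calc ∑ n ∈ Icc 1 N, rT T y n * (GF y D c (n + a) * GF y D c (n + a))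
      ≤ ∑ n ∈ Icc 1 N, (4 ^ Nat.log y M + EE y D) ^ 2 * rT (insert a T) y n := by
        refine sum_le_sum fun n hn => ?_
        rw [mem_Icc] at hn
        have h1 : |GF y D c (n + a)| ≤ 4 ^ Nat.log y M + EE y D :=
          abs_GF_le hc hy (by omega) (by omega)
        have h2 : GF y D c (n + a) * GF y D c (n + a) ≤
            (4 ^ Nat.log y M + EE y D) ^ 2 * ro y (n + a) := by
          by_cases hr : ro y (n + a) = 0
          · have : GF y D c (n + a) = 0 := by unfold GF; rw [hr, zero_mul]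
            rw [this, hr]; simp
          · have hr1 : ro y (n + a) = 1 := by
              unfold ro at hr ⊢
              split_ifs at hr ⊢ with h
              · rfl
              · exact absurd rfl hr
            rw [hr1, mul_one, ← sq, ← sq_abs]
            exact pow_le_pow_left₀ (abs_nonneg _) h1 2
        rw [← rT_one]
        have h3 := mul_le_mul_of_nonneg_left h2 (rT_nonneg T y n)
        refine h3.trans (le_of_eq ?_)
        ring
    _ = (4 ^ Nat.log y M + EE y D) ^ 2 * ∑ n ∈ Icc 1 N, rT (insert a T) y n := by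
        rw [mul_sum]
    _ ≤ _ := mul_le_mul_of_nonneg_left (cnt_rT_le hcnt N) (by positivity)

end Pool.Agent.J4.H38.SR2
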