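import Mathlib
import Pool.Agent.J4.H38.SR2.Bes
import Pool.Agent.J4.H38.SR.QLD

/-! All but few of the sets of shifts in a short interval are good: general base weights and arbitrary
positions of the shifts. -/

set_option autoImplicit false

namespace Pool.Agent.J4.H38.SR2

open Finset Filter
open Pool.Agent.Y822
open Pool.Agent.J4.H38.SR

lemma card_pow_le2 {A : Finset ℕ} {H : ℕ} (hA : A.card ≤ H) (j : ℕ) :
    ((A.powersetCard j).card : ℝ) ≤ (H : ℝ) ^ j := by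
  rw [card_powersetCard]
  exact_mod_cast (Nat.choose_le_pow A.card j).trans (Nat.pow_le_pow_left hA j)

lemma card_sdiff_le2 {A : Finset ℕ} {H : ℕ} (hA : A.card ≤ H) (S : Finset ℕ) :
    ((A \ S).card : ℝ) ≤ H := by
  exact_mod_cast (card_le_card (sdiff_subset (s := A) (t := S))).trans hA

/-- the sum of the densities -/
lemma sum_PB2 {k q C0 K0 b N y H : ℕ} {L Vk E : ℝ} {A T0 : Finset ℕ} (hA : A.card ≤ H) (hL : 0 < L)
    (hV : ∑ S ∈ A.powersetCard k, VT y (T0 ∪ S) ≤ Vk * ((H : ℝ) ^ k / L ^ q))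
    (hE : 2 + Ad C0 K0 b y ≤ E) (hE2 : E ≤ N / L ^ q) :
    ∑ S ∈ A.powersetCard k, PB2 C0 K0 b y N (T0 ∪ S) ≤
      (2 * Vk + 1) * (N * (H : ℝ) ^ k / L ^ q) := by
  have h1 : ∀ S ∈ A.powersetCard k, PB2 C0 K0 b y N (T0 ∪ S) ≤
      2 * N * VT y (T0 ∪ S) + N / L ^ q := by
    intro S _
    unfold PB2
    linarith
  refine (sum_le_sum h1).trans ?_
  rw [sum_add_distrib, ← mul_sum, sum_const, nsmul_eq_mul]
  have h4 := mul_le_mul_of_nonneg_left hV (by positivity : 0 ≤ 2 * (N : ℝ))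
  have h5 := mul_le_mul_of_nonneg_right (card_pow_le2 hA k) (by positivity : 0 ≤ (N : ℝ) / L ^ q)
  refine (add_le_add h4 h5).trans (le_of_eq ?_)
  field_simp

/-- the sum of the squares -/
lemma sum_QB2 {k q C0 K0 b N y D H l M1 : ℕ} {L V1 V2 E E1 η0 : ℝ} {A T0 : Finset ℕ}
    (hA : A.card ≤ H) (hL : 0 < L) (hη0 : 0 ≤ η0) (hN : 1 ≤ N) (hy : 1 ≤ y)
    (hlN : Nat.log y N ≤ M1) (hl : l ≤ M1)
    (hV1 : ∑ S ∈ A.powersetCard (k + 1), VT y (T0 ∪ S) ≤ V1 * ((H : ℝ) ^ (k + 1) / L ^ (q + 1)))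
    (hV2 : ∑ S ∈ A.powersetCard (k + 2), VT y (T0 ∪ S) ≤ V2 * ((H : ℝ) ^ (k + 2) / L ^ (q + 2)))
    (hE : 2 + Ad C0 K0 b y ≤ E) (hE2 : E ≤ N / L ^ (q + 1)) (hEE : EE y D ≤ E1)
    (hsm : 4 * E1 ^ 2 * (E * (D : ℝ) ^ 2) + (4 ^ M1 + 3 * E1) ^ 2 *
      (M1 * ((N : ℝ) / y + 1) + 3 * (N : ℝ) / y + 2 * (D : ℝ) / y) ≤ η0 * (N / L ^ (q + 2))) :
    ∑ S ∈ A.powersetCard k, QB2 C0 K0 b y D N l A T0 S ≤
      (4 ^ M1 + 3 * E1) ^ 2 * (2 * ((k + 1) * V1) + 1) *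
        (N * (H : ℝ) ^ (k + 1) / L ^ (q + 1)) +
      (4 * E1 ^ 2 * (1 / 2) ^ b * ((k + 1) * ((k + 2) * V2)) + η0) *
        (N * (H : ℝ) ^ (k + 2) / L ^ (q + 2)) := by
  classical
  have hEE0 := (EE_pos y D).le
  have hE10 : 0 ≤ E1 := hEE0.trans hEE
  have hAd := Ad_nonneg C0 K0 b y
  have hE0 : 0 ≤ E := by linarith
  have hy0 : (0 : ℝ) < y := by exact_mod_cast hy
  have h4M : (4 : ℝ) ^ l ≤ 4 ^ M1 := pow_le_pow_right₀ (by norm_num) hl
  set B := (4 : ℝ) ^ M1 + 3 * E1 with hB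
  have hB0 : 0 ≤ B := by positivity
  have hB1 : (4 : ℝ) ^ l + EE y D ≤ B := by linarith
  have hB2 : (4 : ℝ) ^ l + 3 * EE y D ≤ B := by linarith
  have hins : ∀ (a : ℕ) (S : Finset ℕ), insert a (T0 ∪ S) = T0 ∪ insert a S := fun a S =>
    (union_insert a T0 S).symm
  -- the diagonal
  have hd : ∀ S ∈ A.powersetCard k, ∀ a ∈ A \ S, dgB2 C0 K0 b y D N l (T0 ∪ S) a ≤
      B ^ 2 * (2 * N * VT y (T0 ∪ insert a S) + N / L ^ (q + 1)) := by
    intro S _ a _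
    unfold dgB2
    rw [hins]
    have h1 : (4 ^ l + EE y D) ^ 2 ≤ B ^ 2 := pow_le_pow_left₀ (by positivity) hB1 2
    have h4 : 0 ≤ VT y (T0 ∪ insert a S) := VT_nonneg _ _
    refine mul_le_mul h1 (by linarith) (by positivity) (by positivity)
  have hsd : ∑ S ∈ A.powersetCard k, ∑ a ∈ A \ S, dgB2 C0 K0 b y D N l (T0 ∪ S) a ≤
      B ^ 2 * (2 * ((k + 1) * V1) + 1) * (N * (H : ℝ) ^ (k + 1) / L ^ (q + 1)) := by
    refine (sum_le_sum fun S hS => sum_le_sum fun a ha => hd S hS a ha).trans ?_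
    simp only [← mul_sum, sum_add_distrib]
    rw [← Pool.Agent.TH891.SG.sum_insert_pairs A k (fun S => VT y (T0 ∪ S))]
    have h5 : ∑ S ∈ A.powersetCard k, ∑ _a ∈ A \ S, (N : ℝ) / L ^ (q + 1) ≤
        (H : ℝ) ^ k * (H * (N / L ^ (q + 1))) := by
      calc _ ≤ ∑ _S ∈ A.powersetCard k, (H : ℝ) * (N / L ^ (q + 1)) := by
            refine sum_le_sum fun S _ => ?_
            rw [sum_const, nsmul_eq_mul]
            exact mul_le_mul_of_nonneg_right (card_sdiff_le2 hA S) (by positivity)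
        _ ≤ _ := by
            rw [sum_const, nsmul_eq_mul]
            exact mul_le_mul_of_nonneg_right (card_pow_le2 hA k) (by positivity)
    have h6 := mul_le_mul_of_nonneg_left hV1 (by positivity : 0 ≤ 2 * (N : ℝ) * ((k : ℝ) + 1))
    have h8 : 2 * (N : ℝ) * (((k : ℝ) + 1) * ∑ S ∈ A.powersetCard (k + 1), VT y (T0 ∪ S)) +
        ∑ S ∈ A.powersetCard k, ∑ _a ∈ A \ S, (N : ℝ) / L ^ (q + 1) ≤
        2 * (N : ℝ) * ((k : ℝ) + 1) * (V1 * ((H : ℝ) ^ (k + 1) / L ^ (q + 1))) +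
          (H : ℝ) ^ k * (H * (N / L ^ (q + 1))) := by
      refine add_le_add (le_trans (le_of_eq ?_) h6) h5
      ring
    refine (mul_le_mul_of_nonneg_left h8 (by positivity : 0 ≤ B ^ 2)).trans (le_of_eq ?_)
    rw [pow_succ (H : ℝ) k]
    field_simp
  -- off the diagonal
  have ho : ∀ S ∈ A.powersetCard k, ∀ a ∈ A \ S, ∀ a' ∈ A \ (insert a S),
      ogB2 C0 K0 b y D N l (T0 ∪ S) a a' ≤
      4 * E1 ^ 2 * (1 / 2) ^ b * N * VT y (T0 ∪ insert a' (insert a S)) +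
        η0 * (N / L ^ (q + 2)) := by
    intro S _ a _ a' _
    have e1 : insert a (insert a' (T0 ∪ S)) = T0 ∪ insert a' (insert a S) := by
      rw [hins, hins, Finset.insert_comm]
    unfold ogB2 KL
    rw [e1]
    set T2 := T0 ∪ insert a' (insert a S) with hT2
    have hV0 : 0 ≤ VT y T2 := VT_nonneg _ _
    have h1 : 4 * EE y D ^ 2 ≤ 4 * E1 ^ 2 := by gcongr
    have h3 : (2 + Ad C0 K0 b y) * (D : ℝ) ^ 2 ≤ E * (D : ℝ) ^ 2 := by gcongr
    have h4 : 4 * EE y D ^ 2 * ((1 / 2) ^ b * (N * VT y T2) + (2 + Ad C0 K0 b y) * (D : ℝ) ^ 2) ≤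
        4 * E1 ^ 2 * ((1 / 2) ^ b * (N * VT y T2) +
          E * (D : ℝ) ^ 2) := mul_le_mul h1 (add_le_add le_rfl h3) (by positivity) (by positivity)
    have h5 : (4 ^ l + 3 * EE y D) ^ 2 *
        (Nat.log y N * ((N : ℝ) / y + 1) + 3 * (N : ℝ) / y + 2 * (D : ℝ) / y) ≤
        B ^ 2 * (M1 * ((N : ℝ) / y + 1) + 3 * (N : ℝ) / y + 2 * (D : ℝ) / y) := by
      have hlog : (Nat.log y N : ℝ) ≤ M1 := by exact_mod_cast hlN
      gcongr
    have h6 : 4 * E1 ^ 2 * ((1 / 2 : ℝ) ^ b * (N * VT y T2) + E * (D : ℝ) ^ 2) =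
        4 * E1 ^ 2 * (1 / 2) ^ b * N * VT y T2 + 4 * E1 ^ 2 * (E * (D : ℝ) ^ 2) := by ring
    linarith
  have hso : ∑ S ∈ A.powersetCard k, ∑ a ∈ A \ S, ∑ a' ∈ A \ (insert a S),
      ogB2 C0 K0 b y D N l (T0 ∪ S) a a' ≤
      (4 * E1 ^ 2 * (1 / 2) ^ b * ((k + 1) * ((k + 2) * V2)) + η0) *
        (N * (H : ℝ) ^ (k + 2) / L ^ (q + 2)) := by
    refine (sum_le_sum fun S hS => sum_le_sum fun a ha => sum_le_sum fun a' ha' =>
      ho S hS a ha a' ha').trans ?_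
    simp only [← mul_sum, sum_add_distrib]
    rw [← Pool.Agent.TH891.SG.sum_insert_pairs A k
      (fun S => ∑ a' ∈ A \ S, VT y (T0 ∪ insert a' S)),
      ← Pool.Agent.TH891.SG.sum_insert_pairs A (k + 1) (fun S => VT y (T0 ∪ S))]
    have h5 : ∑ S ∈ A.powersetCard k, ∑ a ∈ A \ S, ∑ _a' ∈ A \ (insert a S),
        ((N : ℝ) / L ^ (q + 2)) ≤ (H : ℝ) ^ k * (H * (H * (N / L ^ (q + 2)))) := by
      calc _ ≤ ∑ _S ∈ A.powersetCard k, (H : ℝ) * (H * (N / L ^ (q + 2))) := by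
            refine sum_le_sum fun S _ => ?_
            calc _ ≤ ∑ _a ∈ A \ S, (H : ℝ) * (N / L ^ (q + 2)) := by
                  refine sum_le_sum fun a _ => ?_
                  rw [sum_const, nsmul_eq_mul]
                  exact mul_le_mul_of_nonneg_right (card_sdiff_le2 hA _) (by positivity)
              _ ≤ _ := by
                  rw [sum_const, nsmul_eq_mul]
                  exact mul_le_mul_of_nonneg_right (card_sdiff_le2 hA S) (by positivity)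
        _ ≤ _ := by
            rw [sum_const, nsmul_eq_mul]
            exact mul_le_mul_of_nonneg_right (card_pow_le2 hA k) (by positivity)
    have h6 := mul_le_mul_of_nonneg_left hV2
      (by positivity : 0 ≤ 4 * E1 ^ 2 * (1 / 2) ^ b * (N : ℝ) * (((k : ℝ) + 1) * ((k : ℝ) + 2)))
    have h8 : 4 * E1 ^ 2 * (1 / 2) ^ b * (N : ℝ) * (((k : ℝ) + 1) * ((((k + 1 : ℕ) : ℝ) + 1) *
        ∑ S ∈ A.powersetCard (k + 1 + 1), VT y (T0 ∪ S))) + η0 * ∑ S ∈ A.powersetCard k,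
        ∑ a ∈ A \ S, ∑ _a' ∈ A \ (insert a S), ((N : ℝ) / L ^ (q + 2)) ≤
        4 * E1 ^ 2 * (1 / 2) ^ b * (N : ℝ) * (((k : ℝ) + 1) * ((k : ℝ) + 2)) *
          (V2 * ((H : ℝ) ^ (k + 2) / L ^ (q + 2))) +
          η0 * ((H : ℝ) ^ k * (H * (H * (N / L ^ (q + 2))))) := by
      refine add_le_add (le_trans (le_of_eq ?_) h6) (mul_le_mul_of_nonneg_left h5 hη0)
      push_cast
      ring
    refine h8.trans (le_of_eq ?_)
    rw [pow_succ (H : ℝ) (k + 1), pow_succ (H : ℝ) k]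
    field_simp
  unfold QB2
  rw [sum_add_distrib]
  exact add_le_add hsd hso

lemma few_calc2 {k q : ℕ} {NN H L A1 W P Q δ ε' : ℝ} (hN : 0 < NN) (hH : 0 ≤ H) (hL : 0 < L)
    (hδ : 0 < δ) (hε : 0 < ε') (hA1 : 0 ≤ A1) (_hW : 0 ≤ W)
    (hP : P ≤ A1 * (NN * H ^ k / L ^ q)) (hQ : Q ≤ W * (NN * H ^ (k + 2) / L ^ (q + 2)))
    (hAW : A1 * W ≤ (ε' * δ / 2 ^ (k + 1)) ^ 2) :
    2 ^ (k + 1) / (δ * (NN / L ^ (q + 1))) * (Real.sqrt P * Real.sqrt Q) ≤ ε' * H ^ (k + 1) := by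
  have h1 : Real.sqrt P * Real.sqrt Q ≤ (ε' * δ / 2 ^ (k + 1)) * (NN * H ^ (k + 1) / L ^ (q + 1)) := by
    calc Real.sqrt P * Real.sqrt Q
        ≤ Real.sqrt (A1 * (NN * H ^ k / L ^ q)) *
          Real.sqrt (W * (NN * H ^ (k + 2) / L ^ (q + 2))) :=
          mul_le_mul (Real.sqrt_le_sqrt hP) (Real.sqrt_le_sqrt hQ) (Real.sqrt_nonneg _)
            (Real.sqrt_nonneg _)
      _ = Real.sqrt ((A1 * (NN * H ^ k / L ^ q)) *
          (W * (NN * H ^ (k + 2) / L ^ (q + 2)))) := by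
          exact (Real.sqrt_mul (by positivity) _).symm
      _ ≤ _ := by
          refine Real.sqrt_le_iff.2 ⟨by positivity, ?_⟩
          have e : (A1 * (NN * H ^ k / L ^ q)) * (W * (NN * H ^ (k + 2) / L ^ (q + 2))) =
              (A1 * W) * (NN * H ^ (k + 1) / L ^ (q + 1)) ^ 2 := by
            field_simp
            ring
          rw [e, mul_pow]
          exact mul_le_mul_of_nonneg_right hAW (by positivity)
  calc 2 ^ (k + 1) / (δ * (NN / L ^ (q + 1))) * (Real.sqrt P * Real.sqrt Q)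
      ≤ 2 ^ (k + 1) / (δ * (NN / L ^ (q + 1))) *
        ((ε' * δ / 2 ^ (k + 1)) * (NN * H ^ (k + 1) / L ^ (q + 1))) :=
        mul_le_mul_of_nonneg_left h1 (by positivity)
    _ = ε' * H ^ (k + 1) := by field_simp

lemma alg_const2 (k t0 b : ℕ) {Cv cE κ : ℝ} (hκ : κ ≠ 0) :
    ((2 * Cv + 1) * (2 / κ) ^ (k + t0)) *
      (4 * ((cE / κ) ^ 3) ^ 2 * (1 / 2) ^ b * ((k + 1) * ((k + 2) * (Cv * (2 / κ) ^ (k + 2 + t0))))) =
    ((2 * Cv + 1) * 4 * cE ^ 6 * ((k + 1) * (k + 2)) * Cv * 2 ^ (2 * k + 2 * t0 + 2)) *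
      (1 / κ) ^ (2 * k + 2 * t0 + 8) * (1 / 2) ^ b := by
  rw [div_pow 2 κ, div_pow 2 κ, div_pow cE κ, div_pow 1 κ,
    show 2 * k + 2 * t0 + 8 = (k + t0) + (k + 2 + t0) + 6 by ring,
    show 2 * k + 2 * t0 + 2 = (k + t0) + (k + 2 + t0) by ring,
    pow_add (2 : ℝ) (k + t0), pow_add (κ : ℝ) ((k + t0) + (k + 2 + t0)), pow_add (κ : ℝ) (k + t0), one_pow]
  field_simp

/-- the logarithm to the base `y` -/
lemma log_le_B {κ : ℝ} (hκ : 0 < κ) {B N y M : ℕ} (hN : 1 ≤ N) (hL : 0 < Real.log N)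
    (hy : Real.exp (κ / 2 * Real.log N) ≤ y) (hM : M ≤ N ^ B) :
    Nat.log y M ≤ ⌈2 * B / κ⌉₊ := by
  have hN0 : (0 : ℝ) < N := by exact_mod_cast hN
  have hy1 : 1 < y := by
    have h1 : 1 < Real.exp (κ / 2 * Real.log N) := Real.one_lt_exp_iff.2 (by positivity)
    exact_mod_cast lt_of_lt_of_le h1 hy
  refine (Nat.log_mono_right hM).trans ?_
  by_contra hc
  push Not at hc
  have h1 : y ^ (⌈2 * B / κ⌉₊ + 1) ≤ N ^ B := by
    refine (Nat.pow_le_pow_right (by omega) hc).trans (Nat.pow_log_le_self y (by positivity))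
  have h2 : ((y : ℝ)) ^ (⌈2 * B / κ⌉₊ + 1) ≤ (N : ℝ) ^ B := by exact_mod_cast h1
  have h3 : Real.exp (κ / 2 * Real.log N) ^ (⌈2 * B / κ⌉₊ + 1) ≤ (N : ℝ) ^ B :=
    (pow_le_pow_left₀ (Real.exp_pos _).le hy _).trans h2
  have h4 : (N : ℝ) ^ B = Real.exp (B * Real.log N) := by
    rw [Real.exp_nat_mul, Real.exp_log hN0]
  rw [← Real.exp_nat_mul, h4, Real.exp_le_exp] at h3
  have h5 := Nat.le_ceil (2 * (B : ℝ) / κ)
  push_cast at h3
  have h6 : (2 * (B : ℝ) / κ + 1) * (κ / 2 * Real.log N) ≤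
      (⌈2 * B / κ⌉₊ + 1) * (κ / 2 * Real.log N) := by
    refine mul_le_mul_of_nonneg_right (by linarith) (by positivity)
  have h7 : (2 * (B : ℝ) / κ + 1) * (κ / 2 * Real.log N) = B * Real.log N + κ / 2 * Real.log N := by
    field_simp
  have h8 : 0 < κ / 2 * Real.log N := by positivity
  linarith

/-- **few sets of shifts are not good** -/
theorem few_short2 (k t0 B : ℕ) (hB : 1 ≤ B) {xs δ ε' κm Cv : ℝ} (hxs : 0 < xs) (hxs1 : xs ≤ 1 / 2)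
    (hδ : 0 < δ) (hε : 0 < ε') (hκm : 0 < κm) (hCv : 0 < Cv) :
    ∃ κ Λ : ℝ, 0 < κ ∧ κ ≤ κm ∧ κ ≤ 1 / 2 ∧ 0 < Λ ∧ ∀ᶠ N : ℕ in atTop,
      ∀ y : ℕ, (y : ℝ) ≤ Real.exp (κ * Real.log N) → Real.exp (κ * Real.log N) ≤ y + 1 →
      ∀ D : ℕ, (D : ℝ) ≤ Real.exp ((1 / 2 - xs) * Real.log N) →
      ∀ A T0 X0 : Finset ℕ, T0.card = t0 → X0.card ≤ y → Disjoint T0 A →
      ∀ M : ℕ, M ≤ N ^ B → (∀ a ∈ A, N + a ≤ M) →
      (∀ a ∈ A, ∀ a' ∈ A, max a a' - min a a' ≤ N) →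
      ∀ e : ℕ → ℝ, (∀ n, 0 ≤ e n ∧ e n ≤ 1) → (∀ n ∈ Icc 1 N, n ∉ X0 → e n ≤ rT T0 y n) →
      ∀ g : ℕ → ℝ, (∀ n, 0 ≤ g n ∧ g n ≤ ro y n) →
      ∀ H : ℕ, Λ * Real.log N ≤ H → A.card ≤ H →
      (∀ j ≤ k + 2, ∑ S ∈ A.powersetCard j, VT y (T0 ∪ S) ≤
        Cv * (2 / κ) ^ (j + t0) * ((H : ℝ) ^ j / Real.log N ^ (j + t0))) →
      ∀ Bad : Finset (Finset ℕ),
        (∀ D' ∈ Bad, D' ∈ A.powersetCard (k + 1) ∧
          ¬ Good e g (ro y) (LD y D N) (δ * (N / Real.log N ^ (k + t0 + 1))) D') →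
        (Bad.card : ℝ) ≤ ε' * (H : ℝ) ^ (k + 1) := by
  classical
  obtain ⟨cE, hcE, hEE⟩ := EE_coreY
  obtain ⟨C0, K0, hC0, hK0, hcnt⟩ := cntT (t0 + k + 2)
  set τ : ℝ := (ε' * δ / 2 ^ (k + 1)) ^ 2 with hτ
  have hτ0 : 0 < τ := by positivity
  set Cst : ℝ := (2 * Cv + 1) * 4 * cE ^ 6 * ((k + 1) * (k + 2)) * Cv * 2 ^ (2 * k + 2 * t0 + 2) with hCst
  have hCst0 : 0 < Cst := by positivity
  obtain ⟨b, hbB, hb1, hb2⟩ := exists_b C0 hC0 C0 (2 * k + 2 * t0 + 8) hCst0 hxs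
    (by positivity : 0 < τ / 3) (lt_min hκm (by norm_num : (0 : ℝ) < 1 / 2))
  obtain ⟨κ, hκd⟩ : ∃ κ : ℝ, κ = xs / (4 * C0 * b + 1) := ⟨_, rfl⟩
  rw [← hκd] at hb2
  have hκ : 0 < κ := by rw [hκd]; positivity
  have hκm' : κ ≤ κm := hb2.trans (min_le_left _ _)
  have hκh : κ ≤ 1 / 2 := hb2.trans (min_le_right _ _)
  have hκ1 : κ ≤ 1 := by linarith
  have hκinv : (4 * (C0 : ℝ) * b + 1) / xs = 1 / κ := by rw [hκd]; field_simp
  have hκσ : κ * (4 * C0 * b + 1) ≤ xs := by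
    rw [hκd]
    field_simp
    exact le_rfl
  rw [hκinv] at hb1
  set M1 : ℕ := ⌈2 * B / κ⌉₊ with hM1
  set E1 : ℝ := (cE / κ) ^ 3 with hE1
  have hE10 : 0 < E1 := by positivity
  set A1 : ℝ := 2 * (Cv * (2 / κ) ^ (k + t0)) + 1 with hA1
  have hA10 : 0 < A1 := by positivity
  set A2 : ℝ := (4 ^ M1 + 3 * E1) ^ 2 * (2 * ((k + 1) * (Cv * (2 / κ) ^ (k + 1 + t0))) + 1) with hA2
  have hA20 : 0 < A2 := by positivity
  set η0 : ℝ := τ / (3 * A1) with hη0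
  have hη00 : 0 < η0 := by positivity
  set η1 : ℝ := 4 * E1 ^ 2 * (1 / 2) ^ b * ((k + 1) * ((k + 2) * (Cv * (2 / κ) ^ (k + 2 + t0)))) with hη1
  have hη10 : 0 < η1 := by positivity
  set Λ : ℝ := 3 * A1 * A2 / τ with hΛ
  have hΛ0 : 0 < Λ := by positivity
  have hAη : A1 * η1 ≤ τ / 3 := by
    have h2κ : 1 ≤ (2 / κ) ^ (k + t0) := by
      refine one_le_pow₀ ?_
      rw [le_div_iff₀ hκ]
      linarith
    have h1 : A1 ≤ (2 * Cv + 1) * (2 / κ) ^ (k + t0) := by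
      rw [hA1]
      linarith
    calc A1 * η1 ≤ ((2 * Cv + 1) * (2 / κ) ^ (k + t0)) * η1 := mul_le_mul_of_nonneg_right h1 hη10.le
      _ = Cst * (1 / κ) ^ (2 * k + 2 * t0 + 8) * (1 / 2) ^ b := by
          rw [hη1, hE1, hCst]
          exact alg_const2 k t0 b hκ.ne'
      _ ≤ τ / 3 := hb1
  have hAtot : A1 * (A2 / Λ + η1 + η0) ≤ τ := by
    have e1 : A1 * (A2 / Λ) = τ / 3 := by rw [hΛ]; field_simp
    have e2 : A1 * η0 = τ / 3 := by rw [hη0]; field_simp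
    calc A1 * (A2 / Λ + η1 + η0) = A1 * (A2 / Λ) + A1 * η1 + A1 * η0 := by ring
      _ ≤ τ / 3 + τ / 3 + τ / 3 := by rw [e1, e2]; linarith
      _ = τ := by ring
  refine ⟨κ, Λ, hκ, hκm', hκh, hΛ0, ?_⟩
  have hxs' : 0 < 1 - xs := by linarith
  have hκ' : 0 < 1 - κ := by linarith
  filter_upwards [ev_logN (eventually_ge_atTop (1 : ℝ)), eventually_ge_atTop 3,
    ev_logN (eventually_ge_atTop (5 * (2 / κ))),
    ev_small (k + t0) hxs' (2 + 2 * K0) one_pos, ev_small (k + t0 + 1) hxs' (2 + 2 * K0) one_pos,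
    ev_small (k + t0 + 1) hκ' (4 ^ M1 + E1) (by positivity : 0 < δ / 2),
    ev_small (k + t0 + 2) hxs (4 * E1 ^ 2 * (2 + 2 * K0)) (by positivity : 0 < η0 / 2),
    ev_small (k + t0 + 2) hκ ((4 ^ M1 + 3 * E1) ^ 2 * (3 * (M1 + 5))) (by positivity : 0 < η0 / 2)]
    with N hL1 hN3 hL5 hs1 hs2 hs3 hs4 hs5
  intro y hya hyb D hD A T0 X0 hT0c hX0 hdis M hMB hAM hAd' e he heT g hg H hH1 hAH hVT Bad hBad
  have h5κ : 5 ≤ κ / 2 * Real.log N := by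
    have h1 : (5 : ℝ) = κ / 2 * (5 * (2 / κ)) := by field_simp
    rw [h1]
    exact mul_le_mul_of_nonneg_left hL5 (by positivity)
  obtain ⟨y1, y1', y2, y3, y4, y5⟩ := y_core (M := 2) hκ (by omega : 1 ≤ N) (by push_cast; linarith)
    hya hyb
  have hAd := Ad_coreY C0 K0 b hκ (by omega : 1 ≤ N) hya hyb h5κ hκσ
  set L := Real.log N with hLd
  have hL0 : 0 < L := by linarith
  have hN0 : (0 : ℝ) < N := by exact_mod_cast (by omega : 0 < N)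
  have hNe : (N : ℝ) = Real.exp L := by rw [hLd, Real.exp_log hN0]
  have hy0 : (0 : ℝ) < y := by exact_mod_cast (by omega : 0 < y)
  have hDN : D ≤ N := by
    have : (D : ℝ) ≤ N := by
      refine hD.trans ?_
      rw [hNe]
      refine Real.exp_le_exp.2 ?_
      have h1 : 0 ≤ (1 / 2 + xs) * L := by positivity
      linarith
    exact_mod_cast this
  have hEED : EE y D ≤ E1 := hEE κ hκ hκ1 N hN3 (by linarith) y hya hyb D hDN
  have hEE0 := (EE_pos y D).le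
  have hAdn := Ad_nonneg C0 K0 b y
  have hlM : Nat.log y M ≤ M1 := log_le_B hκ (by omega : 1 ≤ N) hL0 y1' hMB
  have hlN : Nat.log y N ≤ M1 := log_le_B hκ (by omega : 1 ≤ N) hL0 y1' (by
    calc N = N ^ 1 := (pow_one N).symm
      _ ≤ N ^ B := Nat.pow_le_pow_right (by omega) hB)
  set E : ℝ := (2 + 2 * K0) * Real.exp (xs * L) with hE
  have hE0 : 0 ≤ E := by positivity
  have hEa : E ≤ N / L ^ (k + t0) := by
    have : (1 - (1 - xs)) = xs := by ring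
    rw [this, one_mul] at hs1
    exact hs1
  have hEb : E ≤ N / L ^ (k + t0 + 1) := by
    have : (1 - (1 - xs)) = xs := by ring
    rw [this, one_mul] at hs2
    exact hs2
  -- the trivial bound
  have hx0 : 0 < δ * ((N : ℝ) / L ^ (k + t0 + 1)) := by positivity
  have h4M : (4 : ℝ) ^ Nat.log y M ≤ 4 ^ M1 := pow_le_pow_right₀ (by norm_num) hlM
  have hyM : (y : ℝ) * (4 ^ Nat.log y M + EE y D) ≤ δ * (N / L ^ (k + t0 + 1)) / 2 := by
    have : (1 - (1 - κ)) = κ := by ring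
    rw [this] at hs3
    calc (y : ℝ) * (4 ^ Nat.log y M + EE y D) ≤ Real.exp (κ * L) * (4 ^ M1 + E1) := by
          gcongr
      _ = (4 ^ M1 + E1) * Real.exp (κ * L) := mul_comm _ _
      _ ≤ δ / 2 * (N / L ^ (k + t0 + 1)) := hs3
      _ = _ := by ring
  -- the smallness condition
  have hsm : 4 * E1 ^ 2 * (E * (D : ℝ) ^ 2) + (4 ^ M1 + 3 * E1) ^ 2 *
      (M1 * ((N : ℝ) / y + 1) + 3 * (N : ℝ) / y + 2 * (D : ℝ) / y) ≤ η0 * (N / L ^ (k + t0 + 2)) := by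
    have h1 : E * (D : ℝ) ^ 2 ≤ (2 + 2 * K0) * Real.exp ((1 - xs) * L) := by
      calc E * (D : ℝ) ^ 2 ≤ E * (Real.exp ((1 / 2 - xs) * L)) ^ 2 := by gcongr
        _ = (2 + 2 * K0) * (Real.exp (xs * L) * (Real.exp ((1 / 2 - xs) * L)) ^ 2) := by
            rw [hE]; ring
        _ = (2 + 2 * K0) * Real.exp ((1 - xs) * L) := by
            rw [← Real.exp_nat_mul, ← Real.exp_add]
            congr 2
            push_cast
            ring
    have h2 : (N : ℝ) / y ≤ 2 * Real.exp ((1 - κ) * L) := by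
      rw [div_le_iff₀ hy0]
      have h3 : Real.exp ((1 - κ) * L) * Real.exp (κ * L) = N := by
        rw [← Real.exp_add, hNe]; ring_nf
      have h4 : 0 < Real.exp ((1 - κ) * L) := Real.exp_pos _
      have h6 := mul_le_mul_of_nonneg_left y4 h4.le
      rw [← h3]
      linarith
    have h3 : 1 ≤ Real.exp ((1 - κ) * L) := Real.one_le_exp (by positivity)
    have h4 : (D : ℝ) / y ≤ N / y := by
      have : (D : ℝ) ≤ N := by exact_mod_cast hDN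
      gcongr
    have h5 : M1 * ((N : ℝ) / y + 1) + 3 * (N : ℝ) / y + 2 * (D : ℝ) / y ≤
        (3 * (M1 + 5)) * Real.exp ((1 - κ) * L) := by
      have e1 : 3 * (N : ℝ) / y = 3 * (N / y) := by ring
      have e2 : 2 * (D : ℝ) / y = 2 * (D / y) := by ring
      rw [e1, e2]
      have hM0 : (0 : ℝ) ≤ M1 := Nat.cast_nonneg _
      have h6 : M1 * ((N : ℝ) / y + 1) ≤ M1 * (3 * Real.exp ((1 - κ) * L)) :=
        mul_le_mul_of_nonneg_left (by linarith) hM0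
      linarith
    calc 4 * E1 ^ 2 * (E * (D : ℝ) ^ 2) + (4 ^ M1 + 3 * E1) ^ 2 *
      (M1 * ((N : ℝ) / y + 1) + 3 * (N : ℝ) / y + 2 * (D : ℝ) / y)
        ≤ 4 * E1 ^ 2 * ((2 + 2 * K0) * Real.exp ((1 - xs) * L)) + (4 ^ M1 + 3 * E1) ^ 2 *
          ((3 * (M1 + 5)) * Real.exp ((1 - κ) * L)) := by gcongr
      _ = 4 * E1 ^ 2 * (2 + 2 * K0) * Real.exp ((1 - xs) * L) + (4 ^ M1 + 3 * E1) ^ 2 *
          (3 * (M1 + 5)) * Real.exp ((1 - κ) * L) := by ring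
      _ ≤ η0 / 2 * (N / L ^ (k + t0 + 2)) + η0 / 2 * (N / L ^ (k + t0 + 2)) := add_le_add hs4 hs5
      _ = _ := by ring
  have hV0 := hVT k (by omega)
  have hV1 := hVT (k + 1) (by omega)
  have hV2 := hVT (k + 2) le_rfl
  rw [show k + 1 + t0 = k + t0 + 1 by ring] at hV1
  rw [show k + 2 + t0 = k + t0 + 2 by ring] at hV2
  have hP := sum_PB2 (k := k) (q := k + t0) (C0 := C0) (K0 := K0) (b := b) (N := N) (y := y) (H := H)
    (L := L) (E := E) hAH hL0 hV0 hAd hEa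
  have hQ := sum_QB2 (k := k) (q := k + t0) (C0 := C0) (K0 := K0) (b := b) (N := N) (y := y) (D := D)
    (H := H) (l := Nat.log y M) (M1 := M1) (L := L) (E := E) (E1 := E1) (η0 := η0)
    hAH hL0 hη00.le (by omega) (by omega) hlN hlM hV1 hV2 hAd hEb hEED hsm
  rw [← hA1] at hP
  rw [show k + t0 + 1 = k + 1 + t0 by ring, ← hA2, show k + t0 + 2 = k + 2 + t0 by ring, ← hη1,
    show k + 1 + t0 = k + t0 + 1 by ring, show k + 2 + t0 = k + t0 + 2 by ring] at hQ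
  have hH0 : (0 : ℝ) ≤ H := Nat.cast_nonneg _
  have hQ' : ∑ S ∈ A.powersetCard k, QB2 C0 K0 b y D N (Nat.log y M) A T0 S ≤
      (A2 / Λ + η1 + η0) * (N * (H : ℝ) ^ (k + 2) / L ^ (k + t0 + 2)) := by
    refine hQ.trans ?_
    have h1 : (N : ℝ) * (H : ℝ) ^ (k + 1) / L ^ (k + t0 + 1) ≤
        1 / Λ * (N * (H : ℝ) ^ (k + 2) / L ^ (k + t0 + 2)) := by
      have e : 1 / Λ * (N * (H : ℝ) ^ (k + 2) / L ^ (k + t0 + 2)) =
          (N * (H : ℝ) ^ (k + 1) / L ^ (k + t0 + 1)) * (H / (Λ * L)) := by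
        rw [pow_succ (H : ℝ) (k + 1), pow_succ L (k + t0 + 1)]
        field_simp
      rw [e]
      refine le_mul_of_one_le_right (by positivity) ?_
      rw [one_le_div (by positivity)]
      exact hH1
    have h2 := mul_le_mul_of_nonneg_left h1 hA20.le
    have e2 : (A2 / Λ + η1 + η0) * (N * (H : ℝ) ^ (k + 2) / L ^ (k + t0 + 2)) =
        A2 * (1 / Λ * (N * (H : ℝ) ^ (k + 2) / L ^ (k + t0 + 2))) +
        (η1 + η0) * (N * (H : ℝ) ^ (k + 2) / L ^ (k + t0 + 2)) := by ring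
    rw [e2]
    linarith
  have hcnt' : ∀ T : Finset ℕ, T.card ≤ T0.card + k + 2 → CntH C0 K0 b y T := by
    intro T hT N' a a' d d' h1 h2 h3 h4 h5
    exact hcnt b hbB y y2 T (by rw [← hT0c]; exact hT) N' a a' d d' h1 h2 h3 h4 h5
  exact (bad_le2 y2 A T0 X0 hAM hAd' hdis hX0 hcnt' he heT hg hx0 hyM Bad hBad).trans
    (few_calc2 hN0 hH0 hL0 hδ hε hA10.le (by positivity) hP hQ' hAtot)

end Pool.Agent.J4.H38.SR2
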