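import Mathlib
import Pool.Agent.J4.H38.SR2.Few
import Pool.Agent.TH891.SG.Cnt3

/-! The local densities of the tuples `{-N} ∪ S` and their averages over the sets `S` of an interval. -/

set_option autoImplicit false

namespace Pool.Agent.J4.H38.SR2

open Finset Filter
open Pool.Agent.Y822
open Pool.Agent.J4.H38.SR
open Pool.Agent.H387R2.Uni (nuT Adm locT CT CT_nonneg)
open Pool.Agent.H373R2.T7 (pz Vz mem_pz rhoA PerA lam_fund)

/-- the set of the numbers `N + d` -/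
def sh (N : ℕ) (D : Finset ℕ) : Finset ℕ := D.image (· + N)

lemma card_sh (N : ℕ) (D : Finset ℕ) : (sh N D).card = D.card :=
  card_image_of_injective _ (add_left_injective N)

lemma zero_notMem_sh {N : ℕ} (hN : 1 ≤ N) (D : Finset ℕ) : 0 ∉ sh N D := by
  unfold sh
  rw [mem_image]
  rintro ⟨d, _, h⟩
  omega

/-- forbidden classes of a prime `m`: one of the `w - m` is divisible by `p` -/
def QW (W : Finset ℕ) (p m : ℕ) : Prop := ∃ w ∈ W, w ≡ m [MOD p]

lemma rho_W (W : Finset ℕ) (p : ℕ) (hp : p.Prime) : rhoA (QW W) p + 1 = nuT (pat W) p := by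
  classical
  unfold nuT rhoA pat
  rw [image_insert, Nat.zero_mod]
  have h : (range p).filter (fun r => ¬ p ∣ r ∧ QW W p r) = (W.image (· % p)).erase 0 := by
    ext r
    rw [mem_filter, mem_range, mem_erase, mem_image]
    constructor
    · rintro ⟨hr, h1, w, hw, h2⟩
      refine ⟨fun h0 => h1 (h0 ▸ dvd_zero p), w, hw, ?_⟩
      have h3 : w % p = r % p := h2
      rw [h3, Nat.mod_eq_of_lt hr]
    · rintro ⟨hr0, w, hw, rfl⟩
      refine ⟨Nat.mod_lt _ hp.pos, fun hd => hr0 (Nat.eq_zero_of_dvd_of_lt hd (Nat.mod_lt _ hp.pos)),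
        w, hw, ?_⟩
      exact (Nat.mod_modEq w p).symm
  have h2 : (insert 0 (W.image (· % p))) = insert 0 ((W.image (· % p)).erase 0) := by
    ext r
    simp only [mem_insert, mem_erase]
    tauto
  rw [h2, card_insert_of_notMem (notMem_erase _ _), ← h]

lemma perA_QW (W : Finset ℕ) (k : ℕ) (hW : W.card ≤ k) : PerA (QW W) (k + 1) := by
  constructor
  · intro p n
    unfold QW
    constructor
    · rintro ⟨w, hw, h⟩
      exact ⟨w, hw, h.trans (Nat.mod_modEq n p).symm⟩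
    · rintro ⟨w, hw, h⟩
      exact ⟨w, hw, h.trans (Nat.mod_modEq n p)⟩
  · intro p hp
    have h1 := rho_W W p hp
    have h2 := nuT_le_card (pat W) p
    have h3 : (pat W).card ≤ W.card + 1 := card_insert_le _ _
    omega

lemma prod_rhoW {W : Finset ℕ} (h0 : 0 ∉ W) (k : ℕ) (hW : W.card = k) (y : ℕ) :
    ∏ p ∈ pz y, (1 - (rhoA (QW W) p : ℝ) / (p - 1 : ℝ)) = PT (pat W) y * Vz y ^ k := by
  unfold PT Vz
  rw [← prod_pow, ← prod_mul_distrib]
  refine prod_congr rfl fun p hp => ?_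
  have hpp := (mem_pz.1 hp).2
  have h1 := rho_W W p hpp
  have h2 : (rhoA (QW W) p : ℝ) = (nuT (pat W) p : ℝ) - 1 := by
    rw [← h1]; push_cast; ring
  have hp2 : (2 : ℝ) ≤ p := by exact_mod_cast hpp.two_le
  have hp0 : (p : ℝ) ≠ 0 := by positivity
  have hp1 : (p : ℝ) - 1 ≠ 0 := by
    have : 0 < (p : ℝ) - 1 := by linarith
    exact this.ne'
  have hq : 1 - 1 / (p : ℝ) = ((p : ℝ) - 1) / p := by field_simp
  unfold locT
  rw [h2, card_pat h0, hW, hq, pow_succ]
  have h3 : ((p : ℝ) - 1) / p ≠ 0 := div_ne_zero hp1 hp0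
  have h4 : (((p : ℝ) - 1) / p) ^ k ≠ 0 := pow_ne_zero _ h3
  field_simp
  ring

/-- a base point which is `-N` modulo the small primes -/
lemma nuT_base {N b p : ℕ} (hp : 0 < p) (hb : p ∣ b + N) (S : Finset ℕ) :
    nuT ({b} ∪ S) p = nuT (pat (sh N S)) p := by
  classical
  rw [← Pool.Agent.TH891.SG.nuT_add ({b} ∪ S) N hp]
  unfold nuT pat sh
  congr 1
  rw [image_union, image_singleton, image_union, image_singleton, image_insert, Nat.zero_mod]
  rw [(Nat.dvd_iff_mod_eq_zero).1 hb]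
  rfl

/-- the prime `p` divides none of the `N + d`, or some of them -/
lemma nuT_pat_sh {N p : ℕ} (hp : 0 < p) (S : Finset ℕ) :
    nuT S p ≤ nuT (pat (sh N S)) p ∧
      ((∀ d ∈ S, ¬ p ∣ N + d) → nuT S p + 1 ≤ nuT (pat (sh N S)) p) := by
  classical
  have h1 : nuT (sh N S) p = nuT S p := Pool.Agent.TH891.SG.nuT_add S N hp
  have h2 : nuT (pat (sh N S)) p = (insert 0 ((sh N S).image (· % p))).card := by
    unfold nuT pat
    rw [image_insert, Nat.zero_mod]
  rw [← h1, h2]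
  refine ⟨card_le_card (subset_insert _ _), fun h => ?_⟩
  rw [card_insert_of_notMem]
  · unfold nuT
    exact le_rfl
  · unfold sh
    rw [mem_image]
    rintro ⟨x, hx, h3⟩
    obtain ⟨d, hd, rfl⟩ := mem_image.1 hx
    refine h d hd ?_
    rw [Nat.dvd_iff_mod_eq_zero, add_comm]
    exact h3

/-- the weight of one shift -/
noncomputable def wG (N y d : ℕ) : ℝ := ∏ p ∈ (pz y).filter (fun p => p ∣ N + d), (1 + 2 / (p : ℝ))

lemma wG_nonneg (N y d : ℕ) : 0 ≤ wG N y d := prod_nonneg fun _ _ => by positivity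

lemma VT_base {N b y : ℕ} (hb : ∀ p ∈ pz y, p ∣ b + N) (S : Finset ℕ) :
    VT y ({b} ∪ S) = VT y (pat (sh N S)) := by
  unfold VT
  rw [pz_eq]
  refine prod_congr rfl fun p hp => ?_
  have hpp := (mem_pz.1 hp).2.pos
  rw [fT_eq _ hpp, fT_eq _ hpp, nuT_base hpp (hb p hp)]

lemma VT_sh_le (N y : ℕ) (S : Finset ℕ) :
    VT y (pat (sh N S)) ≤ VT y S * Vz y * ∏ d ∈ S, wG N y d := by
  classical
  have e1 : ∏ d ∈ S, wG N y d = ∏ p ∈ pz y, ∏ d ∈ S, (if p ∣ N + d then 1 + 2 / (p : ℝ) else 1) := by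
    rw [Finset.prod_comm]
    refine prod_congr rfl fun d _ => ?_
    unfold wG
    rw [prod_filter]
  rw [e1]
  unfold VT Vz
  rw [pz_eq, ← prod_mul_distrib, ← prod_mul_distrib]
  have hνp : ∀ (T : Finset ℕ) (p : ℕ), 0 < p → (nuT T p : ℝ) ≤ p := by
    intro T p hp
    rw [← fT_eq T hp]
    exact_mod_cast fT_le_p T p
  refine prod_le_prod (fun p hp => ?_) fun p hp => ?_
  · have hpp := (mem_pz.1 hp).2.pos
    rw [fT_eq _ hpp, sub_nonneg]
    exact div_le_one_of_le₀ (hνp _ p hpp) (Nat.cast_nonneg _)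
  · have hpp := (mem_pz.1 hp).2.pos
    have hp2 : (2 : ℝ) ≤ p := by exact_mod_cast (mem_pz.1 hp).2.two_le
    have hp0 : (0 : ℝ) < p := by linarith
    rw [fT_eq _ hpp, fT_eq _ hpp]
    obtain ⟨h1, h2⟩ := nuT_pat_sh (N := N) hpp S
    have h3 : (nuT S p : ℝ) ≤ nuT (pat (sh N S)) p := by exact_mod_cast h1
    have hν0 : (0 : ℝ) ≤ nuT S p := Nat.cast_nonneg _
    have hν1 := hνp S p hpp
    have ht : 0 < 1 / (p : ℝ) := by positivity
    have ht2 : 1 / (p : ℝ) ≤ 1 / 2 := one_div_le_one_div_of_le (by norm_num) hp2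
    by_cases hbad : ∀ d ∈ S, ¬ p ∣ N + d
    · have e2 : ∏ d ∈ S, (if p ∣ N + d then 1 + 2 / (p : ℝ) else 1) = 1 :=
        prod_eq_one fun d hd => by rw [if_neg (hbad d hd)]
      rw [e2, mul_one]
      have h4 : (nuT S p : ℝ) + 1 ≤ nuT (pat (sh N S)) p := by exact_mod_cast h2 hbad
      have e3 : (nuT S p : ℝ) / p = nuT S p * (1 / p) := by ring
      have e3' : (nuT (pat (sh N S)) p : ℝ) / p = nuT (pat (sh N S)) p * (1 / p) := by ring
      rw [e3, e3']
      nlinarith [mul_le_mul_of_nonneg_right h4 ht.le, mul_nonneg hν0 (mul_nonneg ht.le ht.le)]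
    · push Not at hbad
      obtain ⟨d, hd, hpd⟩ := hbad
      have e2 : 1 + 2 / (p : ℝ) ≤ ∏ d ∈ S, (if p ∣ N + d then 1 + 2 / (p : ℝ) else 1) := by
        have h5 : (if p ∣ N + d then 1 + 2 / (p : ℝ) else 1) = 1 + 2 / (p : ℝ) := if_pos hpd
        rw [← mul_prod_erase S _ hd, h5]
        refine le_mul_of_one_le_right (by positivity) ?_
        have h6 : ∀ x ∈ S.erase d, (1 : ℝ) ≤ (if p ∣ N + x then 1 + 2 / (p : ℝ) else 1) := by
          intro x _
          split_ifs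
          · have : 0 ≤ 2 / (p : ℝ) := by positivity
            linarith
          · exact le_rfl
        calc (1 : ℝ) = ∏ _x ∈ S.erase d, (1 : ℝ) := by rw [prod_const_one]
          _ ≤ _ := prod_le_prod (fun _ _ => zero_le_one) h6
      have e4 : 0 ≤ 1 - (nuT S p : ℝ) / p := by
        rw [sub_nonneg]
        exact div_le_one_of_le₀ hν1 hp0.le
      have e5 : 1 ≤ (1 - 1 / (p : ℝ)) * (1 + 2 / (p : ℝ)) := by
        have : 2 / (p : ℝ) = 2 * (1 / p) := by ring
        rw [this]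
        nlinarith
      have e6 : 1 - (nuT (pat (sh N S)) p : ℝ) / p ≤ 1 - (nuT S p : ℝ) / p := by
        have := div_le_div_of_nonneg_right h3 hp0.le
        linarith
      have e7 : (1 - 1 / (p : ℝ)) * (1 + 2 / (p : ℝ)) ≤ (1 - 1 / (p : ℝ)) *
          ∏ d ∈ S, (if p ∣ N + d then 1 + 2 / (p : ℝ) else 1) :=
        mul_le_mul_of_nonneg_left e2 (by linarith)
      calc 1 - (nuT (pat (sh N S)) p : ℝ) / p ≤ (1 - (nuT S p : ℝ) / p) * 1 := by linarith
        _ ≤ (1 - (nuT S p : ℝ) / p) * ((1 - 1 / (p : ℝ)) *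
          ∏ d ∈ S, (if p ∣ N + d then 1 + 2 / (p : ℝ) else 1)) :=
            mul_le_mul_of_nonneg_left (e5.trans e7) e4
        _ = _ := by ring

/-- sums of products over the subsets -/
lemma sum_prod_le (w : ℕ → ℝ) (hw : ∀ d, 0 ≤ w d) (A : Finset ℕ) (j : ℕ) :
    ∑ S ∈ A.powersetCard j, ∏ d ∈ S, w d ≤ (∑ d ∈ A, w d) ^ j := by
  classical
  have hW : 0 ≤ ∑ d ∈ A, w d := sum_nonneg fun d _ => hw d
  induction j with
  | zero => simp
  | succ j ih =>
    have h0 : 0 ≤ ∑ S ∈ A.powersetCard (j + 1), ∏ d ∈ S, w d :=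
      sum_nonneg fun S _ => prod_nonneg fun d _ => hw d
    have h1 := Pool.Agent.TH891.SG.sum_insert_pairs A j (fun S => ∏ d ∈ S, w d)
    have h2 : ∑ S ∈ A.powersetCard j, ∑ d ∈ A \ S, ∏ x ∈ insert d S, w x ≤
        ∑ S ∈ A.powersetCard j, (∑ d ∈ A, w d) * ∏ x ∈ S, w x := by
      refine sum_le_sum fun S _ => ?_
      have h3 : ∀ d ∈ A \ S, ∏ x ∈ insert d S, w x = w d * ∏ x ∈ S, w x := fun d hd =>
        prod_insert (mem_sdiff.1 hd).2
      rw [sum_congr rfl h3, ← sum_mul]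
      refine mul_le_mul_of_nonneg_right ?_ (prod_nonneg fun d _ => hw d)
      exact sum_le_sum_of_subset_of_nonneg sdiff_subset fun d _ _ => hw d
    rw [← mul_sum] at h2
    have h4 : ((j : ℝ) + 1) * ∑ S ∈ A.powersetCard (j + 1), ∏ d ∈ S, w d ≤ (∑ d ∈ A, w d) ^ (j + 1) := by
      rw [h1, pow_succ, mul_comm]
      refine h2.trans ?_
      exact mul_le_mul_of_nonneg_left ih hW
    have h5 : 0 ≤ (j : ℝ) * ∑ S ∈ A.powersetCard (j + 1), ∏ d ∈ S, w d :=
      mul_nonneg (Nat.cast_nonneg j) h0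
    linarith

/-- the sum over the small primes -/
lemma sum_small (N H : ℕ) :
    ∑ d ∈ Icc 1 H, ∏ p ∈ (pz H).filter (fun p => p ∣ N + d), (1 + 6 / (p : ℝ)) ≤
      H * ∏ p ∈ pz H, (1 + 6 / (p : ℝ) ^ 2) + ∏ p ∈ pz H, (1 + 6 / (p : ℝ)) := by
  classical
  have h1 : ∀ d ∈ Icc 1 H, ∏ p ∈ (pz H).filter (fun p => p ∣ N + d), (1 + 6 / (p : ℝ)) =
      ∑ P ∈ (pz H).powerset, (∏ p ∈ P, 6 / (p : ℝ)) * (if (∀ p ∈ P, p ∣ N + d) then 1 else 0) := by
    intro d _
    rw [prod_one_add]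
    have h2 : ((pz H).filter (fun p => p ∣ N + d)).powerset =
        (pz H).powerset.filter (fun P => ∀ p ∈ P, p ∣ N + d) := by
      ext P
      simp only [mem_powerset, mem_filter, subset_iff]
      constructor
      · exact fun h => ⟨fun p hp => (h hp).1, fun p hp => (h hp).2⟩
      · exact fun h p hp => ⟨h.1 hp, h.2 p hp⟩
    rw [h2, sum_filter]
    refine sum_congr rfl fun P _ => ?_
    split_ifs <;> simp
  rw [sum_congr rfl h1, sum_comm]
  have h3 : ∀ P ∈ (pz H).powerset, ∑ d ∈ Icc 1 H,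
      (∏ p ∈ P, 6 / (p : ℝ)) * (if (∀ p ∈ P, p ∣ N + d) then (1 : ℝ) else 0) ≤
      H * ∏ p ∈ P, (6 / (p : ℝ) ^ 2) + ∏ p ∈ P, (6 / (p : ℝ)) := by
    intro P hP
    rw [← mul_sum]
    have hPp : ∀ p ∈ P, p.Prime := fun p hp => (mem_pz.1 (mem_powerset.1 hP hp)).2
    have h4 : ∑ d ∈ Icc 1 H, (if (∀ p ∈ P, p ∣ N + d) then (1 : ℝ) else 0) ≤
        H / ((∏ p ∈ P, p : ℕ) : ℝ) + 1 := by
      refine le_trans (sum_le_sum fun d _ => ?_) (card_mult_le H N (∏ p ∈ P, p)
        (prod_pos fun p hp => (hPp p hp).pos))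
      by_cases h : ∀ p ∈ P, p ∣ N + d
      · have h5 : (∏ p ∈ P, p) ∣ d + N := by
          rw [add_comm d N]
          exact Finset.prod_primes_dvd (N + d) (fun p hp => (hPp p hp).prime) h
        rw [if_pos h, if_pos h5]
      · rw [if_neg h]
        split_ifs <;> norm_num
    have h6 : 0 ≤ ∏ p ∈ P, 6 / (p : ℝ) := prod_nonneg fun p _ => by positivity
    have h7 : (∏ p ∈ P, 6 / (p : ℝ)) * (H / ((∏ p ∈ P, p : ℕ) : ℝ) + 1) =
        H * ∏ p ∈ P, (6 / (p : ℝ) ^ 2) + ∏ p ∈ P, (6 / (p : ℝ)) := by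
      have h8 : ∏ p ∈ P, (6 / (p : ℝ) ^ 2) = (∏ p ∈ P, 6 / (p : ℝ)) / ((∏ p ∈ P, p : ℕ) : ℝ) := by
        push_cast
        rw [← prod_div_distrib]
        refine prod_congr rfl fun p _ => ?_
        rw [sq, div_div]
      rw [h8]
      ring
    rw [← h7]
    exact mul_le_mul_of_nonneg_left h4 h6
  refine (sum_le_sum h3).trans (le_of_eq ?_)
  rw [sum_add_distrib, ← mul_sum, prod_one_add, prod_one_add]

/-- the squares of the weights are bounded on average -/
theorem sum_wG : ∃ C : ℝ, 0 < C ∧ ∀ N H y : ℕ, 3 ≤ H → H ≤ N → Real.log N ≤ H →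
    ∑ d ∈ Icc 1 H, wG N y d ^ 2 ≤ C * H := by
  classical
  obtain ⟨c1, hc1, hV⟩ := Vz_sharp
  refine ⟨Real.exp 12 * (Real.exp 6 + (6 / c1) ^ 6), by positivity, fun N H y hH hHN hlog => ?_⟩
  have hH0 : (0 : ℝ) < H := by exact_mod_cast (by omega : 0 < H)
  have hN0 : (0 : ℝ) < N := by exact_mod_cast (by omega : 0 < N)
  have hH3 : (3 : ℝ) ≤ H := by exact_mod_cast hH
  have hlH : 1 ≤ Real.log H := by
    have h1 : Real.exp 1 ≤ H := le_trans (by have := Real.exp_one_lt_d9; linarith) hH3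
    have := Real.log_le_log (Real.exp_pos 1) h1
    rwa [Real.log_exp] at this
  have hpt : ∀ d ∈ Icc 1 H, wG N y d ^ 2 ≤
      Real.exp 12 * ∏ p ∈ (pz H).filter (fun p => p ∣ N + d), (1 + 6 / (p : ℝ)) := by
    intro d hd
    rw [mem_Icc] at hd
    have g1 : wG N y d ^ 2 ≤ ∏ p ∈ (pz y).filter (fun p => p ∣ N + d), (1 + 6 / (p : ℝ)) := by
      unfold wG
      rw [← prod_pow]
      refine prod_le_prod (fun p _ => by positivity) fun p hp => ?_
      have hp2 : (2 : ℝ) ≤ p := by exact_mod_cast (mem_pz.1 (mem_filter.1 hp).1).2.two_le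
      have ht : 0 < 1 / (p : ℝ) := by positivity
      have ht2 : 1 / (p : ℝ) ≤ 1 / 2 := one_div_le_one_div_of_le (by norm_num) hp2
      have e1 : 2 / (p : ℝ) = 2 * (1 / p) := by ring
      have e2 : 6 / (p : ℝ) = 6 * (1 / p) := by ring
      rw [e1, e2]
      nlinarith
    have g2 : ∏ p ∈ (pz y).filter (fun p => p ∣ N + d), (1 + 6 / (p : ℝ)) ≤
        ∏ p ∈ (N + d).primeFactors, (1 + 6 / (p : ℝ)) := by
      refine prod_le_prod_of_subset_of_one_le ?_ (fun p _ => by positivity) fun p _ _ => ?_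
      · intro p hp
        rw [mem_filter, mem_pz] at hp
        exact Nat.mem_primeFactors.2 ⟨hp.1.2, hp.2, by omega⟩
      · have : 0 ≤ 6 / (p : ℝ) := by positivity
        linarith
    have g3 : ∏ p ∈ (N + d).primeFactors, (1 + 6 / (p : ℝ)) =
        (∏ p ∈ (N + d).primeFactors.filter (fun p => H < p), (1 + 6 / (p : ℝ))) *
          ∏ p ∈ (N + d).primeFactors.filter (fun p => ¬ H < p), (1 + 6 / (p : ℝ)) :=
      (prod_filter_mul_prod_filter_not _ _ _).symm
    have g4 : (N + d).primeFactors.filter (fun p => ¬ H < p) = (pz H).filter (fun p => p ∣ N + d) := by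
      ext p
      rw [mem_filter, mem_filter, mem_pz, Nat.mem_primeFactors]
      constructor
      · rintro ⟨⟨h1, h2, _⟩, h3⟩
        exact ⟨⟨not_lt.1 h3, h1⟩, h2⟩
      · rintro ⟨⟨h1, h2⟩, h3⟩
        exact ⟨⟨h2, h3, by omega⟩, not_lt.2 h1⟩
    have g5 : ∏ p ∈ (N + d).primeFactors.filter (fun p => H < p), (1 + 6 / (p : ℝ)) ≤ Real.exp 12 := by
      have h1 : ∏ p ∈ (N + d).primeFactors.filter (fun p => H < p), (1 + 6 / (p : ℝ)) ≤
          ∏ _p ∈ (N + d).primeFactors.filter (fun p => H < p), Real.exp (6 / (H : ℝ)) := by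
        refine prod_le_prod (fun p _ => by positivity) fun p hp => ?_
        have h2 : (H : ℝ) ≤ p := by exact_mod_cast (mem_filter.1 hp).2.le
        have h3 : 6 / (p : ℝ) ≤ 6 / H := div_le_div_of_nonneg_left (by norm_num) hH0 h2
        have h4 := Real.add_one_le_exp (6 / (H : ℝ))
        linarith
      refine h1.trans ?_
      rw [prod_const, ← Real.exp_nat_mul, Real.exp_le_exp]
      have h2 := card_big_le H (N + d) (by omega) (by omega)
      have h3 : (((N + d).primeFactors.filter (fun p => H < p)).card : ℝ) ≤ Nat.log H (N + d) := by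
        exact_mod_cast h2
      have h4 : (Nat.log H (N + d) : ℝ) ≤ Real.logb H ((N + d : ℕ) : ℝ) := Real.natLog_le_logb _ _
      have h5 : Real.logb H ((N + d : ℕ) : ℝ) ≤ 2 * H := by
        unfold Real.logb
        rw [div_le_iff₀ (by linarith)]
        have h6 : Real.log ((N + d : ℕ) : ℝ) ≤ Real.log N + Real.log 2 := by
          rw [← Real.log_mul hN0.ne' (by norm_num)]
          refine Real.log_le_log (by exact_mod_cast (by omega : 0 < N + d)) ?_
          have : ((N + d : ℕ) : ℝ) ≤ ((N * 2 : ℕ) : ℝ) := by exact_mod_cast (by omega : N + d ≤ N * 2)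
          push_cast at this ⊢
          exact this
        have h7 : Real.log 2 ≤ 1 := by
          have := Real.log_two_lt_d9
          linarith
        have h8 : 2 * (H : ℝ) * 1 ≤ 2 * H * Real.log H := mul_le_mul_of_nonneg_left hlH (by positivity)
        linarith
      calc _ ≤ (2 * (H : ℝ)) * (6 / H) := mul_le_mul_of_nonneg_right (h3.trans (h4.trans h5)) (by positivity)
        _ = 12 := by field_simp; norm_num
    rw [g3, g4] at g2
    have g6 : 0 ≤ ∏ p ∈ (pz H).filter (fun p => p ∣ N + d), (1 + 6 / (p : ℝ)) :=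
      prod_nonneg fun p _ => by positivity
    exact g1.trans (g2.trans (mul_le_mul_of_nonneg_right g5 g6))
  refine (sum_le_sum hpt).trans ?_
  rw [← mul_sum, mul_assoc]
  refine mul_le_mul_of_nonneg_left ?_ (Real.exp_pos _).le
  refine (sum_small N H).trans ?_
  have f1 : ∏ p ∈ pz H, (1 + 6 / (p : ℝ) ^ 2) ≤ Real.exp 6 := by
    have h1 : ∏ p ∈ pz H, (1 + 6 / (p : ℝ) ^ 2) ≤ ∏ p ∈ pz H, Real.exp (6 * (1 / (p : ℝ) ^ 2)) := by
      refine prod_le_prod (fun p _ => by positivity) fun p _ => ?_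
      have h4 := Real.add_one_le_exp (6 * (1 / (p : ℝ) ^ 2))
      have h5 : 6 * (1 / (p : ℝ) ^ 2) = 6 / (p : ℝ) ^ 2 := by ring
      rw [h5] at h4 ⊢
      linarith
    refine h1.trans ?_
    rw [← Real.exp_sum, Real.exp_le_exp, ← mul_sum]
    have h2 := inv_sq_gt (y := 1) le_rfl (pz H) (fun p hp => (mem_pz.1 hp).2.one_lt)
    simp only [Nat.cast_one, div_one] at h2
    linarith
  have f2 : ∏ p ∈ pz H, (1 + 6 / (p : ℝ)) ≤ (6 / c1) ^ 6 * H := by
    have h1 : (∏ p ∈ pz H, (1 + 6 / (p : ℝ))) * Vz H ^ 6 ≤ 1 := by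
      unfold Vz
      rw [← prod_pow, ← prod_mul_distrib]
      refine prod_le_one (fun p hp => ?_) fun p hp => ?_
      · have hp2 : (2 : ℝ) ≤ p := by exact_mod_cast (mem_pz.1 hp).2.two_le
        have ht2 : 1 / (p : ℝ) ≤ 1 / 2 := one_div_le_one_div_of_le (by norm_num) hp2
        have : 0 ≤ 1 - 1 / (p : ℝ) := by linarith
        positivity
      · have hp2 : (2 : ℝ) ≤ p := by exact_mod_cast (mem_pz.1 hp).2.two_le
        have ht2 : 1 / (p : ℝ) ≤ 1 / 2 := one_div_le_one_div_of_le (by norm_num) hp2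
        have h2 : 1 - 1 / (p : ℝ) ≤ Real.exp (-(1 / p)) := by
          have := Real.add_one_le_exp (-(1 / (p : ℝ)))
          linarith
        have h3 : (1 - 1 / (p : ℝ)) ^ 6 ≤ Real.exp (-(1 / p)) ^ 6 :=
          pow_le_pow_left₀ (by linarith) h2 6
        have h4 : 1 + 6 / (p : ℝ) ≤ Real.exp (6 * (1 / p)) := by
          have := Real.add_one_le_exp (6 * (1 / (p : ℝ)))
          have h5 : 6 * (1 / (p : ℝ)) = 6 / (p : ℝ) := by ring
          rw [h5] at this ⊢
          linarith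
        calc (1 + 6 / (p : ℝ)) * (1 - 1 / (p : ℝ)) ^ 6
            ≤ Real.exp (6 * (1 / p)) * Real.exp (-(1 / p)) ^ 6 :=
              mul_le_mul h4 h3 (by
                have : 0 ≤ 1 - 1 / (p : ℝ) := by linarith
                positivity) (Real.exp_pos _).le
          _ = 1 := by
              rw [← Real.exp_nat_mul, ← Real.exp_add]
              have : 6 * (1 / (p : ℝ)) + ((6 : ℕ) : ℝ) * -(1 / p) = 0 := by push_cast; ring
              rw [this, Real.exp_zero]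
    have h2 := hV H hH
    have h3 : (c1 / Real.log H) ^ 6 ≤ Vz H ^ 6 := pow_le_pow_left₀ (by positivity) h2 6
    have h4 : 0 < (c1 / Real.log H) ^ 6 := by positivity
    have h5 : 0 ≤ ∏ p ∈ pz H, (1 + 6 / (p : ℝ)) := prod_nonneg fun p _ => by positivity
    have h6 : (∏ p ∈ pz H, (1 + 6 / (p : ℝ))) * (c1 / Real.log H) ^ 6 ≤ 1 :=
      (mul_le_mul_of_nonneg_left h3 h5).trans h1
    have h7 : ∏ p ∈ pz H, (1 + 6 / (p : ℝ)) ≤ 1 / (c1 / Real.log H) ^ 6 := by
      rw [le_div_iff₀ h4]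
      exact h6
    refine h7.trans ?_
    have h8 : Real.log H ≤ 6 * (H : ℝ) ^ (1 / 6 : ℝ) := by
      have := Real.log_le_rpow_div hH0.le (by norm_num : (0 : ℝ) < 1 / 6)
      calc Real.log H ≤ (H : ℝ) ^ (1 / 6 : ℝ) / (1 / 6) := this
        _ = _ := by ring
    have h9 : Real.log H ^ 6 ≤ 6 ^ 6 * H := by
      calc Real.log H ^ 6 ≤ (6 * (H : ℝ) ^ (1 / 6 : ℝ)) ^ 6 := pow_le_pow_left₀ (by linarith) h8 6
        _ = 6 ^ 6 * H := by
            rw [mul_pow, ← Real.rpow_natCast ((H : ℝ) ^ (1 / 6 : ℝ)), ← Real.rpow_mul hH0.le]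
            norm_num
    calc 1 / (c1 / Real.log H) ^ 6 = Real.log H ^ 6 / c1 ^ 6 := by
          rw [div_pow]
          field_simp
      _ ≤ 6 ^ 6 * H / c1 ^ 6 := div_le_div_of_nonneg_right h9 (by positivity)
      _ = _ := by rw [div_pow]; ring
  have f3 := mul_le_mul_of_nonneg_left f1 hH0.le
  calc _ ≤ H * Real.exp 6 + (6 / c1) ^ 6 * H := add_le_add f3 f2
    _ = _ := by ring

/-- moments of the singular series over the sets of an interval -/
theorem sum_CT0 (j m : ℕ) : ∃ C : ℝ, 0 < C ∧ ∀ H : ℕ, 1 ≤ H →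
    ∑ S ∈ (Icc 1 H).powersetCard j, CT S ^ m ≤ C * (H : ℝ) ^ j := by
  classical
  rcases j with _ | j
  · refine ⟨CT ∅ ^ m + 1, by have := CT_nonneg ∅; positivity, fun H _ => ?_⟩
    rw [powersetCard_zero, sum_singleton, pow_zero, mul_one]
    linarith
  · obtain ⟨C, hC, h⟩ := Pool.Agent.TH891.SG.CT_mom j m
    refine ⟨C * 2 ^ (j + 1), by positivity, fun H hH => ?_⟩
    have h1 : ∑ S ∈ (Icc 1 H).powersetCard (j + 1), CT S ^ m ≤
        ∑ S ∈ (range (H + 1)).powersetCard (j + 1), CT S ^ m := by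
      refine sum_le_sum_of_subset_of_nonneg (powersetCard_mono ?_) fun T _ _ =>
        pow_nonneg (CT_nonneg T) _
      intro n hn
      rw [mem_Icc] at hn
      rw [mem_range]
      omega
    refine h1.trans ((h (H + 1)).trans ?_)
    have h2 : ((H + 1 : ℕ) : ℝ) ^ (j + 1) ≤ (2 * (H : ℝ)) ^ (j + 1) := by
      refine pow_le_pow_left₀ (Nat.cast_nonneg _) ?_ _
      push_cast
      have : (1 : ℝ) ≤ H := by exact_mod_cast hH
      linarith
    calc C * ((H + 1 : ℕ) : ℝ) ^ (j + 1) ≤ C * (2 * (H : ℝ)) ^ (j + 1) :=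
          mul_le_mul_of_nonneg_left h2 hC.le
      _ = _ := by rw [mul_pow]; ring

/-- **the average density of the tuples** -/
theorem avgG (j : ℕ) : ∃ C : ℝ, 0 < C ∧ ∀ N H y b : ℕ, 3 ≤ H → H ≤ N → Real.log N ≤ H →
    2 * j ^ 2 + 2 ≤ y → (∀ p ∈ pz y, p ∣ b + N) →
    ∑ S ∈ (Icc 1 H).powersetCard j, VT y ({b} ∪ S) ≤ C * ((H : ℝ) ^ j / Real.log y ^ (j + 1)) := by
  classical
  obtain ⟨C1, hC1, h1⟩ := sum_CT0 j 2
  obtain ⟨C2, hC2, h2⟩ := sum_wG
  refine ⟨C1 + C2 ^ j, by positivity, fun N H y b hH hHN hlog hy hb => ?_⟩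
  have hy2 : 2 ≤ y := by omega
  have hly : 0 < Real.log y := Real.log_pos (by exact_mod_cast (by omega : 1 < y))
  have hV := Vz_le y hy2
  have hVp := (Vz_pos' y).le
  have g1 : ∀ S ∈ (Icc 1 H).powersetCard j, VT y ({b} ∪ S) ≤
      1 / Real.log y ^ (j + 1) * (CT S ^ 2 + ∏ d ∈ S, wG N y d ^ 2) := by
    intro S hS
    have hSc := (mem_powersetCard.1 hS).2
    rw [VT_base hb]
    refine (VT_sh_le N y S).trans ?_
    have e1 := VT_le y j S hSc.le hy
    rw [hSc] at e1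
    have hw0 : 0 ≤ ∏ d ∈ S, wG N y d := prod_nonneg fun d _ => wG_nonneg _ _ _
    have hCT := CT_nonneg S
    have e2 : VT y S * Vz y * ∏ d ∈ S, wG N y d ≤
        (2 * CT S / Real.log y ^ j) * (1 / Real.log y) * ∏ d ∈ S, wG N y d := by
      refine mul_le_mul_of_nonneg_right ?_ hw0
      exact mul_le_mul e1 hV hVp (by positivity)
    refine e2.trans ?_
    have e3 : (2 * CT S / Real.log y ^ j) * (1 / Real.log y) * ∏ d ∈ S, wG N y d =
        1 / Real.log y ^ (j + 1) * (2 * (CT S * ∏ d ∈ S, wG N y d)) := by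
      rw [pow_succ]
      field_simp
    rw [e3]
    refine mul_le_mul_of_nonneg_left ?_ (by positivity)
    rw [prod_pow]
    nlinarith [sq_nonneg (CT S - ∏ d ∈ S, wG N y d)]
  refine (sum_le_sum g1).trans ?_
  rw [← mul_sum, sum_add_distrib]
  have g2 := h1 H (by omega)
  have g3 : ∑ S ∈ (Icc 1 H).powersetCard j, ∏ d ∈ S, wG N y d ^ 2 ≤ C2 ^ j * (H : ℝ) ^ j := by
    refine (sum_prod_le (fun d => wG N y d ^ 2) (fun d => sq_nonneg _) (Icc 1 H) j).trans ?_
    rw [← mul_pow]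
    exact pow_le_pow_left₀ (sum_nonneg fun d _ => sq_nonneg _) (h2 N H y hH hHN hlog) j
  calc 1 / Real.log y ^ (j + 1) * (∑ S ∈ (Icc 1 H).powersetCard j, CT S ^ 2 +
        ∑ S ∈ (Icc 1 H).powersetCard j, ∏ d ∈ S, wG N y d ^ 2)
      ≤ 1 / Real.log y ^ (j + 1) * (C1 * (H : ℝ) ^ j + C2 ^ j * (H : ℝ) ^ j) :=
        mul_le_mul_of_nonneg_left (add_le_add g2 g3) (by positivity)
    _ = _ := by ring

end Pool.Agent.J4.H38.SR2
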