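import Mathlib
import Pool.Agent.H373R2.T7.FundC

/-! The fundamental lemma over the primes in progressions to large moduli: `n + a` divisible by `d`, on average over
the numbers `d` without small prime factors. -/

set_option autoImplicit false

namespace Pool.Agent.J4.H38.SR2

open Finset
open Pool.Agent.H373R2.T7

/-- the conditions at the small primes and the divisibility of `n + a` at the large ones -/
def QX (Q : ℕ → ℕ → Prop) (y a p n : ℕ) : Prop := if p ≤ y then Q p n else p ∣ n + a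

lemma QX_small (Q : ℕ → ℕ → Prop) {y a p n : ℕ} (h : p ≤ y) : QX Q y a p n ↔ Q p n := by
  unfold QX; rw [if_pos h]

lemma QX_large (Q : ℕ → ℕ → Prop) {y a p n : ℕ} (h : ¬ p ≤ y) : QX Q y a p n ↔ p ∣ n + a := by
  unfold QX; rw [if_neg h]

lemma rhoA_QX_small (Q : ℕ → ℕ → Prop) {y a p : ℕ} (h : p ≤ y) : rhoA (QX Q y a) p = rhoA Q p := by
  classical
  unfold rhoA
  congr 1
  refine filter_congr fun r _ => ?_
  rw [QX_small Q h]

lemma rhoA_QX_large (Q : ℕ → ℕ → Prop) {y a p : ℕ} (h : ¬ p ≤ y) (ha : 1 ≤ a) (hay : a ≤ y) :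
    rhoA (QX Q y a) p = 1 := by
  classical
  unfold rhoA
  rw [card_eq_one]
  refine ⟨p - a, ?_⟩
  ext r
  rw [mem_filter, mem_range, mem_singleton, QX_large Q h]
  constructor
  · rintro ⟨h1, h2, k, hk⟩
    have h3 : k = 1 := by
      have h4 : k < 2 := by
        by_contra h5
        push Not at h5
        have : p * 2 ≤ p * k := Nat.mul_le_mul_left _ h5
        omega
      have h5 : k ≠ 0 := by
        rintro rfl
        omega
      omega
    rw [h3, mul_one] at hk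
    omega
  · rintro rfl
    refine ⟨by omega, ?_, ?_⟩
    · exact Nat.not_dvd_of_pos_of_lt (by omega) (by omega)
    · rw [Nat.sub_add_cancel (by omega)]

lemma QX_per {Q : ℕ → ℕ → Prop} {c y a : ℕ} (hQ : PerA Q c) (hc : 1 ≤ c) (ha : 1 ≤ a) (hay : a ≤ y) :
    PerA (QX Q y a) c := by
  constructor
  · intro p n
    by_cases h : p ≤ y
    · rw [QX_small Q h, QX_small Q h]
      exact hQ.per p n
    · rw [QX_large Q h, QX_large Q h]
      have h1 : n % p + a ≡ n + a [MOD p] := Nat.ModEq.add_right _ (Nat.mod_modEq n p)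
      constructor
      · intro h2
        exact (Nat.modEq_zero_iff_dvd).1 (h1.trans ((Nat.modEq_zero_iff_dvd).2 h2))
      · intro h2
        exact (Nat.modEq_zero_iff_dvd).1 (h1.symm.trans ((Nat.modEq_zero_iff_dvd).2 h2))
  · intro p hp
    by_cases h : p ≤ y
    · rw [rhoA_QX_small Q h]
      exact hQ.few p hp
    · rw [rhoA_QX_large Q h ha hay]
      exact hc

/-- sums over pairs of a number without small prime factors and a set of small primes -/
lemma sum_inj2_le (F P T0 : Finset ℕ) (y M : ℕ) (hP : ∀ p ∈ P, p.Prime ∧ p ≤ y) (hT0 : ∀ p ∈ T0, p.Prime)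
    (hd : Disjoint T0 P) (hF : ∀ d ∈ F, 1 ≤ d ∧ d ≤ M ∧ ∀ p ∈ d.primeFactors, y < p)
    (D : ℕ) (f : ℕ → ℝ) (hf : ∀ d, 0 ≤ f d) :
    ∑ d ∈ F, ∑ T ∈ P.powerset.filter (fun T : Finset ℕ => ∏ p ∈ T, p ≤ D), f (d * ∏ p ∈ T0 ∪ T, p) ≤
      ∑ d ∈ Icc 1 (M * ((∏ p ∈ T0, p) * D)), f d := by
  classical
  have hK : 0 < ∏ p ∈ T0, p := Nat.pos_of_ne_zero (prod_ne_zero_iff.2 fun p hp => (hT0 p hp).ne_zero)
  rw [← sum_product']
  have hprod : ∀ T ∈ P.powerset, ∏ p ∈ T0 ∪ T, p = (∏ p ∈ T0, p) * ∏ p ∈ T, p := by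
    intro T hT
    rw [mem_powerset] at hT
    exact prod_union (disjoint_of_subset_right hT hd)
  have hTpos : ∀ T ∈ P.powerset, 0 < ∏ p ∈ T, p := by
    intro T hT
    rw [mem_powerset] at hT
    exact Nat.pos_of_ne_zero (prod_ne_zero_iff.2 fun p hp => (hP p (hT hp)).1.ne_zero)
  have hrec : ∀ d ∈ F, ∀ T ∈ P.powerset, (d * ∏ p ∈ T, p).primeFactors.filter (fun p => p ≤ y) = T := by
    intro d hdF T hT
    have h1 := hTpos T hT
    rw [mem_powerset] at hT
    obtain ⟨h2, _, h3⟩ := hF d hdF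
    rw [Nat.primeFactors_mul (by omega) h1.ne', primeFactors_prod' T (fun p hp => (hP p (hT hp)).1)]
    ext p
    rw [mem_filter, mem_union]
    constructor
    · rintro ⟨h4 | h4, h5⟩
      · have := h3 p h4
        omega
      · exact h4
    · intro h4
      exact ⟨Or.inr h4, (hP p (hT h4)).2⟩
  have hinj : Set.InjOn (fun q : ℕ × Finset ℕ => q.1 * ∏ p ∈ T0 ∪ q.2, p)
      ((F ×ˢ P.powerset.filter (fun T : Finset ℕ => ∏ p ∈ T, p ≤ D) : Finset (ℕ × Finset ℕ)) : Set (ℕ × Finset ℕ)) := by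
    intro q hq q' hq' h
    rw [mem_coe, mem_product, mem_filter] at hq hq'
    simp only at h
    rw [hprod q.2 hq.2.1, hprod q'.2 hq'.2.1] at h
    have h2 : (∏ p ∈ T0, p) * (q.1 * ∏ p ∈ q.2, p) = (∏ p ∈ T0, p) * (q'.1 * ∏ p ∈ q'.2, p) := by
      calc _ = q.1 * ((∏ p ∈ T0, p) * ∏ p ∈ q.2, p) := by ring
        _ = q'.1 * ((∏ p ∈ T0, p) * ∏ p ∈ q'.2, p) := h
        _ = _ := by ring
    have h3 := Nat.eq_of_mul_eq_mul_left hK h2
    have h4 : q.2 = q'.2 := by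
      rw [← hrec q.1 hq.1 q.2 hq.2.1, h3, hrec q'.1 hq'.1 q'.2 hq'.2.1]
    rw [h4] at h3
    have h5 := Nat.eq_of_mul_eq_mul_right (hTpos q'.2 hq'.2.1) h3
    exact Prod.ext h5 h4
  rw [← sum_image (f := f) hinj]
  apply sum_le_sum_of_subset_of_nonneg
  · intro e he
    rw [mem_image] at he
    obtain ⟨q, hq, rfl⟩ := he
    rw [mem_product, mem_filter] at hq
    rw [hprod q.2 hq.2.1, mem_Icc]
    obtain ⟨h1, h2, _⟩ := hF q.1 hq.1
    refine ⟨Nat.mul_pos (by omega) (Nat.mul_pos hK (hTpos q.2 hq.2.1)), ?_⟩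
    exact Nat.mul_le_mul h2 (Nat.mul_le_mul_left _ hq.2.2)
  · intro _ _ _
    exact hf _

open Classical in
theorem fix_core (c : ℕ) (hc : 1 ≤ c) : ∃ C0 k : ℕ, 1 ≤ C0 ∧ ∀ b : ℕ, C0 ≤ b → ∀ y X r M a : ℕ,
    (C0 + c) + 3 ≤ y → 1 ≤ a → a ≤ y → y ≤ X →
    M * ((∏ p ∈ pz (C0 + c), p) * (2 ^ 2 ^ JJ y) ^ (C0 * b)) ≤ X → 1 ≤ Real.log X →
    ∀ Q : ℕ → ℕ → Prop, PerA Q c → ∀ F : Finset ℕ,
    (∀ d ∈ F, 1 ≤ d ∧ d ≤ M ∧ Squarefree d ∧ ∀ p ∈ d.primeFactors, y < p) →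
    ∑ d ∈ F, |∑ n ∈ (Icc 1 X).filter (fun n : ℕ => (∀ p ∈ pz y, ¬ Q p n) ∧ d ∣ n + a),
        ArithmeticFunction.vonMangoldt n -
      lam1 X * (∏ p ∈ pz y, (1 - (rhoA Q p : ℝ) / (p - 1 : ℝ))) / (Nat.totient d : ℝ)| ≤
      (1 / 2 : ℝ) ^ b * (lam1 X * ∏ p ∈ pz y, (1 - (rhoA Q p : ℝ) / (p - 1 : ℝ))) *
        ∑ d ∈ F, 1 / (Nat.totient d : ℝ) +
      F.card * (y * ((Nat.log 2 X + 1 : ℝ) * Real.log X)) +
      ((JJ y : ℝ) + 2) * (∑ q ∈ Icc 1 (M * ((∏ p ∈ pz (C0 + c), p) * (2 ^ 2 ^ JJ y) ^ (C0 * b))),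
        EfA (RQ (QX Q y a) (C0 + c)) X X r q +
        Real.exp (-(r : ℝ)) * (8 * X * Real.log X) *
          (1 + Real.log ((M * ((∏ p ∈ pz (C0 + c), p) * (2 ^ 2 ^ JJ y) ^ (C0 * b)) : ℕ) : ℝ)) ^ (2 ^ k)) := by
  obtain ⟨C0, hC0, hFL⟩ := Pool.Agent.H20R2.fLem c
  have hz1 : (1 : ℝ) ≤ 3 * ((C0 + c : ℕ) : ℝ) := by
    have : (1 : ℝ) ≤ ((C0 + c : ℕ) : ℝ) := by exact_mod_cast (by omega : 1 ≤ C0 + c)
    linarith
  obtain ⟨k, hk⟩ := Pool.Agent.H398R2.BV.sum_pow_omega_div_totient (3 * ((C0 + c : ℕ) : ℝ)) hz1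
  refine ⟨C0, k, hC0, fun b hb y X r M a hy ha hay hyX hX hL Q hQ F hF => ?_⟩
  set z0 := C0 + c with hz0
  set J := JJ y with hJ
  set D : ℕ := (2 ^ 2 ^ J) ^ (C0 * b) with hD
  set K0 : ℕ := ∏ p ∈ pz z0, p with hK0
  set P : Finset ℕ := (pz y).filter (fun p => z0 < p) with hP
  set Q' := QX Q y a with hQ'
  have hper : PerA Q' c := QX_per hQ hc ha hay
  have hyY : y < 2 ^ 2 ^ J := JJ_lt y
  have hPp : ∀ p ∈ P, p.Prime ∧ z0 < p ∧ p ≤ 2 ^ 2 ^ J := by
    intro p hp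
    rw [hP, mem_filter] at hp
    exact ⟨(mem_pz.1 hp.1).2, hp.2, ((mem_pz.1 hp.1).1.trans hyY.le)⟩
  have hPy : ∀ p ∈ P, p.Prime ∧ p ≤ y := by
    intro p hp
    rw [hP, mem_filter] at hp
    exact ⟨(mem_pz.1 hp.1).2, (mem_pz.1 hp.1).1⟩
  have hpzy : pz y = pz z0 ∪ P := mid_split z0 y (by omega)
  have hdisj : Disjoint (pz z0) P := mid_disj z0 y
  have hpz0 : ∀ p ∈ pz z0, p.Prime := fun p hp => (mem_pz.1 hp).2
  have hψ0 : 0 ≤ lam1 X := sum_nonneg fun _ _ => ArithmeticFunction.vonMangoldt_nonneg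
  have hK01 : 1 ≤ K0 := Nat.pos_of_ne_zero (prod_ne_zero_iff.2 fun p hp => (mem_pz.1 hp).2.ne_zero)
  have hD1 : 1 ≤ D := by rw [hD]; exact Nat.one_le_pow _ _ (by positivity)
  have hMX : M ≤ X := by
    refine le_trans ?_ hX
    exact Nat.le_mul_of_pos_right _ (Nat.mul_pos hK01 hD1)
  set A0 : ℝ := ∏ p ∈ pz z0, ((rhoA (RQ Q z0) p : ℝ) / (p - 1 : ℝ)) with hA0
  have hA00 : 0 ≤ A0 := by
    apply prod_nonneg
    intro p hp
    have hp2 : (2 : ℝ) ≤ p := by exact_mod_cast (hpz0 p hp).two_le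
    exact div_nonneg (Nat.cast_nonneg _) (by linarith)
  set Pq : ℝ := ∏ p ∈ pz y, (1 - (rhoA Q p : ℝ) / (p - 1 : ℝ)) with hPq
  have f2 : A0 * ∏ p ∈ P, (1 - (rhoA Q p : ℝ) / (p - 1 : ℝ)) = Pq := by
    rw [hPq, hpzy, prod_union hdisj]
    congr 1
    rw [hA0]
    apply prod_congr rfl
    intro p hp
    rw [rhoA_small Q z0 p (hpz0 p hp) (mem_pz.1 hp).1]
    have hp2 : (2 : ℝ) ≤ p := by exact_mod_cast (hpz0 p hp).two_le
    have hp3 : (p : ℝ) - 1 ≠ 0 := by linarith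
    field_simp
  -- one modulus
  have one : ∀ d ∈ F, |∑ n ∈ (Icc 1 X).filter (fun n : ℕ => (∀ p ∈ pz y, ¬ Q p n) ∧ d ∣ n + a),
      ArithmeticFunction.vonMangoldt n - lam1 X * Pq / (Nat.totient d : ℝ)| ≤
      (1 / 2 : ℝ) ^ b * (lam1 X * Pq) * (1 / (Nat.totient d : ℝ)) + y * ((Nat.log 2 X + 1 : ℝ) * Real.log X) +
      ((J : ℝ) + 2) * ∑ T ∈ P.powerset.filter (fun T : Finset ℕ => ∏ p ∈ T, p ≤ D),
        fE Q' z0 X X r (d * ∏ p ∈ pz z0 ∪ T, p) := by
    intro d hd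
    obtain ⟨hd1, hdM, hsq, hdy⟩ := hF d hd
    have hdp : ∀ p ∈ d.primeFactors, p.Prime := fun p hp => Nat.prime_of_mem_primeFactors hp
    have hdprod : ∏ p ∈ d.primeFactors, p = d := Nat.prod_primeFactors_of_squarefree hsq
    have hφ : (Nat.totient d : ℝ) = ∏ p ∈ d.primeFactors, ((p : ℝ) - 1) := by
      have h1 := totient_prod d.primeFactors hdp
      rw [hdprod] at h1
      rw [h1]
      push_cast
      refine prod_congr rfl fun p hp => ?_
      rw [Nat.cast_sub (hdp p hp).one_le]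
      push_cast
      ring
    have hφ0 : (0 : ℝ) < (Nat.totient d : ℝ) := by exact_mod_cast Nat.totient_pos.2 (by omega)
    have key := hFL b J z0 P (fun p => (rhoA Q p : ℝ) / (p - 1 : ℝ)) hb (by omega) hPp (fun p hp => by
        have hp2 : (2 : ℝ) ≤ p := by exact_mod_cast (hPp p hp).1.two_le
        refine ⟨div_nonneg (Nat.cast_nonneg _) (by linarith), ?_⟩
        apply div_le_div_of_nonneg_right _ (by linarith)
        exact_mod_cast hQ.few p (hPp p hp).1)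
      ((Icc 1 X).filter (fun n => d ∣ n + a ∧ ∀ p ∈ pz z0, ¬ p ∣ n ∧ ¬ Q p n))
      (fun n => ArithmeticFunction.vonMangoldt n)
      (fun p n => ¬ p ∣ n ∧ Q p n) (lam1 X * A0 / (Nat.totient d : ℝ))
      (fun T => fE Q' z0 X X r (d * ∏ p ∈ pz z0 ∪ T, p))
      (fun _ _ => ArithmeticFunction.vonMangoldt_nonneg) (by positivity) (by
        intro T hT hTD
        have hdT : Disjoint (pz z0) T := disjoint_of_subset_right hT hdisj
        have hTz : ∀ p ∈ T, ¬ p ≤ z0 := fun p hp => by have := (hPp p (hT hp)).2.1; omega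
        have hTy : ∀ p ∈ T, p ≤ y := fun p hp => (hPy p (hT hp)).2
        have hSd : Disjoint (pz z0 ∪ T) d.primeFactors := by
          rw [disjoint_left]
          intro p hp hp'
          have h1 := hdy p hp'
          rcases mem_union.1 hp with h | h
          · have := (mem_pz.1 h).1
            omega
          · have := hTy p h
            omega
        have hSy : (pz z0 ∪ T) ∪ d.primeFactors ⊆ pz X := by
          intro p hp
          rw [mem_pz]
          rcases mem_union.1 hp with h | h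
          · rcases mem_union.1 h with h | h
            · have := mem_pz.1 h
              exact ⟨by omega, this.2⟩
            · exact ⟨(hTy p h).trans hyX, (hPp p (hT h)).1⟩
          · have h1 := Nat.le_of_dvd (by omega) (Nat.dvd_of_mem_primeFactors h)
            exact ⟨by omega, hdp p h⟩
        have eprod : ∏ p ∈ (pz z0 ∪ T) ∪ d.primeFactors, p = d * ∏ p ∈ pz z0 ∪ T, p := by
          rw [prod_union hSd, hdprod, mul_comm]
        have hdX : ∏ p ∈ (pz z0 ∪ T) ∪ d.primeFactors, p ≤ X := by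
          rw [eprod, prod_union hdT]
          exact le_trans (Nat.mul_le_mul hdM (Nat.mul_le_mul_left _ hTD)) hX
        have h1 := fE_bound Q' hper z0 (by omega) X X r ((pz z0 ∪ T) ∪ d.primeFactors) hSy hdX hL
        rw [prod_union hSd, prod_union hdT, eprod] at h1
        have e1 : ∏ p ∈ pz z0, ((rhoA (RQ Q' z0) p : ℝ) / (p - 1 : ℝ)) = A0 := by
          rw [hA0]
          refine prod_congr rfl fun p hp => ?_
          have hpz := mem_pz.1 hp
          rw [rhoA_small Q' z0 p hpz.2 hpz.1, rhoA_small Q z0 p hpz.2 hpz.1, hQ',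
            rhoA_QX_small Q (by omega)]
        have e2 : ∏ p ∈ T, ((rhoA (RQ Q' z0) p : ℝ) / (p - 1 : ℝ)) = ∏ p ∈ T, ((rhoA Q p : ℝ) / (p - 1 : ℝ)) := by
          apply prod_congr rfl
          intro p hp
          rw [rhoA_large Q' z0 p (hTz p hp), hQ', rhoA_QX_small Q (hTy p hp)]
        have e3 : ∏ p ∈ d.primeFactors, ((rhoA (RQ Q' z0) p : ℝ) / (p - 1 : ℝ)) = 1 / (Nat.totient d : ℝ) := by
          rw [hφ, ← prod_const_one (s := d.primeFactors) (M := ℝ), ← prod_div_distrib]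
          refine prod_congr rfl fun p hp => ?_
          have h2 := hdy p hp
          rw [rhoA_large Q' z0 p (by omega), hQ', rhoA_QX_large Q (by omega) ha hay, Nat.cast_one]
        have e5 : ((Icc 1 X).filter (fun n => d ∣ n + a ∧ ∀ p ∈ pz z0, ¬ p ∣ n ∧ ¬ Q p n)).filter
            (fun m => ∀ p ∈ T, ¬ p ∣ m ∧ Q p m) =
            (Icc 1 X).filter (fun n : ℕ => ∀ p ∈ (pz z0 ∪ T) ∪ d.primeFactors, ¬ p ∣ n ∧ RQ Q' z0 p n) := by
          rw [filter_filter]
          apply filter_congr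
          intro n _
          constructor
          · rintro ⟨⟨h4, h5⟩, h6⟩ p hp
            rcases mem_union.1 hp with h | h
            · rcases mem_union.1 h with h | h
              · have h7 := (mem_pz.1 h).1
                refine ⟨(h5 p h).1, (RQ_small Q' z0 p n h7).2 fun h8 => (h5 p h).2 ?_⟩
                exact (QX_small Q (by omega)).1 h8
              · exact ⟨(h6 p h).1, (RQ_large Q' z0 p n (hTz p h)).2 ((QX_small Q (hTy p h)).2 (h6 p h).2)⟩
            · have h2 := hdy p h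
              have h7 : p ∣ n + a := (Nat.dvd_of_mem_primeFactors h).trans h4
              refine ⟨fun h8 => ?_, (RQ_large Q' z0 p n (by omega)).2 ((QX_large Q (by omega)).2 h7)⟩
              have h9 := (Nat.dvd_add_right h8).1 h7
              have := Nat.le_of_dvd (by omega) h9
              omega
          · intro h5
            refine ⟨⟨?_, ?_⟩, ?_⟩
            · rw [← hdprod]
              refine Finset.prod_primes_dvd _ (fun p hp => (hdp p hp).prime) fun p hp => ?_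
              have h2 := hdy p hp
              have h8 := (h5 p (mem_union_right _ hp)).2
              exact (QX_large Q (by omega)).1 ((RQ_large Q' z0 p n (by omega)).1 h8)
            · intro p hp
              have h7 := (mem_pz.1 hp).1
              have h8 := h5 p (mem_union_left _ (mem_union_left _ hp))
              refine ⟨h8.1, fun h9 => (RQ_small Q' z0 p n h7).1 h8.2 ?_⟩
              exact (QX_small Q (by omega)).2 h9
            · intro p hp
              have h8 := h5 p (mem_union_left _ (mem_union_right _ hp))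
              exact ⟨h8.1, (QX_small Q (hTy p hp)).1 ((RQ_large Q' z0 p n (hTz p hp)).1 h8.2)⟩
        have h1' : |∑ m ∈ ((Icc 1 X).filter (fun n => d ∣ n + a ∧ ∀ p ∈ pz z0, ¬ p ∣ n ∧ ¬ Q p n)).filter
            (fun m => ∀ p ∈ T, ¬ p ∣ m ∧ Q p m), ArithmeticFunction.vonMangoldt m -
            lam1 X * A0 / (Nat.totient d : ℝ) * ∏ p ∈ T, ((rhoA Q p : ℝ) / (p - 1 : ℝ))| ≤
            fE Q' z0 X X r (d * ∏ p ∈ pz z0 ∪ T, p) := by
          rw [e5]
          refine le_trans (le_of_eq ?_) h1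
          rw [e1, e2, e3]
          congr 2
          ring
        convert h1')
    have f3 : lam1 X * A0 / (Nat.totient d : ℝ) * ∏ p ∈ P, (1 - (rhoA Q p : ℝ) / (p - 1 : ℝ)) =
        lam1 X * Pq / (Nat.totient d : ℝ) := by
      rw [← f2]
      ring
    rw [f3] at key
    have hdm := diff_mult X y (fun n => (∀ p ∈ pz y, ¬ Q p n) ∧ d ∣ n + a)
      (fun n => (d ∣ n + a ∧ ∀ p ∈ pz z0, ¬ p ∣ n ∧ ¬ Q p n) ∧ ∀ p ∈ P, ¬ (¬ p ∣ n ∧ Q p n)) (by
        intro n hn
        constructor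
        · rintro ⟨h, h4⟩
          refine ⟨⟨h4, fun p hp => ?_⟩, fun p hp => ?_⟩
          · have hp' : p ∈ pz y := by rw [hpzy]; exact mem_union_left _ hp
            exact ⟨hn p hp', h p hp'⟩
          · have hp' : p ∈ pz y := by rw [hpzy]; exact mem_union_right _ hp
            exact fun h1 => h p hp' h1.2
        · rintro ⟨⟨h4, h1⟩, h2⟩
          refine ⟨fun p hp => ?_, h4⟩
          have hpn := hn p hp
          rw [hpzy] at hp
          rcases mem_union.1 hp with h | h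
          · exact (h1 p h).2
          · exact fun h3 => h2 p h ⟨hpn, h3⟩)
    rw [← filter_filter (fun n => d ∣ n + a ∧ ∀ p ∈ pz z0, ¬ p ∣ n ∧ ¬ Q p n)
      (fun n => ∀ p ∈ P, ¬ (¬ p ∣ n ∧ Q p n))] at hdm
    have key' : |∑ n ∈ ((Icc 1 X).filter (fun n => d ∣ n + a ∧ ∀ p ∈ pz z0, ¬ p ∣ n ∧ ¬ Q p n)).filter
        (fun n => ∀ p ∈ P, ¬ (¬ p ∣ n ∧ Q p n)), ArithmeticFunction.vonMangoldt n -
        lam1 X * Pq / (Nat.totient d : ℝ)| ≤
        (1 / 2) ^ b * (lam1 X * Pq / (Nat.totient d : ℝ)) +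
        ((J : ℝ) + 2) * ∑ T ∈ P.powerset.filter (fun T : Finset ℕ => ∏ p ∈ T, p ≤ D),
          fE Q' z0 X X r (d * ∏ p ∈ pz z0 ∪ T, p) := by
      convert key
    clear key
    obtain ⟨W0, hW0⟩ : ∃ W0, W0 = ∑ n ∈ (Icc 1 X).filter (fun n : ℕ => (∀ p ∈ pz y, ¬ Q p n) ∧ d ∣ n + a),
      ArithmeticFunction.vonMangoldt n := ⟨_, rfl⟩
    obtain ⟨W1, hW1⟩ : ∃ W1, W1 = ∑ n ∈ ((Icc 1 X).filter (fun n => d ∣ n + a ∧ ∀ p ∈ pz z0, ¬ p ∣ n ∧
      ¬ Q p n)).filter (fun n => ∀ p ∈ P, ¬ (¬ p ∣ n ∧ Q p n)), ArithmeticFunction.vonMangoldt n := ⟨_, rfl⟩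
    rw [← hW1] at key'
    rw [← hW0]
    rw [← hW0, ← hW1] at hdm
    obtain ⟨Mn, hMn⟩ : ∃ Mn, Mn = lam1 X * Pq / (Nat.totient d : ℝ) := ⟨_, rfl⟩
    rw [← hMn] at key' ⊢
    have e : W0 - Mn = (W0 - W1) + (W1 - Mn) := by ring
    have e6 : (1 / 2 : ℝ) ^ b * (lam1 X * Pq) * (1 / (Nat.totient d : ℝ)) = (1 / 2) ^ b * Mn := by
      rw [hMn]; ring
    rw [e, e6]
    have h4 := abs_add_le (W0 - W1) (W1 - Mn)
    linarith
  refine (sum_le_sum one).trans ?_
  rw [sum_add_distrib, sum_add_distrib, ← mul_sum, sum_const, nsmul_eq_mul, ← mul_sum]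
  have hsum := sum_inj2_le F P (pz z0) y M hPy hpz0 hdisj (fun d hd => ⟨(hF d hd).1, (hF d hd).2.1, (hF d hd).2.2.2⟩)
    D (fun d => fE Q' z0 X X r d) (fun d => fE_nonneg Q' z0 X X r d)
  have hsum2 : ∑ d ∈ Icc 1 (M * (K0 * D)), fE Q' z0 X X r d ≤ ∑ d ∈ Icc 1 (M * (K0 * D)), EfA (RQ Q' z0) X X r d +
      Real.exp (-(r : ℝ)) * (8 * X * Real.log X) * (1 + Real.log ((M * (K0 * D) : ℕ) : ℝ)) ^ (2 ^ k) := by
    unfold fE
    rw [sum_add_distrib, ← mul_sum]
    apply add_le_add le_rfl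
    have h2 := Real.log_natCast_nonneg X
    apply mul_le_mul_of_nonneg_left (hk _) (by positivity)
  have h3 := mul_le_mul_of_nonneg_left (hsum.trans hsum2) (by positivity : (0 : ℝ) ≤ (J : ℝ) + 2)
  linarith

end Pool.Agent.J4.H38.SR2
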