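import Mathlib
import Pool.Agent.J4.H38.SR2.Fix1
import Pool.Agent.J4.H38.SR2.Few

/-! The level of distribution of the primes with rough positions. -/

set_option autoImplicit false

namespace Pool.Agent.J4.H38.SR2

open Finset Filter
open Pool.Agent.Y822
open Pool.Agent.J4.H38.SR
open Pool.Agent.H373R2.T7

/-- the weighted number of the primes with rough positions in a progression -/
noncomputable def SX (Q : ℕ → ℕ → Prop) (N y a d : ℕ) : ℝ := by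
  classical
  exact ∑ n ∈ (Icc 1 N).filter (fun n : ℕ => (∀ p ∈ pz y, ¬ Q p n) ∧ d ∣ n + a), ArithmeticFunction.vonMangoldt n

/-- the product of the densities -/
noncomputable def Pq (Q : ℕ → ℕ → Prop) (y : ℕ) : ℝ := ∏ p ∈ pz y, (1 - (rhoA Q p : ℝ) / (p - 1 : ℝ))

lemma Pq_bd (Q : ℕ → ℕ → Prop) (y : ℕ) : 0 ≤ Pq Q y ∧ Pq Q y ≤ 1 :=
  ⟨prod_nonneg fun p hp => (facA Q p (mem_pz.1 hp).2).1,
    prod_le_one (fun p hp => (facA Q p (mem_pz.1 hp).2).1) (fun p hp => (facA Q p (mem_pz.1 hp).2).2)⟩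

lemma ex_b (s : ℝ) (hs : 0 < s) (A : ℝ) (hA : 0 ≤ A) (n C0 : ℕ) : ∃ t₀ : ℝ, 1 ≤ t₀ ∧ ∀ t : ℝ, t₀ ≤ t →
    C0 ≤ ⌊t / s⌋₊ ∧ (1 / 2 : ℝ) ^ ⌊t / s⌋₊ * (A * t ^ n) ≤ 1 := by
  have h1 : Tendsto (fun b : ℕ => (b : ℝ) ^ n * (1 / 2 : ℝ) ^ b) atTop (nhds 0) :=
    tendsto_pow_const_mul_const_pow_of_abs_lt_one n (by norm_num [abs_of_pos])
  have h2 : ∀ᶠ b : ℕ in atTop, (b : ℝ) ^ n * (1 / 2 : ℝ) ^ b < 1 / (A * s ^ n * 2 ^ n + 1) :=
    h1.eventually_lt tendsto_const_nhds (by positivity)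
  obtain ⟨b₀, hb₀⟩ := eventually_atTop.1 h2
  refine ⟨max 1 ((b₀ + C0 + 2) * s), le_max_left _ _, fun t ht => ?_⟩
  have h3 : (b₀ + C0 + 2) * s ≤ t := (le_max_right _ _).trans ht
  have h4 : ((b₀ + C0 + 2 : ℕ) : ℝ) ≤ t / s := by
    rw [le_div_iff₀ hs]
    push_cast
    exact h3
  have h5 : b₀ + C0 + 2 ≤ ⌊t / s⌋₊ := Nat.le_floor h4
  obtain ⟨b, hb⟩ : ∃ b, b = ⌊t / s⌋₊ := ⟨_, rfl⟩
  rw [← hb] at h5 ⊢
  refine ⟨by omega, ?_⟩
  have h6 := hb₀ b (by omega)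
  have h7 : t / s < b + 1 := by rw [hb]; exact Nat.lt_floor_add_one _
  have hb1 : (1 : ℝ) ≤ b := by exact_mod_cast (by omega : 1 ≤ b)
  have h8 : t ≤ 2 * b * s := by
    rw [div_lt_iff₀ hs] at h7
    nlinarith
  have ht0 : 0 ≤ t := by
    have := (le_max_left 1 ((b₀ + C0 + 2 : ℝ) * s)).trans ht
    linarith
  have h9 : t ^ n ≤ (2 * b * s) ^ n := pow_le_pow_left₀ ht0 h8 n
  have h10 : (2 * (b : ℝ) * s) ^ n = (2 ^ n * s ^ n) * (b : ℝ) ^ n := by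
    rw [mul_pow, mul_pow]; ring
  have hX : 0 ≤ (b : ℝ) ^ n * (1 / 2 : ℝ) ^ b := by positivity
  calc (1 / 2 : ℝ) ^ b * (A * t ^ n) ≤ (1 / 2 : ℝ) ^ b * (A * ((2 ^ n * s ^ n) * (b : ℝ) ^ n)) := by
        rw [← h10]
        gcongr
    _ = (A * s ^ n * 2 ^ n) * ((b : ℝ) ^ n * (1 / 2 : ℝ) ^ b) := by ring
    _ ≤ (A * s ^ n * 2 ^ n + 1) * ((b : ℝ) ^ n * (1 / 2 : ℝ) ^ b) :=
        mul_le_mul_of_nonneg_right (by linarith) hX
    _ ≤ (A * s ^ n * 2 ^ n + 1) * (1 / (A * s ^ n * 2 ^ n + 1)) :=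
        mul_le_mul_of_nonneg_left h6.le (by positivity)
    _ = 1 := by
        have : A * s ^ n * 2 ^ n + 1 ≠ 0 := by positivity
        field_simp

/-- the total error over the moduli -/
theorem fix_sum (c : ℕ) (hc : 1 ≤ c) : ∃ C0 : ℕ, 1 ≤ C0 ∧ ∀ b : ℕ, C0 ≤ b → ∀ κ : ℝ, 0 < κ →
    500 * (C0 * b) * κ ≤ 1 → κ ≤ 1 / 100 → ∀ U a : ℕ, 1 ≤ a → ∀ᶠ N : ℕ in atTop, ∀ y : ℕ,
    (y : ℝ) ≤ Real.exp (κ * Real.log N) → Real.exp (κ * Real.log N) ≤ y + 1 →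
    ∀ Q : ℕ → ℕ → Prop, PerA Q c → ∀ F : Finset ℕ,
    (∀ d ∈ F, 1 ≤ d ∧ (d : ℝ) ≤ Real.exp (49 / 100 * Real.log N) ∧ Squarefree d ∧ ∀ p ∈ d.primeFactors, y < p) →
    ∑ d ∈ F, |SX Q N y a d - lam1 N * Pq Q y / (Nat.totient d : ℝ)| ≤
      (1 / 2 : ℝ) ^ b * (lam1 N * Pq Q y) * ∑ d ∈ F, 1 / (Nat.totient d : ℝ) + N / Real.log N ^ U := by
  classical
  obtain ⟨C0, k, hC0, hcore⟩ := fix_core c hc
  refine ⟨C0, hC0, fun b hb κ hκ hκb hκ1 U a ha => ?_⟩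
  have hCb : 1 ≤ C0 * b := Nat.mul_pos hC0 (by omega)
  obtain ⟨z0, hz0⟩ : ∃ z0, z0 = C0 + c := ⟨_, rfl⟩
  rw [← hz0] at hcore
  obtain ⟨K0, hK0⟩ : ∃ K0, K0 = ∏ p ∈ pz z0, p := ⟨_, rfl⟩
  rw [← hK0] at hcore
  have hK01 : 1 ≤ K0 := by
    rw [hK0]
    exact Nat.pos_of_ne_zero (prod_ne_zero_iff.2 fun p hp => (mem_pz.1 hp).2.ne_zero)
  obtain ⟨m, hm⟩ : ∃ m, m = U + 2 ^ k + 6 := ⟨_, rfl⟩
  obtain ⟨B, X0, hBV⟩ := H343E.unsmoothed (m * z0 + 1 + U + 4)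
  filter_upwards [eventually_ge_atTop (max ⌈X0⌉₊ 3), ev_logN (eventually_ge_atTop (max 200 (z0 : ℝ))),
    ev_logN (ev_pow_exp 0 (1 / 1000) K0 (by norm_num)),
    ev_logN (ev_pow_exp B (1 / 100) 1 (by norm_num)),
    ev_logN (ev_pow_exp (U + 2) (1 / 2) 12 (by norm_num)),
    ev_logN (eventually_ge_atTop ((z0 + a + 5) * (2 / κ)))] with N hN hLz e1 e2 e3 e4
  intro y hya hyb Q hQ F hF
  have hNX : ⌈X0⌉₊ ≤ N := (le_max_left _ _).trans hN
  have hN3 : 3 ≤ N := (le_max_right _ _).trans hN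
  obtain ⟨L, hLd⟩ : ∃ L, L = Real.log N := ⟨_, rfl⟩
  rw [← hLd] at hLz e1 e2 e3 e4 hya hyb hF ⊢
  have hL200 : 200 ≤ L := (le_max_left _ _).trans hLz
  have hzL : (z0 : ℝ) ≤ L := (le_max_right _ _).trans hLz
  have hL0 : 0 < L := by linarith
  have hL1 : 1 ≤ L := by linarith
  have hN0 : (0 : ℝ) < N := by positivity
  have hNe : (N : ℝ) = Real.exp L := by rw [hLd, Real.exp_log hN0]
  rw [pow_zero, mul_one] at e1
  rw [one_mul] at e2
  have hya2 : ((z0 + a + 3 : ℕ) : ℝ) + 2 ≤ κ / 2 * Real.log N := by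
    rw [← hLd]
    have h1 : (z0 : ℝ) + a + 5 = κ / 2 * ((z0 + a + 5) * (2 / κ)) := by field_simp
    have h2 := mul_le_mul_of_nonneg_left e4 (by positivity : 0 ≤ κ / 2)
    push_cast
    linarith
  obtain ⟨_, _, y3, _, _, _⟩ := y_core (M := z0 + a + 3) hκ (by omega : 1 ≤ N) hya2
    (by rw [← hLd]; exact hya) (by rw [← hLd]; exact hyb)
  have hy2 : 2 ≤ y := by omega
  have hyN : y ≤ N := by
    have : (y : ℝ) ≤ N := by
      rw [hNe]
      refine hya.trans (Real.exp_le_exp.2 ?_)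
      nlinarith
    exact_mod_cast this
  obtain ⟨M, hM⟩ : ∃ M : ℕ, M = ⌊Real.exp (49 / 100 * L)⌋₊ := ⟨_, rfl⟩
  have hMr : (M : ℝ) ≤ Real.exp (49 / 100 * L) := by rw [hM]; exact Nat.floor_le (Real.exp_pos _).le
  obtain ⟨DD, hDD⟩ : ∃ DD, DD = M * (K0 * (2 ^ 2 ^ JJ y) ^ (C0 * b)) := ⟨_, rfl⟩
  have hDr : (((2 ^ 2 ^ JJ y) ^ (C0 * b) : ℕ) : ℝ) ≤ Real.exp (L / 250) := by
    have h1 : (2 ^ 2 ^ JJ y) ^ (C0 * b) ≤ y ^ (2 * (C0 * b)) := by
      calc (2 ^ 2 ^ JJ y) ^ (C0 * b) ≤ (y ^ 2) ^ (C0 * b) := Nat.pow_le_pow_left (JJ_le y hy2) _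
        _ = _ := by rw [← pow_mul]
    calc (((2 ^ 2 ^ JJ y) ^ (C0 * b) : ℕ) : ℝ) ≤ ((y ^ (2 * (C0 * b)) : ℕ) : ℝ) := by exact_mod_cast h1
      _ = (y : ℝ) ^ (2 * (C0 * b)) := by push_cast; rfl
      _ ≤ (Real.exp (κ * L)) ^ (2 * (C0 * b)) := pow_le_pow_left₀ (Nat.cast_nonneg _) hya _
      _ = Real.exp ((2 * (C0 * b)) * (κ * L)) := by rw [← Real.exp_nat_mul]; push_cast; rfl
      _ ≤ Real.exp (L / 250) := by
          refine Real.exp_le_exp.2 ?_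
          have h2 := mul_le_mul_of_nonneg_right hκb hL0.le
          nlinarith
  have hDDr : (DD : ℝ) ≤ Real.exp (495 / 1000 * L) := by
    rw [hDD]
    push_cast
    push_cast at hDr
    calc (M : ℝ) * (K0 * (2 ^ 2 ^ JJ y) ^ (C0 * b)) ≤
          Real.exp (49 / 100 * L) * (Real.exp (1 / 1000 * L) * Real.exp (L / 250)) := by gcongr
      _ = Real.exp (495 / 1000 * L) := by
          rw [← Real.exp_add, ← Real.exp_add]
          congr 1
          ring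
  have hM1 : 1 ≤ M := by
    rw [hM]
    refine Nat.le_floor ?_
    rw [Nat.cast_one]
    exact Real.one_le_exp (by positivity)
  have hDD1 : 1 ≤ DD := by
    rw [hDD]
    exact Nat.mul_pos hM1 (Nat.mul_pos hK01 (Nat.pow_pos (by positivity)))
  have hDDN : DD ≤ N := by
    have : (DD : ℝ) ≤ N := by
      refine hDDr.trans ?_
      rw [hNe]
      exact Real.exp_le_exp.2 (by linarith)
    exact_mod_cast this
  have hDDr1 : (1 : ℝ) ≤ DD := by exact_mod_cast hDD1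
  have hNB : Real.exp (99 / 100 * L) ≤ N / L ^ B := by
    rw [le_div_iff₀ (by positivity), hNe]
    calc Real.exp (99 / 100 * L) * L ^ B ≤ Real.exp (99 / 100 * L) * Real.exp (1 / 100 * L) :=
          mul_le_mul_of_nonneg_left e2 (Real.exp_pos _).le
      _ = Real.exp L := by rw [← Real.exp_add]; congr 1; ring
  have hDD2 : (DD : ℝ) ^ 2 ≤ N / L ^ B := by
    refine le_trans ?_ hNB
    calc (DD : ℝ) ^ 2 ≤ (Real.exp (495 / 1000 * L)) ^ 2 := pow_le_pow_left₀ (Nat.cast_nonneg _) hDDr 2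
      _ = Real.exp (99 / 100 * L) := by
          rw [← Real.exp_nat_mul]
          congr 1
          push_cast
          ring
  have hDDB : (DD : ℝ) ≤ N / L ^ B := le_trans (le_self_pow₀ hDDr1 (by norm_num)) hDD2
  have hlogDD : 1 + Real.log (DD : ℝ) ≤ L := by
    have h6 := Real.log_le_log (by positivity) hDDr
    rw [Real.log_exp] at h6
    linarith
  obtain ⟨r, hr⟩ : ∃ r, r = ⌈(m : ℝ) * Real.log L⌉₊ := ⟨_, rfl⟩
  obtain ⟨hr1, hr2⟩ := num_r L m z0 hL1 (by omega) hzL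
  rw [← hr] at hr1 hr2
  have hA1 : 1 ≤ L ^ (m * z0 + 1) := one_le_pow₀ hL1
  have hper : PerA (QX Q y a) c := QX_per hQ hc ha (by omega)
  have hbv := hBV N ((Nat.le_ceil _).trans (by exact_mod_cast hNX)) (L ^ (m * z0 + 1)) hA1 DD
    (by rw [← hLd]; exact hDDB) (by
      rw [← hLd]
      refine hDD2.trans ?_
      apply div_le_div_of_nonneg_right _ (by positivity)
      exact le_mul_of_one_le_left hN0.le hA1) (LSA (RQ (QX Q y a) z0) N r)
    (LSA_fam (RQ (QX Q y a) z0) (RQ_per (QX Q y a) hper z0 (by omega)) (by omega) N r _ hr2)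
  have hEf : ∑ d ∈ Icc 1 DD, EfA (RQ (QX Q y a) z0) N N r d ≤ N / L ^ (U + 4) := by
    rw [← hLd] at hbv
    have e9 : L ^ (m * z0 + 1) * N / L ^ (m * z0 + 1 + U + 4) = N / L ^ (U + 4) := by
      rw [show m * z0 + 1 + U + 4 = (m * z0 + 1) + (U + 4) by ring, pow_add L (m * z0 + 1)]
      field_simp
    rw [← e9]
    refine le_trans (le_of_eq ?_) hbv
    apply sum_congr rfl
    intro d _
    unfold EfA
    apply sum_congr rfl
    intro b _
    rw [lamAP_eq, lam1_eq']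
  have hF' : ∀ d ∈ F, 1 ≤ d ∧ d ≤ M ∧ Squarefree d ∧ ∀ p ∈ d.primeFactors, y < p := by
    intro d hd
    obtain ⟨h1, h2, h3, h4⟩ := hF d hd
    refine ⟨h1, ?_, h3, h4⟩
    rw [hM]
    exact Nat.le_floor h2
  have hW := hcore b hb y N r M a (by omega) ha (by omega) hyN (by rw [← hDD]; exact hDDN)
    (by rw [← hLd]; exact hL1) Q hQ F hF'
  rw [← hDD, ← hLd] at hW
  have hFc : (F.card : ℝ) ≤ Real.exp (49 / 100 * L) := by
    have h1 : F ⊆ Icc 1 M := fun d hd => mem_Icc.2 ⟨(hF' d hd).1, (hF' d hd).2.1⟩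
    have h2 := card_le_card h1
    rw [Nat.card_Icc, Nat.add_sub_cancel] at h2
    have h3 : (F.card : ℝ) ≤ M := by exact_mod_cast h2
    exact h3.trans hMr
  have hlog2 : (Nat.log 2 N : ℝ) + 1 ≤ 3 * L := by
    have h7 := natlog_le N (by omega)
    rw [← hLd] at h7
    linarith
  have t1 : (F.card : ℝ) * (y * ((Nat.log 2 N + 1 : ℝ) * L)) ≤ 1 / 4 * (N / L ^ U) := by
    have h1 : (F.card : ℝ) * (y * ((Nat.log 2 N + 1 : ℝ) * L)) ≤
        Real.exp (49 / 100 * L) * (Real.exp (κ * L) * ((3 * L) * L)) := by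
      have h0 : (0 : ℝ) ≤ (Nat.log 2 N : ℝ) + 1 := by positivity
      gcongr
    have h2 : Real.exp (κ * L) ≤ Real.exp (1 / 100 * L) :=
      Real.exp_le_exp.2 (mul_le_mul_of_nonneg_right hκ1 hL0.le)
    have h3 : Real.exp (49 / 100 * L) * (Real.exp (κ * L) * ((3 * L) * L)) ≤
        Real.exp (1 / 2 * L) * (3 * L ^ 2) := by
      calc _ ≤ Real.exp (49 / 100 * L) * (Real.exp (1 / 100 * L) * ((3 * L) * L)) := by gcongr
        _ = (Real.exp (49 / 100 * L) * Real.exp (1 / 100 * L)) * (3 * L ^ 2) := by ring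
        _ = _ := by
            rw [← Real.exp_add]
            congr 2
            ring
    refine (h1.trans h3).trans ?_
    rw [mul_div_assoc', le_div_iff₀ (by positivity), hNe]
    calc Real.exp (1 / 2 * L) * (3 * L ^ 2) * L ^ U = 1 / 4 * (Real.exp (1 / 2 * L) * (12 * L ^ (U + 2))) := by
          rw [pow_add]; ring
      _ ≤ 1 / 4 * (Real.exp (1 / 2 * L) * Real.exp (1 / 2 * L)) := by gcongr
      _ = 1 / 4 * Real.exp L := by
          rw [← Real.exp_add]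
          congr 2
          ring
  have hJ : (JJ y : ℝ) + 2 ≤ 5 * L := by
    have h5 : JJ y ≤ Nat.log 2 N + 1 := by
      unfold JJ
      have := Nat.log_le_self 2 (Nat.log 2 y)
      have h6 : Nat.log 2 y ≤ Nat.log 2 N := Nat.log_mono_right hyN
      omega
    have h6 : (JJ y : ℝ) ≤ Nat.log 2 N + 1 := by exact_mod_cast h5
    linarith
  have t2 : Real.exp (-(r : ℝ)) * (8 * N * L) * (1 + Real.log (DD : ℝ)) ^ (2 ^ k) ≤ 8 * (N / L ^ (U + 5)) := by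
    have h11 : (0 : ℝ) ≤ 1 + Real.log (DD : ℝ) := by have := Real.log_nonneg hDDr1; linarith
    calc Real.exp (-(r : ℝ)) * (8 * N * L) * (1 + Real.log (DD : ℝ)) ^ (2 ^ k) ≤ (1 / L ^ m) * (8 * N * L) * L ^ (2 ^ k) := by
            apply mul_le_mul _ (pow_le_pow_left₀ h11 hlogDD _) (by positivity) (by positivity)
            exact mul_le_mul_of_nonneg_right hr1 (by positivity)
      _ = 8 * (N / L ^ (U + 5)) := by
          rw [hm, show U + 2 ^ k + 6 = (2 ^ k + 1) + (U + 5) by ring, pow_add L (2 ^ k + 1), pow_succ L (2 ^ k)]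
          field_simp
  have t3 : ((JJ y : ℝ) + 2) * (∑ q ∈ Icc 1 DD, EfA (RQ (QX Q y a) z0) N N r q +
        Real.exp (-(r : ℝ)) * (8 * N * L) * (1 + Real.log (DD : ℝ)) ^ (2 ^ k)) ≤ 3 / 4 * (N / L ^ U) := by
    have h1 : (N : ℝ) / L ^ (U + 5) ≤ N / L ^ (U + 4) := by
      apply div_le_div_of_nonneg_left hN0.le (by positivity)
      exact pow_le_pow_right₀ hL1 (by omega)
    have h2 : 0 ≤ ∑ q ∈ Icc 1 DD, EfA (RQ (QX Q y a) z0) N N r q :=
      sum_nonneg fun _ _ => EfA_nonneg _ _ _ _ _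
    calc _ ≤ (5 * L) * (9 * (N / L ^ (U + 4))) := by
          apply mul_le_mul hJ (by linarith) _ (by positivity)
          have h11 : (0 : ℝ) ≤ 1 + Real.log (DD : ℝ) := by have := Real.log_nonneg hDDr1; linarith
          positivity
      _ = 45 / L ^ 3 * (N / L ^ U) := by
          rw [pow_add L U 4]
          field_simp
          norm_num
      _ ≤ _ := by
          apply mul_le_mul_of_nonneg_right _ (by positivity)
          rw [div_le_iff₀ (by positivity)]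
          have : L ≤ L ^ 3 := le_self_pow₀ hL1 (by norm_num)
          linarith
  have e5 : ∀ d, SX Q N y a d = ∑ n ∈ (Icc 1 N).filter (fun n : ℕ => (∀ p ∈ pz y, ¬ Q p n) ∧ d ∣ n + a),
      ArithmeticFunction.vonMangoldt n := fun d => by
    unfold SX
    refine sum_congr ?_ fun _ _ => rfl
    ext n
    simp only [mem_filter]
  have e6 : ∑ d ∈ F, |SX Q N y a d - lam1 N * Pq Q y / (Nat.totient d : ℝ)| =
      ∑ d ∈ F, |∑ n ∈ (Icc 1 N).filter (fun n : ℕ => (∀ p ∈ pz y, ¬ Q p n) ∧ d ∣ n + a),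
        ArithmeticFunction.vonMangoldt n -
      lam1 N * (∏ p ∈ pz y, (1 - (rhoA Q p : ℝ) / (p - 1 : ℝ))) / (Nat.totient d : ℝ)| := by
    refine sum_congr rfl fun d _ => ?_
    rw [e5 d]
    rfl
  rw [e6]
  have e7 : Pq Q y = ∏ p ∈ pz y, (1 - (rhoA Q p : ℝ) / (p - 1 : ℝ)) := rfl
  rw [← e7] at hW ⊢
  have hW' := hW
  linarith

end Pool.Agent.J4.H38.SR2
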