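import Mathlib
import Pool.Agent.J4.H38.SR2.Fix2
import Pool.Agent.J4.H38.SR.Kuhn3
import Pool.Agent.TH891.SG.Gal2

/-! The level of distribution of the primes with rough positions: the final form. -/

set_option autoImplicit false

namespace Pool.Agent.J4.H38.SR2

open Finset Filter
open Pool.Agent.Y822
open Pool.Agent.J4.H38.SR
open Pool.Agent.H373R2.T7

lemma FK_exp {N : ℕ} {κ : ℝ} {y : ℕ} (hN : 2 ≤ N) (hy : (y : ℝ) < (N : ℝ) ^ κ) : ∀ d ∈ FK N κ,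
    1 ≤ d ∧ (d : ℝ) ≤ Real.exp (49 / 100 * Real.log N) ∧ Squarefree d ∧ ∀ p ∈ d.primeFactors, y < p := by
  intro d hd
  rw [mem_FK] at hd
  have hN0 : (0 : ℝ) < N := by exact_mod_cast (by omega : 0 < N)
  refine ⟨hd.1.1, ?_, hd.2.1, fun p hp => ?_⟩
  · have h1 : (d : ℝ) ≤ (⌊(N : ℝ) ^ (49 / 100 : ℝ)⌋₊ : ℝ) := by exact_mod_cast hd.1.2
    refine h1.trans ((Nat.floor_le (by positivity)).trans (le_of_eq ?_))
    rw [Real.rpow_def_of_pos hN0, mul_comm]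
  · have h1 := hd.2.2 p hp
    rw [Pool.Agent.W23.DC.le_tt_iff hN (Nat.prime_of_mem_primeFactors hp).pos] at h1
    exact_mod_cast hy.trans_le h1

/-- the reciprocals of the moduli -/
lemma sum_phi {y D : ℕ} (hy : 1 ≤ y) (F : Finset ℕ) (hF : F ⊆ SD y D) :
    ∑ d ∈ F, 1 / (Nat.totient d : ℝ) ≤ EE y D ∧ ∑ d ∈ F, 1 / (d : ℝ) ≤ EE y D ∧
      ∑ d ∈ F, |1 / (Nat.totient d : ℝ) - 1 / (d : ℝ)| ≤ EE y D / y := by
  have hy0 : (0 : ℝ) < y := by exact_mod_cast hy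
  have hmain := sum_div_le y D
  have hsub : ∑ d ∈ F, (3 : ℝ) ^ d.primeFactors.card / d ≤ EE y D :=
    (sum_le_sum_of_subset_of_nonneg hF fun _ _ _ => by positivity).trans hmain
  have key : ∀ d ∈ F, 1 / (Nat.totient d : ℝ) ≤ 1 / (d : ℝ) + (3 : ℝ) ^ d.primeFactors.card / d / y ∧
      1 / (Nat.totient d : ℝ) ≤ (3 : ℝ) ^ d.primeFactors.card / d ∧ 1 / (d : ℝ) ≤ 1 / (Nat.totient d : ℝ) := by
    intro d hd
    have hsd := hF hd
    obtain ⟨⟨hd1, hdD⟩, hsq, hro⟩ := mem_SD.1 hsd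
    have hpf := pf_sub hsd
    have hprod := prod_pf hsd
    have hdp : ∀ p ∈ d.primeFactors, p.Prime := fun p hp => Nat.prime_of_mem_primeFactors hp
    have hd0 : (0 : ℝ) < d := by exact_mod_cast hd1
    have hφ : (Nat.totient d : ℝ) = ∏ p ∈ d.primeFactors, ((p : ℝ) - 1) := by
      have h1 := totient_prod d.primeFactors hdp
      rw [hprod] at h1
      rw [h1]
      push_cast
      refine prod_congr rfl fun p hp => ?_
      rw [Nat.cast_sub (hdp p hp).one_le]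
      push_cast
      ring
    have hdr : (d : ℝ) = ∏ p ∈ d.primeFactors, (p : ℝ) := by
      conv_lhs => rw [← hprod]
      push_cast
      rfl
    have hφ0 : (0 : ℝ) < (Nat.totient d : ℝ) := by exact_mod_cast Nat.totient_pos.2 (by omega)
    have hφd : (Nat.totient d : ℝ) ≤ d := by exact_mod_cast Nat.totient_le d
    have e1 : 1 / (Nat.totient d : ℝ) = 1 / (d : ℝ) * ∏ p ∈ d.primeFactors, ((p : ℝ) / ((p : ℝ) - 1)) := by
      rw [prod_div_distrib, ← hφ, ← hdr]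
      field_simp
    have h2 : ∏ p ∈ d.primeFactors, ((p : ℝ) / ((p : ℝ) - 1)) ≤ (1 + 1 / (y : ℝ)) ^ d.primeFactors.card := by
      rw [← prod_const]
      refine prod_le_prod (fun p hp => ?_) fun p hp => ?_
      · have : (2 : ℝ) ≤ p := by exact_mod_cast (hdp p hp).two_le
        exact div_nonneg (by linarith) (by linarith)
      · have h3 : y < p := (mem_PP.1 (hpf hp)).1.1
        have h4 : (y : ℝ) + 1 ≤ p := by exact_mod_cast h3
        have h5 : 0 < (p : ℝ) - 1 := by linarith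
        rw [div_le_iff₀ h5]
        have h6 : 1 ≤ 1 / (y : ℝ) * ((p : ℝ) - 1) := by
          rw [one_div_mul_eq_div, le_div_iff₀ hy0]
          linarith
        linarith
    have h3 : (1 + 1 / (y : ℝ)) ^ d.primeFactors.card ≤ 1 + 2 ^ d.primeFactors.card / (y : ℝ) := by
      have h := Pool.Agent.TH891.SG.pow_convex d.primeFactors.card (C := 1) (by norm_num) (u := 1 / (y : ℝ))
        (by positivity) (by rw [div_le_one hy0]; exact_mod_cast hy)
      rw [one_mul, one_add_one_eq_two, mul_one_div] at h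
      exact h
    have h4 : (2 : ℝ) ^ d.primeFactors.card ≤ 3 ^ d.primeFactors.card :=
      pow_le_pow_left₀ (by norm_num) (by norm_num) _
    have h5 : (1 + 1 / (y : ℝ)) ^ d.primeFactors.card ≤ 3 ^ d.primeFactors.card := by
      refine le_trans (pow_le_pow_left₀ (by positivity) ?_ _) h4
      have : 1 / (y : ℝ) ≤ 1 := by rw [div_le_one hy0]; exact_mod_cast hy
      linarith
    refine ⟨?_, ?_, one_div_le_one_div_of_le hφ0 hφd⟩
    · rw [e1]
      have h6 : 2 ^ d.primeFactors.card / (y : ℝ) ≤ 3 ^ d.primeFactors.card / (y : ℝ) :=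
        div_le_div_of_nonneg_right h4 hy0.le
      calc 1 / (d : ℝ) * ∏ p ∈ d.primeFactors, ((p : ℝ) / ((p : ℝ) - 1)) ≤
            1 / (d : ℝ) * (1 + 3 ^ d.primeFactors.card / (y : ℝ)) :=
            mul_le_mul_of_nonneg_left (by linarith) (by positivity)
        _ = _ := by field_simp
    · rw [e1]
      calc 1 / (d : ℝ) * ∏ p ∈ d.primeFactors, ((p : ℝ) / ((p : ℝ) - 1)) ≤
            1 / (d : ℝ) * 3 ^ d.primeFactors.card :=
            mul_le_mul_of_nonneg_left (by linarith) (by positivity)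
        _ = _ := by field_simp
  refine ⟨(sum_le_sum fun d hd => (key d hd).2.1).trans hsub,
    (sum_le_sum fun d hd => ((key d hd).2.2.trans (key d hd).2.1)).trans hsub, ?_⟩
  calc ∑ d ∈ F, |1 / (Nat.totient d : ℝ) - 1 / (d : ℝ)| ≤ ∑ d ∈ F, (3 : ℝ) ^ d.primeFactors.card / d / y := by
        refine sum_le_sum fun d hd => ?_
        obtain ⟨h1, _, h3⟩ := key d hd
        rw [abs_of_nonneg (by linarith)]
        linarith
    _ = (∑ d ∈ F, (3 : ℝ) ^ d.primeFactors.card / d) / y := by rw [sum_div]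
    _ ≤ _ := div_le_div_of_nonneg_right hsub hy0.le

lemma lev_calc {E h N L ψ P Z T1 S1 R Y u : ℝ} (hE : 1 ≤ E) (hh0 : 0 ≤ h) (hh1 : h ≤ 1)
    (hψ0 : 0 ≤ ψ) (hP0 : 0 ≤ P) (hP1 : P ≤ 1) (hZ : 0 ≤ Z) (hψ : |ψ - N| ≤ Z) (hN : 0 ≤ N) (_hu : 0 ≤ u)
    (hT : T1 ≤ h * (ψ * P) * E + Z) (hS1 : |S1 - ψ * P| ≤ T1)
    (hR : R ≤ T1 + ψ * P * (E / Y) + T1 * E) (hY : 0 < Y) (hYu : 1 / Y ≤ u)
    (hhu : 2 * E ^ 2 * h ≤ u) (hfin : (8 * E ^ 2) * Z + 2 * E * N * (1 / Y) ≤ L) (hu1 : u ≤ 1) :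
    R ≤ u * (N * P) + L ∧ |S1 - N * P| ≤ u * (N * P) + L := by
  have hψP : ψ * P ≤ N * P + Z := by
    have h1 := (abs_le.1 hψ).2
    nlinarith
  have hψP0 : 0 ≤ ψ * P := mul_nonneg hψ0 hP0
  have hNP : 0 ≤ N * P := mul_nonneg hN hP0
  have hE0 : 0 ≤ E := by linarith
  have hEE : E ≤ E ^ 2 := by nlinarith
  have hT0 : 0 ≤ T1 := (abs_nonneg _).trans hS1
  have hYE : 0 ≤ 1 / Y := by positivity
  have a1 : T1 + T1 * E ≤ (2 * E ^ 2 * h) * (N * P) + (2 * E ^ 2 * h) * Z + 2 * E * Z := by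
    have h1 : T1 + T1 * E ≤ 2 * E * T1 := by nlinarith
    have h2 : 2 * E * T1 ≤ 2 * E * (h * (ψ * P) * E + Z) := mul_le_mul_of_nonneg_left hT (by positivity)
    have h3 : 2 * E * (h * (ψ * P) * E + Z) = (2 * E ^ 2 * h) * (ψ * P) + 2 * E * Z := by ring
    have h4 : (2 * E ^ 2 * h) * (ψ * P) ≤ (2 * E ^ 2 * h) * (N * P + Z) :=
      mul_le_mul_of_nonneg_left hψP (by positivity)
    linarith
  have a2 : (2 * E ^ 2 * h) * (N * P) ≤ u * (N * P) := mul_le_mul_of_nonneg_right hhu hNP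
  have a3 : (2 * E ^ 2 * h) * Z ≤ 2 * E ^ 2 * Z := by
    have : 2 * E ^ 2 * h ≤ 2 * E ^ 2 := mul_le_of_le_one_right (by positivity) hh1
    exact mul_le_mul_of_nonneg_right this hZ
  have a4 : 2 * E * Z ≤ 2 * E ^ 2 * Z := by nlinarith
  have a5 : ψ * P * (E / Y) ≤ 2 * E * N * (1 / Y) + E ^ 2 * Z := by
    have h1 : ψ * P * (E / Y) = E * (1 / Y) * (ψ * P) := by ring
    have h2 : E * (1 / Y) * (ψ * P) ≤ E * (1 / Y) * (N * P + Z) := mul_le_mul_of_nonneg_left hψP (by positivity)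
    have h3 : N * P ≤ N := mul_le_of_le_one_right hN hP1
    have h4 : E * (1 / Y) * (N * P) ≤ E * (1 / Y) * N := mul_le_mul_of_nonneg_left h3 (by positivity)
    have h5 : 1 / Y ≤ 1 := by linarith
    have h6 : E * (1 / Y) * Z ≤ E * 1 * Z := by
      apply mul_le_mul_of_nonneg_right _ hZ
      exact mul_le_mul_of_nonneg_left h5 hE0
    have h7 : E * Z ≤ E ^ 2 * Z := mul_le_mul_of_nonneg_right hEE hZ
    have h8 : 0 ≤ E * (1 / Y) * N := by positivity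
    linarith
  have hEZ : 0 ≤ E ^ 2 * Z := by positivity
  have hENY : 0 ≤ 2 * E * N * (1 / Y) := by positivity
  constructor
  · linarith
  · have h1 : |S1 - N * P| ≤ |S1 - ψ * P| + |ψ * P - N * P| := by
      have e : S1 - N * P = (S1 - ψ * P) + (ψ * P - N * P) := by ring
      rw [e]
      exact abs_add_le _ _
    have h2 : |ψ * P - N * P| ≤ Z := by
      rw [← sub_mul, abs_mul, abs_of_nonneg hP0]
      calc |ψ - N| * P ≤ |ψ - N| * 1 := mul_le_mul_of_nonneg_left hP1 (abs_nonneg _)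
        _ ≤ _ := by rw [mul_one]; exact hψ
    have h3 : 0 ≤ T1 * E := mul_nonneg hT0 hE0
    have h4 : Z ≤ E ^ 2 * Z := by nlinarith
    linarith

/-- **the level of distribution** of the primes with rough positions -/
theorem fix_level (c : ℕ) (hc : 1 ≤ c) (c₁ : ℝ) (hc₁ : 0 < c₁) (hc₂ : c₁ ≤ 1) : ∃ κ₀ : ℝ, 0 < κ₀ ∧ ∀ κ : ℝ, 0 < κ → κ ≤ κ₀ →
    ∀ U a : ℕ, 1 ≤ a → ∀ᶠ N : ℕ in atTop, ∀ y : ℕ, (y : ℝ) < (N : ℝ) ^ κ → (N : ℝ) ^ κ ≤ y + 1 →
    ∀ Q : ℕ → ℕ → Prop, PerA Q c →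
    ∑ d ∈ FK N κ, |SX Q N y a d - SX Q N y a 1 * (1 / (d : ℝ))| ≤ c₁ * κ * (N * Pq Q y) + N / Real.log N ^ U ∧
      |SX Q N y a 1 - N * Pq Q y| ≤ c₁ * κ * (N * Pq Q y) + N / Real.log N ^ U := by
  classical
  obtain ⟨C0, hC0, hsum⟩ := fix_sum c hc
  obtain ⟨cE, hcE, hEE⟩ := EE_coreY
  have hC0r : (1 : ℝ) ≤ C0 := by exact_mod_cast hC0
  obtain ⟨t₀, ht₀, hb⟩ := ex_b (500 * C0) (by positivity) (2 * (cE + 1) ^ 6 / c₁) (by positivity) 7 C0
  refine ⟨min (1 / t₀) (1 / 100), lt_min (by positivity) (by norm_num), fun κ hκ hκ0 U a ha => ?_⟩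
  have hκt : κ ≤ 1 / t₀ := hκ0.trans (min_le_left _ _)
  have hκ1 : κ ≤ 1 / 100 := hκ0.trans (min_le_right _ _)
  have ht : t₀ ≤ 1 / κ := by
    rw [le_div_iff₀ hκ]
    rw [le_div_iff₀ (by linarith)] at hκt
    linarith
  obtain ⟨hb1, hb2⟩ := hb (1 / κ) ht
  obtain ⟨b, hbd⟩ : ∃ b, b = ⌊1 / κ / (500 * (C0 : ℝ))⌋₊ := ⟨_, rfl⟩
  rw [← hbd] at hb1 hb2
  have hbκ : 500 * (C0 * b) * κ ≤ 1 := by
    have h1 : (b : ℝ) ≤ 1 / κ / (500 * C0) := by rw [hbd]; exact Nat.floor_le (by positivity)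
    rw [le_div_iff₀ (by positivity), le_div_iff₀ hκ] at h1
    linarith
  obtain ⟨E1, hE1⟩ : ∃ E1 : ℝ, E1 = ((cE + 1) / κ) ^ 3 := ⟨_, rfl⟩
  have hE11 : 1 ≤ E1 := by
    rw [hE1]
    refine one_le_pow₀ ?_
    rw [le_div_iff₀ hκ]
    linarith
  have hh : 2 * E1 ^ 2 * (1 / 2) ^ b ≤ c₁ * κ := by
    have h1 : (1 / 2 : ℝ) ^ b * (2 * (cE + 1) ^ 6 / c₁ * (1 / κ) ^ 7) = (2 * E1 ^ 2 * (1 / 2) ^ b) / (c₁ * κ) := by
      have e6 : E1 ^ 2 = (cE + 1) ^ 6 / κ ^ 6 := by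
        rw [hE1, div_pow, div_pow, ← pow_mul, ← pow_mul]
      rw [e6, div_pow 1 κ, one_pow]
      field_simp
    rw [h1, div_le_one (by positivity)] at hb2
    exact hb2
  have hs := hsum b hb1 κ hκ hbκ hκ1 (U + 2) a ha
  obtain ⟨Cp, N1, hCp, hpnt⟩ := pnt_lam (U + 2)
  obtain ⟨Zc, hZc⟩ : ∃ Zc : ℝ, Zc = Cp + 3 := ⟨_, rfl⟩
  have hκ' : 0 < 1 - κ := by linarith
  filter_upwards [hs, eventually_ge_atTop (max N1 3), ev_logN (eventually_ge_atTop (max 1 (16 * E1 ^ 2 * Zc))),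
    ev_logN (eventually_ge_atTop ((4 + 1 / (c₁ * κ)) * (2 / κ))),
    ev_small U hκ (4 * E1) (by norm_num : (0 : ℝ) < 1 / 2), ev_small (U + 2) (by norm_num : (0 : ℝ) < 1 / 2) 1 one_pos]
    with N hs hN hL1 hL2 hsm hs1
  intro y hy1 hy2 Q hQ
  have hNN1 : N1 ≤ N := (le_max_left _ _).trans hN
  have hN3 : 3 ≤ N := (le_max_right _ _).trans hN
  have hN0 : (0 : ℝ) < N := by positivity
  obtain ⟨L, hLd⟩ : ∃ L, L = Real.log N := ⟨_, rfl⟩
  have hrp : (N : ℝ) ^ κ = Real.exp (κ * Real.log N) := by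
    rw [Real.rpow_def_of_pos hN0, mul_comm]
  have hya : (y : ℝ) ≤ Real.exp (κ * Real.log N) := by rw [← hrp]; exact hy1.le
  have hyb : Real.exp (κ * Real.log N) ≤ y + 1 := by rw [← hrp]; exact hy2
  have hL1' : 1 ≤ L := by rw [hLd]; exact (le_max_left _ _).trans hL1
  have hLZ : 16 * E1 ^ 2 * Zc ≤ L := by rw [hLd]; exact (le_max_right _ _).trans hL1
  have hL0 : 0 < L := by linarith
  have hκL : 4 + 1 / (c₁ * κ) ≤ κ / 2 * Real.log N := by
    have h1 : 4 + 1 / (c₁ * κ) = κ / 2 * ((4 + 1 / (c₁ * κ)) * (2 / κ)) := by field_simp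
    rw [h1]
    exact mul_le_mul_of_nonneg_left hL2 (by positivity)
  have hcκ : 0 < 1 / (c₁ * κ) := by positivity
  obtain ⟨_, _, y3, y4, y5, _⟩ := y_core (M := 2) hκ (by omega : 1 ≤ N) (by push_cast; linarith) hya hyb
  have hyc : 1 / (c₁ * κ) ≤ y := by
    have h1 : Real.log y ≤ y := (Real.log_le_sub_one_of_pos (by positivity)).trans (by linarith)
    linarith
  have hy0 : (0 : ℝ) < y := by positivity
  have hs' := hs y hya hyb Q hQ (FK N κ) (FK_exp (by omega) hy1)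
  obtain ⟨D, hD⟩ : ∃ D : ℕ, D = ⌊(N : ℝ) ^ (49 / 100 : ℝ)⌋₊ := ⟨_, rfl⟩
  have hDN : D ≤ N := by
    have : (D : ℝ) ≤ N := by
      rw [hD]
      refine (Nat.floor_le (by positivity)).trans ?_
      calc (N : ℝ) ^ (49 / 100 : ℝ) ≤ (N : ℝ) ^ (1 : ℝ) :=
            Real.rpow_le_rpow_of_exponent_le (by exact_mod_cast (by omega : 1 ≤ N)) (by norm_num)
        _ = N := Real.rpow_one _
    exact_mod_cast this
  have hFS : FK N κ ⊆ SD y D := by
    intro d hd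
    have h1 := FK_exp (by omega) hy1 d hd
    rw [mem_FK] at hd
    rw [mem_SD, hD]
    refine ⟨hd.1, hd.2.1, fun p hp hpy hpd => ?_⟩
    have := h1.2.2.2 p (Nat.mem_primeFactors.2 ⟨hp, hpd, by omega⟩)
    omega
  obtain ⟨s1, s2, s3⟩ := sum_phi (by omega : 1 ≤ y) (FK N κ) hFS
  have hEED : EE y D ≤ E1 := by
    refine (hEE κ hκ (by linarith) N hN3 (by linarith) y hya hyb D hDN).trans ?_
    rw [hE1]
    gcongr
    linarith
  have hψ0 : 0 ≤ lam1 N := sum_nonneg fun _ _ => ArithmeticFunction.vonMangoldt_nonneg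
  obtain ⟨hP0, hP1⟩ := Pq_bd Q y
  have h1F : 1 ∈ FK N κ := by
    rw [mem_FK]
    refine ⟨⟨le_rfl, Nat.le_floor ?_⟩, squarefree_one, fun p hp => by simp at hp⟩
    rw [Nat.cast_one]
    exact Real.one_le_rpow (by exact_mod_cast (by omega : 1 ≤ N)) (by norm_num)
  obtain ⟨T1, hT1⟩ : ∃ T1, T1 = ∑ d ∈ FK N κ, |SX Q N y a d - lam1 N * Pq Q y / (Nat.totient d : ℝ)| := ⟨_, rfl⟩
  rw [← hT1, ← hLd] at hs'
  have hS1 : |SX Q N y a 1 - lam1 N * Pq Q y| ≤ T1 := by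
    have h := single_le_sum (f := fun d => |SX Q N y a d - lam1 N * Pq Q y / (Nat.totient d : ℝ)|)
      (fun d _ => abs_nonneg _) h1F
    simp only [Nat.totient_one, Nat.cast_one, div_one] at h
    rw [hT1]
    exact h
  obtain ⟨Z, hZ⟩ : ∃ Z : ℝ, Z = Zc * (N / L ^ (U + 2)) := ⟨_, rfl⟩
  have hZc0 : 0 < Zc := by rw [hZc]; positivity
  have hZ0 : 0 ≤ Z := by rw [hZ]; positivity
  have hN1L : 1 ≤ (N : ℝ) / L ^ (U + 2) := by
    rw [hLd]
    refine le_trans ?_ ((hs1).trans (le_of_eq (one_mul _)))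
    rw [one_mul]
    exact Real.one_le_exp (by rw [← hLd]; nlinarith)
  have hψN : |lam1 N - N| ≤ Z := by
    refine (hpnt N hNN1).trans ?_
    rw [hZ, hZc, ← hLd]
    have : (Cp + 3) * ((N : ℝ) / L ^ (U + 2)) = Cp * (N / L ^ (U + 2)) + 3 * (N / L ^ (U + 2)) := by ring
    linarith
  have hT : T1 ≤ (1 / 2) ^ b * (lam1 N * Pq Q y) * E1 + Z := by
    refine hs'.trans (add_le_add ?_ ?_)
    · apply mul_le_mul_of_nonneg_left (s1.trans hEED)
      positivity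
    · rw [hZ, hZc]
      have h1 : 0 ≤ (N : ℝ) / L ^ (U + 2) := by positivity
      nlinarith
  have hR : ∑ d ∈ FK N κ, |SX Q N y a d - SX Q N y a 1 * (1 / (d : ℝ))| ≤
      T1 + lam1 N * Pq Q y * (E1 / y) + T1 * E1 := by
    have h1 : ∀ d ∈ FK N κ, |SX Q N y a d - SX Q N y a 1 * (1 / (d : ℝ))| ≤
        |SX Q N y a d - lam1 N * Pq Q y / (Nat.totient d : ℝ)| +
        lam1 N * Pq Q y * |1 / (Nat.totient d : ℝ) - 1 / (d : ℝ)| + T1 * (1 / (d : ℝ)) := by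
      intro d _
      have e : SX Q N y a d - SX Q N y a 1 * (1 / (d : ℝ)) =
          (SX Q N y a d - lam1 N * Pq Q y / (Nat.totient d : ℝ)) +
          lam1 N * Pq Q y * (1 / (Nat.totient d : ℝ) - 1 / (d : ℝ)) -
          (SX Q N y a 1 - lam1 N * Pq Q y) * (1 / (d : ℝ)) := by ring
      rw [e]
      refine (abs_sub _ _).trans (add_le_add ((abs_add_le _ _).trans (add_le_add le_rfl ?_)) ?_)
      · rw [abs_mul, abs_of_nonneg (mul_nonneg hψ0 hP0)]
      · rw [abs_mul, abs_of_nonneg (by positivity : (0 : ℝ) ≤ 1 / (d : ℝ))]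
        exact mul_le_mul_of_nonneg_right hS1 (by positivity)
    refine (sum_le_sum h1).trans ?_
    rw [sum_add_distrib, sum_add_distrib, ← mul_sum, ← mul_sum, ← hT1]
    refine add_le_add (add_le_add le_rfl ?_) ?_
    · refine mul_le_mul_of_nonneg_left (s3.trans ?_) (mul_nonneg hψ0 hP0)
      exact div_le_div_of_nonneg_right hEED hy0.le
    · exact mul_le_mul_of_nonneg_left (s2.trans hEED) ((abs_nonneg _).trans hS1)
  have hYu : 1 / (y : ℝ) ≤ c₁ * κ := by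
    rw [div_le_iff₀ hy0]
    rw [div_le_iff₀ (by positivity)] at hyc
    linarith
  have hfin : (8 * E1 ^ 2) * Z + 2 * E1 * N * (1 / (y : ℝ)) ≤ N / L ^ U := by
    have h1 : (8 * E1 ^ 2) * Z ≤ 1 / 2 * (N / L ^ U) := by
      have e : (8 * E1 ^ 2) * Z = (16 * E1 ^ 2 * Zc) / L ^ 2 * (1 / 2 * (N / L ^ U)) := by
        rw [hZ, pow_add]
        field_simp
        norm_num
      rw [e]
      refine mul_le_of_le_one_left (by positivity) ?_
      rw [div_le_one (by positivity)]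
      nlinarith
    have h2 : 2 * E1 * N * (1 / (y : ℝ)) ≤ 1 / 2 * (N / L ^ U) := by
      rw [← hLd] at hsm
      refine le_trans ?_ hsm
      have h3 : (N : ℝ) * (1 / y) ≤ 2 * Real.exp ((1 - κ) * L) := by
        rw [mul_one_div, div_le_iff₀ hy0]
        have h3 : Real.exp ((1 - κ) * L) * Real.exp (κ * L) = N := by
          rw [← Real.exp_add, hLd]
          ring_nf
          exact Real.exp_log hN0
        have h4 : 0 < Real.exp ((1 - κ) * L) := Real.exp_pos _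
        rw [← hLd] at y5
        have h6 := mul_le_mul_of_nonneg_left y5 h4.le
        rw [← h3]
        linarith
      have h4 := mul_le_mul_of_nonneg_left h3 (by positivity : 0 ≤ 2 * E1)
      linarith
    linarith
  have hcκ1 : c₁ * κ ≤ 1 := by nlinarith
  have hfinal := lev_calc (E := E1) (h := (1 / 2) ^ b) (N := N) (L := N / L ^ U) (ψ := lam1 N) (P := Pq Q y)
    (Z := Z) (T1 := T1) (S1 := SX Q N y a 1) (R := ∑ d ∈ FK N κ, |SX Q N y a d - SX Q N y a 1 * (1 / (d : ℝ))|)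
    (Y := y) (u := c₁ * κ) hE11 (by positivity) (pow_le_one₀ (by norm_num) (by norm_num)) hψ0 hP0 hP1 hZ0 hψN
    hN0.le (by positivity) hT hS1 hR hy0 hYu hh hfin hcκ1
  rw [← hLd]
  exact hfinal

end Pool.Agent.J4.H38.SR2
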