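import Mathlib
import Pool.Agent.J4.H38.SR2.Fix3
import Pool.Agent.J4.H38.SR.Kuhn4

/-! The primes `p` for which `p + a` is an almost prime, `a` fixed, with rough positions. -/

set_option autoImplicit false

namespace Pool.Agent.J4.H38.SR2

open Finset Filter
open Pool.Agent.Y822
open Pool.Agent.J4.H38.SR
open Pool.Agent.W23.DC (ind)
open Pool.Agent.H387R2.Uni (nuT Adm locT CT CT_nonneg)
open Pool.Agent.H373R2.T7

lemma base_calc {c κ NP X R G L n e sq bb C : ℝ} (hc : 0 < c) (hc1 : c ≤ 1) (hκ : 0 < κ) (hκ1 : κ ≤ 1) (hL : 0 < L)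
    (he : 0 ≤ e) (hNP : 0 ≤ NP) (hX : |X - NP| ≤ c / 16 * κ * NP + e) (hR : R ≤ c / 16 * κ * NP + e)
    (hlow : c * κ * X - 2 * R ≤ G + bb) (hG : G - sq ≤ L * C) (hfin : 3 * e + bb + sq ≤ L * n) :
    c * κ / 2 * (NP / L) - n ≤ C := by
  have h1 := (abs_le.1 hX).1
  have hck : c * κ ≤ 1 := by nlinarith
  have hck0 : 0 < c * κ := by positivity
  have h2 : c * κ * X ≥ c * κ * (NP - c / 16 * κ * NP - e) := by
    apply mul_le_mul_of_nonneg_left _ hck0.le
    linarith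
  have h3 : c * κ * (c / 16 * κ * NP) ≤ c * κ / 16 * NP := by
    have : c / 16 * κ * NP ≤ 1 / 16 * NP := by
      apply mul_le_mul_of_nonneg_right _ hNP
      nlinarith
    calc c * κ * (c / 16 * κ * NP) ≤ c * κ * (1 / 16 * NP) := mul_le_mul_of_nonneg_left this hck0.le
      _ = _ := by ring
  have h4 : c * κ * e ≤ e := mul_le_of_le_one_left he hck
  have h5 : 0 ≤ c * κ * NP := by positivity
  have h6 : c * κ / 2 * NP - L * n ≤ L * C := by
    have e1 : c / 16 * κ * NP = c * κ * NP / 16 := by ring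
    have e2 : c * κ / 16 * NP = c * κ * NP / 16 := by ring
    have e3 : c * κ / 2 * NP = c * κ * NP / 2 := by ring
    rw [e1] at hR h2 h3
    rw [e2] at h3
    rw [e3]
    have e4 : c * κ * (NP - c * κ * NP / 16 - e) = c * κ * NP - c * κ * (c * κ * NP / 16) - c * κ * e := by ring
    rw [e4] at h2
    linarith
  have h7 : L * (c * κ / 2 * (NP / L) - n) ≤ L * C := by
    have : L * (c * κ / 2 * (NP / L) - n) = c * κ / 2 * NP - L * n := by field_simp
    rw [this]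
    exact h6
  exact le_of_mul_le_mul_left h7 hL

/-- the primes `n ≤ N` with rough `n + t`, `t ∈ T`, and an almost prime `n + a` -/
noncomputable def CA (T : Finset ℕ) (a y N : ℕ) : ℝ := by
  classical
  exact (((Icc 1 N).filter (fun n => n.Prime ∧ (BT T y n ∧ g3 N (n + a) = 1))).card : ℝ)

theorem baseF : ∃ c₀ : ℝ, 0 < c₀ ∧ c₀ ≤ 1 ∧ ∀ k : ℕ, ∃ κ₀ : ℝ, 0 < κ₀ ∧ ∀ κ : ℝ, 0 < κ → κ ≤ κ₀ → ∀ U a : ℕ, 1 ≤ a →
    ∀ᶠ N : ℕ in atTop, ∀ y : ℕ, (y : ℝ) < (N : ℝ) ^ κ → (N : ℝ) ^ κ ≤ y + 1 → ∀ T : Finset ℕ, 0 ∉ T → T.card = k →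
    a ∈ T → c₀ * κ / 2 * (N / Real.log N * (PT (pat T) y * Vz y ^ k)) - N / Real.log N ^ U ≤ CA T a y N := by
  classical
  obtain ⟨c₀', hc₀', hlow⟩ := lowK
  obtain ⟨c₀, hc₀d⟩ : ∃ c₀ : ℝ, c₀ = min c₀' 1 := ⟨_, rfl⟩
  have hc₀ : 0 < c₀ := by rw [hc₀d]; exact lt_min hc₀' one_pos
  have hc₀1 : c₀ ≤ 1 := by rw [hc₀d]; exact min_le_right _ _
  have hc₀2 : c₀ ≤ c₀' := by rw [hc₀d]; exact min_le_left _ _
  refine ⟨c₀, hc₀, hc₀1, fun k => ?_⟩
  obtain ⟨κ₀, hκ₀, hlev⟩ := fix_level (k + 1) (by omega) (c₀ / 16) (by positivity) (by linarith)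
  refine ⟨min κ₀ (1 / 25), lt_min hκ₀ (by norm_num), fun κ hκ hκκ U a ha => ?_⟩
  have hκ25 : κ ≤ 1 / 25 := hκκ.trans (min_le_right _ _)
  obtain ⟨N₀, hlow⟩ := hlow κ hκ hκ25
  have hlev := hlev κ hκ (hκκ.trans (min_le_left _ _)) (U + 1) a ha
  filter_upwards [hlev, eventually_ge_atTop (max (max N₀ 257) a), ev_small (U + 1) (by norm_num : (0 : ℝ) < 1 / 10) 24 one_pos,
    ev_small U (by norm_num : (0 : ℝ) < 1 / 2) 8 one_pos, ev_logN (eventually_ge_atTop (12 : ℝ)),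
    ev_small U (by norm_num : (0 : ℝ) < 1 / 8) 48 one_pos] with N hlev hN hs1 hs2 hL12 hs3
  intro y hy1 hy2 T h0 hT haT
  have hNN₀ : N₀ ≤ N := ((le_max_left _ _).trans (le_max_left _ _)).trans hN
  have hN257 : 257 ≤ N := ((le_max_right _ _).trans (le_max_left _ _)).trans hN
  have haN : a ≤ N := (le_max_right _ _).trans hN
  have hN0 : (0 : ℝ) < N := by positivity
  obtain ⟨L, hLd⟩ : ∃ L, L = Real.log N := ⟨_, rfl⟩
  have hrp : ∀ s : ℝ, (N : ℝ) ^ s = Real.exp (s * L) := by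
    intro s
    rw [Real.rpow_def_of_pos hN0, ← hLd, mul_comm]
  rw [← hLd] at hlev hs1 hs2 hL12 hs3 ⊢
  have hL0 : 0 < L := by linarith
  obtain ⟨l1, l2⟩ := hlev y hy1 hy2 (QT T) (perA_QT h0 k hT)
  have hPq : Pq (QT T) y = PT (pat T) y * Vz y ^ k := by
    unfold Pq
    exact prod_rho h0 k hT y
  have hP0 := (Pq_bd (QT T) y).1
  -- the weighted sieve
  have hw0 : ∀ n, 0 ≤ (if BT T y n then ArithmeticFunction.vonMangoldt n else (0 : ℝ)) := by
    intro n
    split_ifs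
    · exact ArithmeticFunction.vonMangoldt_nonneg
    · exact le_rfl
  have hSX : ∀ d, ∑ n ∈ Icc 1 N, (if BT T y n then ArithmeticFunction.vonMangoldt n else (0 : ℝ)) * ind (n + a) d =
      SX (QT T) N y a d := by
    intro d
    unfold SX
    rw [sum_filter]
    refine sum_congr rfl fun n _ => ?_
    unfold ind
    by_cases h1 : BT T y n
    · by_cases h2 : d ∣ n + a
      · rw [if_pos h1, if_pos h2, mul_one, if_pos ⟨h1, h2⟩]
      · rw [if_neg h2, mul_zero, if_neg (fun h => h2 h.2)]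
    · rw [if_neg h1, zero_mul, if_neg (fun h => h1 h.1)]
  have hX0 : 0 ≤ SX (QT T) N y a 1 := by
    unfold SX
    exact sum_nonneg fun _ _ => ArithmeticFunction.vonMangoldt_nonneg
  have h1 := hlow N hNN₀ (Icc 1 N) (fun n => if BT T y n then ArithmeticFunction.vonMangoldt n else (0 : ℝ))
    (fun n => n + a) (SX (QT T) N y a 1) (fun n _ => hw0 n) hX0
  simp only [hSX] at h1
  have hpt : ∀ n ∈ Icc 1 N, (if BT T y n then ArithmeticFunction.vonMangoldt n else (0 : ℝ)) * Wk N κ (n + a) ≤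
      (if BT T y n ∧ g3 N (n + a) = 1 then ArithmeticFunction.vonMangoldt n else (0 : ℝ)) + L * bq8 N (n + a) := by
    intro n hn
    rw [mem_Icc] at hn
    have hb0 := bq8_nonneg N (n + a)
    by_cases h1 : BT T y n
    swap
    · rw [if_neg h1, zero_mul, if_neg (fun h => h1 h.1)]
      positivity
    have hΛ0 : (0 : ℝ) ≤ ArithmeticFunction.vonMangoldt n := ArithmeticFunction.vonMangoldt_nonneg
    have hΛL : ArithmeticFunction.vonMangoldt n ≤ L := by
      refine ArithmeticFunction.vonMangoldt_le_log.trans ?_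
      rw [hLd]
      exact Real.log_le_log (by exact_mod_cast hn.1) (by exact_mod_cast hn.2)
    have hro : ro y (n + a) = 1 := by
      unfold ro
      rw [if_pos]
      exact (ro_iff T y n).2 h1 a haT
    have h2 := ptwK hN257 hy2 (m := n + a) (by omega) (by omega)
    rw [hro, one_mul] at h2
    rw [if_pos h1]
    have h3 : ArithmeticFunction.vonMangoldt n * g3 N (n + a) =
        (if BT T y n ∧ g3 N (n + a) = 1 then ArithmeticFunction.vonMangoldt n else (0 : ℝ)) := by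
      by_cases h4 : g3 N (n + a) = 1
      · rw [if_pos ⟨h1, h4⟩, h4, mul_one]
      · have h5 : g3 N (n + a) = 0 := by
          unfold g3 at h4 ⊢
          split_ifs with h6
          · rw [if_pos h6] at h4
            exact absurd rfl h4
          · rfl
        rw [if_neg (fun h => h4 h.2), h5, mul_zero]
    calc _ ≤ ArithmeticFunction.vonMangoldt n * (g3 N (n + a) + bq8 N (n + a)) := mul_le_mul_of_nonneg_left h2 hΛ0
      _ = ArithmeticFunction.vonMangoldt n * g3 N (n + a) + ArithmeticFunction.vonMangoldt n * bq8 N (n + a) := by ring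
      _ ≤ _ := by
          rw [h3]
          have := mul_le_mul_of_nonneg_right hΛL hb0
          linarith
  have h2 := (sum_le_sum hpt)
  rw [sum_add_distrib, ← mul_sum, ← sum_filter] at h2
  have h3 := squares8 (by omega : 2 ≤ N) a haN
  have h3' := mul_le_mul_of_nonneg_left h3 hL0.le
  have h4 := count_low (fun n => BT T y n ∧ g3 N (n + a) = 1) N (by omega)
  rw [← hLd] at h4
  have h4' : ∑ n ∈ (Icc 1 N).filter (fun n => BT T y n ∧ g3 N (n + a) = 1), ArithmeticFunction.vonMangoldt n -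
      2 * Real.sqrt N * L ≤ L * CA T a y N := by
    unfold CA
    convert h4
  have hcX : c₀ * κ * SX (QT T) N y a 1 ≤ c₀' * κ * SX (QT T) N y a 1 :=
    mul_le_mul_of_nonneg_right (mul_le_mul_of_nonneg_right hc₀2 hκ.le) hX0
  have hsq : 2 * Real.sqrt N * L ≤ L * (1 / 4 * (N / L ^ U)) := by
    have h5 : Real.sqrt N = Real.exp ((1 - 1 / 2) * L) := by
      rw [Real.sqrt_eq_rpow, hrp]
      congr 1
      ring
    rw [h5]
    nlinarith
  have h78 : L * (12 * (N : ℝ) ^ (7 / 8 : ℝ)) ≤ L * (1 / 4 * (N / L ^ U)) := by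
    rw [hrp]
    have e : (7 / 8 : ℝ) * L = (1 - 1 / 8) * L := by ring
    rw [e]
    apply mul_le_mul_of_nonneg_left _ hL0.le
    linarith
  have he : 3 * ((N : ℝ) / L ^ (U + 1)) ≤ L * (1 / 4 * (N / L ^ U)) := by
    have e : 3 * ((N : ℝ) / L ^ (U + 1)) = 3 / L * (N / L ^ U) := by
      rw [pow_succ]
      field_simp
    rw [e]
    have h5 : 3 / L ≤ L * (1 / 4) := by
      rw [div_le_iff₀ hL0]
      nlinarith
    have h6 : 0 ≤ (N : ℝ) / L ^ U := by positivity
    calc 3 / L * ((N : ℝ) / L ^ U) ≤ L * (1 / 4) * (N / L ^ U) := mul_le_mul_of_nonneg_right h5 h6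
      _ = _ := by ring
  have hn0 : 0 ≤ L * (1 / 4 * ((N : ℝ) / L ^ U)) := by positivity
  rw [← hPq]
  have e9 : (N : ℝ) / L * Pq (QT T) y = N * Pq (QT T) y / L := by ring
  rw [e9]
  refine base_calc (c := c₀) (κ := κ) (NP := N * Pq (QT T) y) (X := SX (QT T) N y a 1)
    (R := ∑ d ∈ FK N κ, |SX (QT T) N y a d - SX (QT T) N y a 1 * (1 / (d : ℝ))|)
    (G := ∑ n ∈ (Icc 1 N).filter (fun n => BT T y n ∧ g3 N (n + a) = 1), ArithmeticFunction.vonMangoldt n)
    (e := N / L ^ (U + 1)) (sq := 2 * Real.sqrt N * L) (bb := L * (12 * (N : ℝ) ^ (7 / 8 : ℝ)))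
    (n := N / L ^ U) (C := CA T a y N) hc₀ hc₀1 hκ (by linarith) hL0 (by positivity) (by positivity) l2 l1 ?_ ?_ ?_
  · linarith
  · exact h4'
  · linarith

end Pool.Agent.J4.H38.SR2
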