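import Mathlib
import Pool.Agent.J4.H38.SR2.Few
import Pool.Agent.TH891.SG.Gal2

/-! The local densities of tuples whose elements are in an arbitrary set of shifts. -/

set_option autoImplicit false

namespace Pool.Agent.J4.H38.SR2

open Finset Filter
open Pool.Agent.Y822
open Pool.Agent.J4.H38.SR
open Pool.Agent.H387R2.Uni (nuT Adm locT CT CT_nonneg)
open Pool.Agent.H373R2.T7 (pz Vz mem_pz)

/-- the product of the `1 + C / p` over the primes `p ≤ y` dividing `n` -/
noncomputable def gy (y : ℕ) (C : ℝ) (n : ℕ) : ℝ :=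
  ∏ p ∈ (pz y).filter (fun p => p ∣ n), (1 + C / (p : ℝ))

/-- the distance -/
def dd (q : ℕ × ℕ) : ℕ := max q.1 q.2 - min q.1 q.2

lemma gy_nonneg {y : ℕ} {C : ℝ} (hC : 0 ≤ C) (n : ℕ) : 0 ≤ gy y C n :=
  prod_nonneg fun _ _ => by positivity

lemma gy_one_le {y : ℕ} {C : ℝ} (hC : 0 ≤ C) (n : ℕ) : 1 ≤ gy y C n := by
  unfold gy
  calc (1 : ℝ) = ∏ _p ∈ (pz y).filter (fun p => p ∣ n), (1 : ℝ) := by rw [prod_const_one]
    _ ≤ _ := prod_le_prod (fun _ _ => zero_le_one) fun p _ => by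
        have : 0 ≤ C / (p : ℝ) := by positivity
        linarith

lemma gy_mono {y : ℕ} {C C' : ℝ} (hC : 0 ≤ C) (h : C ≤ C') (n : ℕ) : gy y C n ≤ gy y C' n := by
  unfold gy
  refine prod_le_prod (fun _ _ => by positivity) fun p _ => ?_
  have : C / (p : ℝ) ≤ C' / p := div_le_div_of_nonneg_right h (Nat.cast_nonneg _)
  linarith

lemma gy_pow {y : ℕ} {C : ℝ} (hC : 0 ≤ C) (r n : ℕ) : gy y C n ^ r ≤ gy y ((1 + C) ^ r) n := by
  unfold gy
  rw [← prod_pow]
  refine prod_le_prod (fun _ _ => by positivity) fun p hp => ?_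
  have hp1 : (1 : ℝ) ≤ p := by exact_mod_cast (mem_pz.1 (mem_filter.1 hp).1).2.one_lt.le
  have h := Pool.Agent.TH891.SG.pow_convex r hC (u := 1 / (p : ℝ)) (by positivity)
    (by rw [div_le_one (by linarith)]; exact hp1)
  rw [mul_one_div, mul_one_div] at h
  exact h

lemma dd_ne {q : ℕ × ℕ} (h : q.1 ≠ q.2) : dd q ≠ 0 := by
  unfold dd
  rcases lt_or_gt_of_ne h with h | h
  · rw [max_eq_right h.le, min_eq_left h.le]; omega
  · rw [max_eq_left h.le, min_eq_right h.le]; omega

lemma dvd_dd {a b p : ℕ} (h : a % p = b % p) : p ∣ dd (a, b) := by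
  unfold dd
  rcases le_total a b with h1 | h1
  · simp only [max_eq_right h1, min_eq_left h1]
    exact (Nat.modEq_iff_dvd' h1).1 h
  · simp only [max_eq_left h1, min_eq_right h1]
    exact (Nat.modEq_iff_dvd' h1).1 h.symm

/-- the density of a tuple and the common divisors of its elements -/
lemma VT_pairs (y m : ℕ) (T : Finset ℕ) (hT : T.card ≤ m) :
    VT y T ≤ Vz y ^ T.card * ∏ q ∈ T.offDiag, gy y (2 ^ (m + 1)) (dd q) := by
  classical
  have e1 : ∏ q ∈ T.offDiag, gy y (2 ^ (m + 1)) (dd q) =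
      ∏ p ∈ pz y, ∏ q ∈ T.offDiag, (if p ∣ dd q then 1 + (2 : ℝ) ^ (m + 1) / (p : ℝ) else 1) := by
    rw [Finset.prod_comm]
    refine prod_congr rfl fun q _ => ?_
    unfold gy
    rw [prod_filter]
  rw [e1]
  unfold VT Vz
  rw [pz_eq, ← prod_pow, ← prod_mul_distrib]
  have hνp : ∀ (T : Finset ℕ) (p : ℕ), 0 < p → (nuT T p : ℝ) ≤ p := by
    intro T p hp
    rw [← fT_eq T hp]
    exact_mod_cast fT_le_p T p
  refine prod_le_prod (fun p hp => ?_) fun p hp => ?_
  · have hpp := (mem_pz.1 hp).2.pos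
    rw [fT_eq _ hpp, sub_nonneg]
    exact div_le_one_of_le₀ (hνp _ p hpp) (Nat.cast_nonneg _)
  · have hpp := (mem_pz.1 hp).2.pos
    have hp2 : (2 : ℝ) ≤ p := by exact_mod_cast (mem_pz.1 hp).2.two_le
    have hp0 : (0 : ℝ) < p := by linarith
    rw [fT_eq _ hpp]
    have ht : 0 < 1 / (p : ℝ) := by positivity
    have ht2 : 1 / (p : ℝ) ≤ 1 / 2 := one_div_le_one_div_of_le (by norm_num) hp2
    by_cases hbad : ∀ q ∈ T.offDiag, ¬ p ∣ dd q
    · have e2 : ∏ q ∈ T.offDiag, (if p ∣ dd q then 1 + (2 : ℝ) ^ (m + 1) / (p : ℝ) else 1) = 1 :=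
        prod_eq_one fun q hq => by rw [if_neg (hbad q hq)]
      rw [e2, mul_one]
      have h1 : nuT T p = T.card := by
        unfold nuT
        refine card_image_of_injOn fun a ha b hb h => ?_
        by_contra hne
        exact hbad (a, b) (mem_offDiag.2 ⟨ha, hb, hne⟩) (dvd_dd h)
      rw [h1]
      have h2 := one_add_mul_le_pow (a := -(1 / (p : ℝ))) (by linarith) T.card
      calc 1 - (T.card : ℝ) / p = 1 + T.card * (-(1 / (p : ℝ))) := by ring
        _ ≤ (1 + -(1 / (p : ℝ))) ^ T.card := h2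
        _ = _ := by ring
    · push Not at hbad
      obtain ⟨q, hq, hpq⟩ := hbad
      have e2 : 1 + (2 : ℝ) ^ (m + 1) / (p : ℝ) ≤
          ∏ q ∈ T.offDiag, (if p ∣ dd q then 1 + (2 : ℝ) ^ (m + 1) / (p : ℝ) else 1) := by
        have h5 : (if p ∣ dd q then 1 + (2 : ℝ) ^ (m + 1) / (p : ℝ) else 1) =
            1 + (2 : ℝ) ^ (m + 1) / (p : ℝ) := if_pos hpq
        rw [← mul_prod_erase T.offDiag _ hq, h5]
        refine le_mul_of_one_le_right (by positivity) ?_
        have h6 : ∀ x ∈ T.offDiag.erase q,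
            (1 : ℝ) ≤ (if p ∣ dd x then 1 + (2 : ℝ) ^ (m + 1) / (p : ℝ) else 1) := by
          intro x _
          split_ifs
          · have : 0 ≤ (2 : ℝ) ^ (m + 1) / (p : ℝ) := by positivity
            linarith
          · exact le_rfl
        calc (1 : ℝ) = ∏ _x ∈ T.offDiag.erase q, (1 : ℝ) := by rw [prod_const_one]
          _ ≤ _ := prod_le_prod (fun _ _ => zero_le_one) h6
      have e3 : 1 ≤ (1 - 1 / (p : ℝ)) ^ T.card * (1 + (2 : ℝ) ^ (m + 1) / (p : ℝ)) := by
        have h1 : 1 ≤ ((1 - 1 / (p : ℝ)) * (1 + 2 / (p : ℝ))) ^ T.card := by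
          refine one_le_pow₀ ?_
          have : 2 / (p : ℝ) = 2 * (1 / p) := by ring
          rw [this]
          nlinarith
        have h2 : (1 + 2 / (p : ℝ)) ^ T.card ≤ 1 + (2 : ℝ) ^ (m + 1) / (p : ℝ) := by
          have h3 := Pool.Agent.TH891.SG.pow_convex T.card (C := 1) (by norm_num) (u := 2 / (p : ℝ))
            (by positivity) (by rw [div_le_one hp0]; exact hp2)
          rw [one_mul] at h3
          refine h3.trans ?_
          have h4 : ((1 : ℝ) + 1) ^ T.card ≤ 2 ^ m := by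
            rw [one_add_one_eq_two]
            exact pow_le_pow_right₀ (by norm_num) hT
          have h5 : (2 : ℝ) ^ (m + 1) / (p : ℝ) = 2 ^ m * (2 / p) := by rw [pow_succ]; ring
          rw [h5]
          have := mul_le_mul_of_nonneg_right h4 (by positivity : 0 ≤ 2 / (p : ℝ))
          linarith
        rw [mul_pow] at h1
        exact h1.trans (mul_le_mul_of_nonneg_left h2 (pow_nonneg (by linarith) _))
      have e4 : 1 - (nuT T p : ℝ) / p ≤ 1 := by
        have : 0 ≤ (nuT T p : ℝ) / p := by positivity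
        linarith
      exact e4.trans (e3.trans (mul_le_mul_of_nonneg_left e2 (pow_nonneg (by linarith) _)))

/-- the number of the sets containing two elements -/
lemma card_through (A : Finset ℕ) (j : ℕ) {a b : ℕ} (hab : a ≠ b) :
    ((A.powersetCard (j + 2)).filter (fun S => a ∈ S ∧ b ∈ S)).card ≤ A.card ^ j := by
  classical
  have h1 : ((A.powersetCard (j + 2)).filter (fun S => a ∈ S ∧ b ∈ S)).card ≤ (A.powersetCard j).card := by
    refine card_le_card_of_injOn (fun S => (S.erase a).erase b) ?_ ?_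
    · intro S hS
      rw [mem_coe, mem_filter, mem_powersetCard] at hS
      rw [mem_coe, mem_powersetCard]
      refine ⟨(erase_subset _ _).trans ((erase_subset _ _).trans hS.1.1), ?_⟩
      rw [card_erase_of_mem (mem_erase.2 ⟨hab.symm, hS.2.2⟩), card_erase_of_mem hS.2.1, hS.1.2]
      omega
    · intro S hS S' hS' h
      rw [mem_coe, mem_filter] at hS hS'
      simp only at h
      have h2 : ∀ X : Finset ℕ, a ∈ X → b ∈ X → insert a (insert b ((X.erase a).erase b)) = X := by
        intro X ha hb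
        rw [insert_erase (mem_erase.2 ⟨hab.symm, hb⟩), insert_erase ha]
      rw [← h2 S hS.2.1 hS.2.2, ← h2 S' hS'.2.1 hS'.2.2, h]
  rw [card_powersetCard] at h1
  exact h1.trans (Nat.choose_le_pow _ _)

lemma card_through1 (A : Finset ℕ) (j : ℕ) (a : ℕ) :
    ((A.powersetCard (j + 1)).filter (fun S => a ∈ S)).card ≤ A.card ^ j := by
  classical
  have h1 : ((A.powersetCard (j + 1)).filter (fun S => a ∈ S)).card ≤ (A.powersetCard j).card := by
    refine card_le_card_of_injOn (fun S => S.erase a) ?_ ?_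
    · intro S hS
      rw [mem_coe, mem_filter, mem_powersetCard] at hS
      rw [mem_coe, mem_powersetCard]
      refine ⟨(erase_subset _ _).trans hS.1.1, ?_⟩
      rw [card_erase_of_mem hS.2, hS.1.2]
      omega
    · intro S hS S' hS' h
      rw [mem_coe, mem_filter] at hS hS'
      simp only at h
      rw [← insert_erase hS.2, ← insert_erase hS'.2, h]
  rw [card_powersetCard] at h1
  exact h1.trans (Nat.choose_le_pow _ _)

lemma sum_through (A : Finset ℕ) (j : ℕ) (g : ℕ × ℕ → ℝ) (hg : ∀ q, 0 ≤ g q) :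
    ∑ S ∈ A.powersetCard (j + 1), ∑ q ∈ S.offDiag, g q ≤ (A.card : ℝ) ^ (j - 1) * ∑ q ∈ A.offDiag, g q := by
  classical
  rcases j with _ | j
  · have : ∀ S ∈ A.powersetCard (0 + 1), ∑ q ∈ S.offDiag, g q = 0 := by
      intro S hS
      rw [mem_powersetCard, zero_add, card_eq_one] at hS
      obtain ⟨_, a, rfl⟩ := hS
      refine sum_eq_zero fun q hq => ?_
      rw [mem_offDiag, mem_singleton, mem_singleton] at hq
      exact absurd (hq.1.trans hq.2.1.symm) hq.2.2
    rw [sum_congr rfl this, sum_const_zero]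
    exact mul_nonneg (by positivity) (sum_nonneg fun q _ => hg q)
  · rw [Nat.add_sub_cancel]
    have h1 : ∀ S ∈ A.powersetCard (j + 1 + 1), ∑ q ∈ S.offDiag, g q =
        ∑ q ∈ A.offDiag, (if q.1 ∈ S ∧ q.2 ∈ S then g q else 0) := by
      intro S hS
      rw [← sum_filter]
      refine sum_congr ?_ fun _ _ => rfl
      ext q
      rw [mem_filter, mem_offDiag, mem_offDiag]
      have := (mem_powersetCard.1 hS).1
      constructor
      · rintro ⟨h1, h2, h3⟩
        exact ⟨⟨this h1, this h2, h3⟩, h1, h2⟩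
      · rintro ⟨⟨_, _, h3⟩, h1, h2⟩
        exact ⟨h1, h2, h3⟩
    rw [sum_congr rfl h1, sum_comm, mul_sum]
    refine sum_le_sum fun q hq => ?_
    rw [← sum_filter, sum_const, nsmul_eq_mul]
    refine mul_le_mul_of_nonneg_right ?_ (hg q)
    exact_mod_cast card_through A j (mem_offDiag.1 hq).2.2

lemma sum_through1 (A : Finset ℕ) (j : ℕ) (g : ℕ → ℝ) (hg : ∀ q, 0 ≤ g q) :
    ∑ S ∈ A.powersetCard (j + 1), ∑ a ∈ S, g a ≤ (A.card : ℝ) ^ j * ∑ a ∈ A, g a := by
  classical
  have h1 : ∀ S ∈ A.powersetCard (j + 1), ∑ a ∈ S, g a = ∑ a ∈ A, (if a ∈ S then g a else 0) := by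
    intro S hS
    rw [← sum_filter]
    refine sum_congr ?_ fun _ _ => rfl
    ext q
    rw [mem_filter]
    exact ⟨fun h => ⟨(mem_powersetCard.1 hS).1 h, h⟩, fun h => h.2⟩
  rw [sum_congr rfl h1, sum_comm, mul_sum]
  refine sum_le_sum fun q _ => ?_
  rw [← sum_filter, sum_const, nsmul_eq_mul]
  refine mul_le_mul_of_nonneg_right ?_ (hg q)
  exact_mod_cast card_through1 A j q

lemma sum_union_le' {ι : Type*} [DecidableEq ι] (s t : Finset ι) (g : ι → ℝ) (hg : ∀ i, 0 ≤ g i) :
    ∑ i ∈ s ∪ t, g i ≤ ∑ i ∈ s, g i + ∑ i ∈ t, g i := by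
  have h := sum_union_inter (s₁ := s) (s₂ := t) (f := g)
  have h2 : 0 ≤ ∑ i ∈ s ∩ t, g i := sum_nonneg fun i _ => hg i
  linarith

/-- the constant of the moments -/
def CK (k : ℕ) : ℕ := (1 + 2 ^ (k + 4)) ^ ((k + 3) * (k + 2))

/-- **the average density of the tuples in an arbitrary set of shifts** -/
theorem avgA (k : ℕ) {K : ℝ} (hK : 0 ≤ K) {y H : ℕ} {A : Finset ℕ} (hAH : A.card ≤ H)
    (h2 : ∑ q ∈ A.offDiag, gy y (CK k) (dd q) ≤ K * (H : ℝ) ^ 2) (h1 : ∑ a ∈ A, gy y (CK k) a ≤ K * H)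
    (j : ℕ) (hj : j ≤ k + 2) (h0 : 0 ∉ A) :
    ∑ S ∈ A.powersetCard j, VT y ({0} ∪ S) ≤ (3 * K + 1) * (Vz y ^ (j + 1) * (H : ℝ) ^ j) := by
  classical
  have hVz := (Vz_pos' y).le
  rcases j with _ | j
  · rw [powersetCard_zero, sum_singleton, union_empty]
    have h := VT_pairs y 1 {0} (by simp)
    rw [card_singleton] at h
    have e : ({0} : Finset ℕ).offDiag = ∅ := by simp
    rw [e, prod_empty, mul_one] at h
    rw [zero_add, pow_zero, mul_one]
    have : 0 ≤ 3 * K * Vz y ^ 1 := by positivity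
    linarith
  · have hH0 : (0 : ℝ) ≤ H := Nat.cast_nonneg _
    have hA : (A.card : ℝ) ≤ H := by exact_mod_cast hAH
    have hC1 : (0 : ℝ) ≤ 2 ^ (k + 3 + 1) := by positivity
    have hCK : (0 : ℝ) ≤ (CK k : ℝ) := Nat.cast_nonneg _
    have g1 : ∀ S ∈ A.powersetCard (j + 1), VT y ({0} ∪ S) ≤ Vz y ^ (j + 2) *
        (∑ q ∈ S.offDiag, gy y (CK k) (dd q) + 2 * ∑ a ∈ S, gy y (CK k) a) := by
      intro S hS
      rw [mem_powersetCard] at hS
      have h0S : 0 ∉ S := fun h => h0 (hS.1 h)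
      have hc : ({0} ∪ S : Finset ℕ).card = j + 2 := by
        rw [← insert_eq, card_insert_of_notMem h0S, hS.2]
      have h := VT_pairs y (k + 3) ({0} ∪ S) (by omega)
      rw [hc] at h
      refine h.trans (mul_le_mul_of_nonneg_left ?_ (by positivity))
      obtain ⟨T, hT⟩ : ∃ T, T = ({0} ∪ S : Finset ℕ) := ⟨_, rfl⟩
      rw [← hT] at hc ⊢
      have hTo : T.offDiag.card = (j + 2) * (j + 1) := by
        rw [offDiag_card, hc]
        have : (j + 2) * (j + 2) = (j + 2) * (j + 1) + (j + 2) := by ring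
        omega
      have hne : T.offDiag.Nonempty := by
        rw [← card_pos, hTo]
        positivity
      have h3 := Pool.Agent.TH891.SG.prod_le_sum_pow T.offDiag hne
        (fun q => gy y (2 ^ (k + 3 + 1)) (dd q)) (fun q _ => gy_nonneg hC1 _)
      refine h3.trans ?_
      have h4 : ∀ q ∈ T.offDiag, gy y (2 ^ (k + 3 + 1)) (dd q) ^ T.offDiag.card ≤ gy y (CK k) (dd q) := by
        intro q _
        refine (gy_pow hC1 _ _).trans (gy_mono (by positivity) ?_ _)
        unfold CK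
        push_cast
        refine pow_le_pow_right₀ (by linarith) ?_
        rw [hTo]
        exact Nat.mul_le_mul (by omega) (by omega)
      refine (sum_le_sum h4).trans ?_
      have h5 : T.offDiag = S.offDiag ∪ ({0} ×ˢ S) ∪ (S ×ˢ {0}) := by
        rw [hT, ← insert_eq, offDiag_insert h0S]
      have hg0 : ∀ q : ℕ × ℕ, 0 ≤ gy y (CK k) (dd q) := fun q => gy_nonneg hCK _
      rw [h5]
      refine (sum_union_le' _ _ _ hg0).trans ?_
      have h6 := sum_union_le' S.offDiag ({0} ×ˢ S) (fun q : ℕ × ℕ => gy y (CK k) (dd q)) hg0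
      have h7 : ∑ q ∈ ({0} ×ˢ S : Finset (ℕ × ℕ)), gy y (CK k) (dd q) = ∑ a ∈ S, gy y (CK k) a := by
        rw [sum_product, sum_singleton]
        refine sum_congr rfl fun a _ => ?_
        unfold dd
        simp
      have h8 : ∑ q ∈ (S ×ˢ {0} : Finset (ℕ × ℕ)), gy y (CK k) (dd q) = ∑ a ∈ S, gy y (CK k) a := by
        rw [sum_product]
        refine sum_congr rfl fun a _ => ?_
        rw [sum_singleton]
        unfold dd
        simp
      rw [h8]
      rw [h7] at h6
      linarith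
    refine (sum_le_sum g1).trans ?_
    rw [← mul_sum, sum_add_distrib, ← mul_sum]
    have h3 := sum_through A j (fun q => gy y (CK k) (dd q)) (fun q => gy_nonneg hCK _)
    have h4 := sum_through1 A j (fun a => gy y (CK k) a) (fun q => gy_nonneg hCK _)
    have h5 : ∑ S ∈ A.powersetCard (j + 1), ∑ q ∈ S.offDiag, gy y (CK k) (dd q) ≤
        K * (H : ℝ) ^ (j + 1) := by
      rcases j with _ | j
      · have : ∀ S ∈ A.powersetCard (0 + 1), ∑ q ∈ S.offDiag, gy y (CK k) (dd q) = 0 := by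
          intro S hS
          rw [mem_powersetCard, zero_add, card_eq_one] at hS
          obtain ⟨_, a, rfl⟩ := hS
          refine sum_eq_zero fun q hq => ?_
          rw [mem_offDiag, mem_singleton, mem_singleton] at hq
          exact absurd (hq.1.trans hq.2.1.symm) hq.2.2
        rw [sum_congr rfl this, sum_const_zero]
        positivity
      · refine h3.trans ?_
        rw [Nat.add_sub_cancel]
        calc (A.card : ℝ) ^ j * ∑ q ∈ A.offDiag, gy y (CK k) (dd q) ≤ (H : ℝ) ^ j * (K * (H : ℝ) ^ 2) :=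
              mul_le_mul (pow_le_pow_left₀ (Nat.cast_nonneg _) hA j) h2
                (sum_nonneg fun q _ => gy_nonneg hCK _) (by positivity)
          _ = _ := by ring
    have h6 : ∑ S ∈ A.powersetCard (j + 1), ∑ a ∈ S, gy y (CK k) a ≤ K * (H : ℝ) ^ (j + 1) := by
      refine h4.trans ?_
      calc (A.card : ℝ) ^ j * ∑ a ∈ A, gy y (CK k) a ≤ (H : ℝ) ^ j * (K * (H : ℝ)) :=
              mul_le_mul (pow_le_pow_left₀ (Nat.cast_nonneg _) hA j) h1
                (sum_nonneg fun q _ => gy_nonneg hCK _) (by positivity)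
        _ = _ := by ring
    have h7 : 0 ≤ (H : ℝ) ^ (j + 1) := by positivity
    calc Vz y ^ (j + 2) * (∑ S ∈ A.powersetCard (j + 1), ∑ q ∈ S.offDiag, gy y (CK k) (dd q) +
          2 * ∑ S ∈ A.powersetCard (j + 1), ∑ a ∈ S, gy y (CK k) a)
        ≤ Vz y ^ (j + 2) * ((3 * K + 1) * (H : ℝ) ^ (j + 1)) := by
          refine mul_le_mul_of_nonneg_left ?_ (by positivity)
          linarith
      _ = _ := by ring

end Pool.Agent.J4.H38.SR2
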