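import Mathlib
import Pool.Agent.J4.H38.SR2.Fix4
import Pool.Agent.J4.H38.SR2.Uni1

/-! Primes with almost prime shifts: one fixed shift and almost all sets of further shifts. -/

set_option autoImplicit false

namespace Pool.Agent.J4.H38.SR2

open Finset Filter
open Pool.Agent.Y822
open Pool.Agent.Y822.Low (step_lower')
open Pool.Agent.J4.H38.SR
open Pool.Agent.H387R2.Uni (nuT Adm locT CT CT_nonneg)
open Pool.Agent.H373R2.T7 (pz Vz mem_pz)

/-- the constant of the moments -/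
def CKT (k t0 : ℕ) : ℕ := (1 + 2 ^ (k + 2 + t0 + 1)) ^ ((k + 2 + t0) * (k + 2 + t0))

lemma dd_comm (a b : ℕ) : dd (a, b) = dd (b, a) := by
  unfold dd
  simp only [max_comm, min_comm]

/-- **the average density of the tuples containing a fixed set** -/
theorem avgT (k : ℕ) {K K0 : ℝ} (hK : 0 ≤ K) (_hK0 : 0 ≤ K0) {y H : ℕ} {A T0 : Finset ℕ} (hAH : A.card ≤ H)
    (h2 : ∑ q ∈ A.offDiag, gy y (CKT k T0.card) (dd q) ≤ K * (H : ℝ) ^ 2)
    (h1 : ∀ t ∈ T0, ∑ a ∈ A, gy y (CKT k T0.card) (dd (t, a)) ≤ K * H)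
    (h0 : ∑ q ∈ T0.offDiag, gy y (CKT k T0.card) (dd q) ≤ K0)
    (j : ℕ) (hj : j ≤ k + 2) (hdis : Disjoint T0 A) :
    ∑ S ∈ A.powersetCard j, VT y (T0 ∪ S) ≤
      (1 + K0 + (1 + 2 * T0.card) * K) * (Vz y ^ (j + T0.card) * (H : ℝ) ^ j) := by
  classical
  have hVz := (Vz_pos' y).le
  have hH0 : (0 : ℝ) ≤ H := Nat.cast_nonneg _
  have hA : (A.card : ℝ) ≤ H := by exact_mod_cast hAH
  obtain ⟨t0, ht0⟩ : ∃ t0, t0 = T0.card := ⟨_, rfl⟩
  rw [← ht0] at h2 h1 h0 ⊢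
  obtain ⟨C, hC⟩ : ∃ C : ℝ, C = (CKT k t0 : ℕ) := ⟨_, rfl⟩
  rw [← hC] at h2 h1 h0
  have hC0 : 0 ≤ C := by rw [hC]; exact Nat.cast_nonneg _
  have hC1 : (0 : ℝ) ≤ 2 ^ (k + 2 + t0 + 1) := by positivity
  have hg0 : ∀ q : ℕ × ℕ, 0 ≤ gy y C (dd q) := fun q => gy_nonneg hC0 _
  have g1 : ∀ S ∈ A.powersetCard j, VT y (T0 ∪ S) ≤ Vz y ^ (j + t0) *
      (1 + ∑ q ∈ T0.offDiag, gy y C (dd q) + ∑ q ∈ S.offDiag, gy y C (dd q) +
        2 * ∑ t ∈ T0, ∑ a ∈ S, gy y C (dd (t, a))) := by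
    intro S hS
    rw [mem_powersetCard] at hS
    have hdS : Disjoint T0 S := disjoint_of_subset_right hS.1 hdis
    have hc : (T0 ∪ S).card = j + t0 := by
      rw [card_union_of_disjoint hdS, hS.2, ← ht0]; ring
    have h := VT_pairs y (k + 2 + t0) (T0 ∪ S) (by omega)
    rw [hc] at h
    refine h.trans (mul_le_mul_of_nonneg_left ?_ (by positivity))
    have hsub : (T0 ∪ S).offDiag ⊆ ((T0.offDiag ∪ S.offDiag) ∪ (T0 ×ˢ S)) ∪ (S ×ˢ T0) := by
      intro q hq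
      rw [mem_offDiag, mem_union, mem_union] at hq
      rw [mem_union, mem_union, mem_union, mem_offDiag, mem_offDiag, mem_product, mem_product]
      tauto
    have h5 : ∑ q ∈ (T0 ∪ S).offDiag, gy y C (dd q) ≤
        ∑ q ∈ T0.offDiag, gy y C (dd q) + ∑ q ∈ S.offDiag, gy y C (dd q) +
        2 * ∑ t ∈ T0, ∑ a ∈ S, gy y C (dd (t, a)) := by
      refine (sum_le_sum_of_subset_of_nonneg hsub fun q _ _ => hg0 q).trans ?_
      have s1 := sum_union_le' ((T0.offDiag ∪ S.offDiag) ∪ (T0 ×ˢ S)) (S ×ˢ T0) (fun q : ℕ × ℕ => gy y C (dd q)) hg0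
      have s2 := sum_union_le' (T0.offDiag ∪ S.offDiag) (T0 ×ˢ S) (fun q : ℕ × ℕ => gy y C (dd q)) hg0
      have s3 := sum_union_le' T0.offDiag S.offDiag (fun q : ℕ × ℕ => gy y C (dd q)) hg0
      have s4 : ∑ q ∈ T0 ×ˢ S, gy y C (dd q) = ∑ t ∈ T0, ∑ a ∈ S, gy y C (dd (t, a)) := sum_product _ _ _
      have s5 : ∑ q ∈ S ×ˢ T0, gy y C (dd q) = ∑ t ∈ T0, ∑ a ∈ S, gy y C (dd (t, a)) := by
        rw [sum_product_right]
        refine sum_congr rfl fun t _ => sum_congr rfl fun a _ => ?_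
        rw [dd_comm]
      simp only [s4] at s2
      simp only [s5] at s1
      linarith
    have hcard : (T0 ∪ S).offDiag.card ≤ (k + 2 + t0) * (k + 2 + t0) := by
      rw [offDiag_card, hc]
      refine (Nat.sub_le _ _).trans (Nat.mul_le_mul ?_ ?_) <;> omega
    have h4 : ∀ q ∈ (T0 ∪ S).offDiag, gy y (2 ^ (k + 2 + t0 + 1)) (dd q) ^ (T0 ∪ S).offDiag.card ≤ gy y C (dd q) := by
      intro q _
      refine (gy_pow hC1 _ _).trans (gy_mono (by positivity) ?_ _)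
      rw [hC]
      unfold CKT
      push_cast
      exact pow_le_pow_right₀ (by linarith) hcard
    rcases (T0 ∪ S).offDiag.eq_empty_or_nonempty with he | hne
    · rw [he, prod_empty]
      have s1 : 0 ≤ ∑ q ∈ T0.offDiag, gy y C (dd q) := sum_nonneg fun q _ => hg0 q
      have s2 : 0 ≤ ∑ q ∈ S.offDiag, gy y C (dd q) := sum_nonneg fun q _ => hg0 q
      have s3 : 0 ≤ ∑ t ∈ T0, ∑ a ∈ S, gy y C (dd (t, a)) := sum_nonneg fun t _ => sum_nonneg fun a _ => hg0 _
      linarith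
    · have h3 := Pool.Agent.TH891.SG.prod_le_sum_pow (T0 ∪ S).offDiag hne
        (fun q => gy y (2 ^ (k + 2 + t0 + 1)) (dd q)) (fun q _ => gy_nonneg hC1 _)
      have h6 := h3.trans (sum_le_sum h4)
      linarith
  refine (sum_le_sum g1).trans ?_
  rw [← mul_sum, sum_add_distrib, sum_add_distrib, sum_const, nsmul_eq_mul, ← mul_sum]
  have hcA : ((A.powersetCard j).card : ℝ) ≤ (H : ℝ) ^ j := card_pow_le2 hAH j
  have h5 : ∑ S ∈ A.powersetCard j, ∑ q ∈ S.offDiag, gy y C (dd q) ≤ K * (H : ℝ) ^ j := by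
    rcases j with _ | _ | j
    · rw [powersetCard_zero, sum_singleton]
      simp [hK]
    · have : ∀ S ∈ A.powersetCard (0 + 1), ∑ q ∈ S.offDiag, gy y C (dd q) = 0 := by
        intro S hS
        rw [mem_powersetCard, zero_add, card_eq_one] at hS
        obtain ⟨_, a, rfl⟩ := hS
        refine sum_eq_zero fun q hq => ?_
        rw [mem_offDiag, mem_singleton, mem_singleton] at hq
        exact absurd (hq.1.trans hq.2.1.symm) hq.2.2
      rw [sum_congr rfl this, sum_const_zero]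
      positivity
    · refine (sum_through A (j + 1) (fun q => gy y C (dd q)) hg0).trans ?_
      rw [Nat.add_sub_cancel]
      calc (A.card : ℝ) ^ j * ∑ q ∈ A.offDiag, gy y C (dd q) ≤ (H : ℝ) ^ j * (K * (H : ℝ) ^ 2) :=
            mul_le_mul (pow_le_pow_left₀ (Nat.cast_nonneg _) hA j) h2
              (sum_nonneg fun q _ => hg0 q) (by positivity)
        _ = _ := by ring
  have h6 : ∑ S ∈ A.powersetCard j, 2 * ∑ t ∈ T0, ∑ a ∈ S, gy y C (dd (t, a)) ≤ 2 * (t0 * (K * (H : ℝ) ^ j)) := by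
    rw [← mul_sum, sum_comm]
    refine mul_le_mul_of_nonneg_left ?_ (by norm_num)
    have h7 : ∀ t ∈ T0, ∑ S ∈ A.powersetCard j, ∑ a ∈ S, gy y C (dd (t, a)) ≤ K * (H : ℝ) ^ j := by
      intro t ht
      rcases j with _ | j
      · rw [powersetCard_zero, sum_singleton, sum_empty]
        positivity
      · refine (sum_through1 A j (fun a => gy y C (dd (t, a))) (fun a => hg0 _)).trans ?_
        calc (A.card : ℝ) ^ j * ∑ a ∈ A, gy y C (dd (t, a)) ≤ (H : ℝ) ^ j * (K * (H : ℝ)) :=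
              mul_le_mul (pow_le_pow_left₀ (Nat.cast_nonneg _) hA j) (h1 t ht)
                (sum_nonneg fun q _ => hg0 _) (by positivity)
          _ = _ := by ring
    refine (sum_le_sum h7).trans (le_of_eq ?_)
    rw [sum_const, nsmul_eq_mul, ← ht0]
  have h7 : 0 ≤ (H : ℝ) ^ j := by positivity
  have h8 : ((A.powersetCard j).card : ℝ) * (1 + ∑ q ∈ T0.offDiag, gy y C (dd q)) ≤ (H : ℝ) ^ j * (1 + K0) := by
    have s1 : 0 ≤ ∑ q ∈ T0.offDiag, gy y C (dd q) := sum_nonneg fun q _ => hg0 q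
    exact mul_le_mul hcA (by linarith) (by linarith) h7
  calc _ ≤ Vz y ^ (j + t0) * ((1 + K0 + (1 + 2 * t0) * K) * (H : ℝ) ^ j) := by
        refine mul_le_mul_of_nonneg_left ?_ (by positivity)
        rw [← mul_sum] at h6
        linarith
    _ = _ := by ring

lemma rT_two {a y : ℕ} (ha : a ≠ 0) (n : ℕ) : rT {0, a} y n = ro y n * ro y (n + a) := by
  unfold rT
  rw [prod_insert (by rw [mem_singleton]; exact fun h => ha h.symm), prod_singleton, add_zero]

lemma offDiag_two {a : ℕ} (ha : a ≠ 0) : ({0, a} : Finset ℕ).offDiag = {(0, a), (a, 0)} := by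
  ext q
  obtain ⟨x, z⟩ := q
  simp only [mem_offDiag, mem_insert, mem_singleton, Prod.mk.injEq]
  constructor
  · rintro ⟨h1 | h1, h2 | h2, h3⟩
    · exact absurd (h1.trans h2.symm) h3
    · exact Or.inl ⟨h1, h2⟩
    · exact Or.inr ⟨h1, h2⟩
    · exact absurd (h1.trans h2.symm) h3
  · rintro (⟨h1, h2⟩ | ⟨h1, h2⟩)
    · exact ⟨Or.inl h1, Or.inr h2, by omega⟩
    · exact ⟨Or.inr h1, Or.inl h2, by omega⟩

/-- **almost prime tuples** with one fixed shift, for almost all sets of further shifts -/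
theorem almostF : ∃ c : ℝ, 0 < c ∧ ∀ (k a : ℕ) (ε K : ℝ), 1 ≤ a → 0 < ε → 0 ≤ K → ∃ Λ : ℝ, 0 < Λ ∧
    ∀ᶠ N : ℕ in atTop, ∀ H : ℕ, Λ * Real.log N ≤ H → ∀ A ⊆ Icc 1 N, a ∉ A → A.card ≤ H →
    (∀ y : ℕ, ∑ q ∈ A.offDiag, gy y (CKT k 2) (dd q) ≤ K * (H : ℝ) ^ 2) →
    (∀ y : ℕ, ∑ s ∈ A, gy y (CKT k 2) (dd (0, s)) ≤ K * H) →
    (∀ y : ℕ, ∑ s ∈ A, gy y (CKT k 2) (dd (a, s)) ≤ K * H) → ∀ Bad : Finset (Finset ℕ),
    (∀ D ∈ Bad, D ∈ A.powersetCard (k + 1) ∧ Adm (pat (insert a D)) ∧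
      (pi3 (insert a D) N : ℝ) < c ^ (k + 2) * CT (pat (insert a D)) * (N / Real.log N ^ (k + 3))) →
    (Bad.card : ℝ) ≤ ε * (H : ℝ) ^ (k + 1) := by
  classical
  obtain ⟨c₀', hc₀', STEP⟩ := stepK
  obtain ⟨cB, hcB, hcB1, BASE⟩ := baseF
  obtain ⟨cz, hcz, VZ⟩ := Vz_sharp
  obtain ⟨c₀, hc₀d⟩ : ∃ c₀ : ℝ, c₀ = min c₀' cB := ⟨_, rfl⟩
  have hc₀ : 0 < c₀ := by rw [hc₀d]; exact lt_min hc₀' hcB
  have hc₀1 : c₀ ≤ cB := by rw [hc₀d]; exact min_le_right _ _
  have hc₀3 : c₀ ≤ 1 := hc₀1.trans hcB1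
  have hc₀2 : c₀ ≤ c₀' := by rw [hc₀d]; exact min_le_left _ _
  refine ⟨c₀ * cz / 8, by positivity, fun k a ε K' ha hε hK' => ?_⟩
  obtain ⟨cs, hcs⟩ : ∃ cs : ℝ, cs = c₀ * cz := ⟨_, rfl⟩
  have hcs0 : 0 < cs := by rw [hcs]; positivity
  obtain ⟨cp, hcp, hlow⟩ := Pool.Agent.Y822.PT_low (k + 2)
  obtain ⟨τ, hτ⟩ : ∃ τ : ℝ, τ = 1 / 16 * cs ^ (k + 2) * cp := ⟨_, rfl⟩
  have hτ0 : 0 < τ := by rw [hτ]; positivity
  obtain ⟨δ, hδ⟩ : ∃ δ : ℝ, δ = τ / (3 * (k + 2)) := ⟨_, rfl⟩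
  have hδ0 : 0 < δ := by rw [hδ]; positivity
  obtain ⟨κ₀, hκ₀, hbase⟩ := BASE (k + 2)
  obtain ⟨K0, hK0⟩ : ∃ K0 : ℝ, K0 = 2 * ∏ p ∈ a.primeFactors, (1 + (CKT k 2 : ℝ) / (p : ℝ)) := ⟨_, rfl⟩
  have hCK0 : (0 : ℝ) ≤ (CKT k 2 : ℝ) := Nat.cast_nonneg _
  have hK00 : 0 ≤ K0 := by rw [hK0]; positivity
  obtain ⟨κ, Λ, hκ, hκm, hκh, hΛ, hfew⟩ := few_short2 k 2 2 (by norm_num) (xs := 1 / 100) (δ := δ)
    (ε' := ε) (κm := min (1 / 25) κ₀) (Cv := 1 + K0 + 5 * K') (by norm_num) (by norm_num) hδ0 hε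
    (lt_min (by norm_num) hκ₀) (by positivity)
  have hκ25 : κ ≤ 1 / 25 := hκm.trans (min_le_left _ _)
  have hκK : κ ≤ κ₀ := hκm.trans (min_le_right _ _)
  have hbase := hbase κ hκ hκK (k + 4) a ha
  obtain ⟨N₁, STEP⟩ := STEP κ hκ hκ25
  -- the factor of one step
  obtain ⟨u, hu⟩ : ∃ u : ℝ, u = c₀ * κ := ⟨_, rfl⟩
  have hu0 : 0 < u := by rw [hu]; positivity
  have hu1 : u ≤ 1 := by rw [hu]; exact mul_le_one₀ hc₀3 hκ.le (by linarith)
  obtain ⟨M, hM⟩ : ∃ M : ℕ, M = 4 * (k + 3) ^ 3 * (⌈2 / κ⌉₊ + 1) + 3 := ⟨_, rfl⟩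
  refine ⟨Λ, hΛ, ?_⟩
  filter_upwards [hbase, hfew, ev_logN (eventually_ge_atTop (max 1 ((M + 2) * (2 / κ)))),
    ev_small (k + 3) (by norm_num : (0 : ℝ) < 1 / 8) 12 hδ0,
    ev_logN (eventually_ge_atTop (1 / (u * τ))), eventually_ge_atTop (max (max N₁ 3) a)]
    with N hm hfew hL1' hs8 hLτ hN
  intro H hH1 A hAN haA hAH hP2 hP0 hPa Bad hBad
  have hNN₁ : N₁ ≤ N := ((le_max_left _ _).trans (le_max_left _ _)).trans hN
  have hN3 : 3 ≤ N := ((le_max_right _ _).trans (le_max_left _ _)).trans hN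
  have haN : a ≤ N := (le_max_right _ _).trans hN
  have hN2 : 2 ≤ N := by omega
  set L := Real.log N with hLd
  have hL1 : 1 ≤ L := (le_max_left _ _).trans hL1'
  have hLM : (M + 2) * (2 / κ) ≤ L := (le_max_right _ _).trans hL1'
  have hL0 : 0 < L := by linarith
  have hN0 : (0 : ℝ) < N := by positivity
  have hNe : (N : ℝ) = Real.exp L := by rw [hLd, Real.exp_log hN0]
  have hrp : ∀ s : ℝ, (N : ℝ) ^ s = Real.exp (s * L) := by
    intro s
    rw [Real.rpow_def_of_pos hN0, ← hLd, mul_comm]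
  -- the sifting limit
  obtain ⟨y, hy⟩ : ∃ y : ℕ, y + 1 = ⌈(N : ℝ) ^ κ⌉₊ := by
    have : 0 < ⌈(N : ℝ) ^ κ⌉₊ := Nat.ceil_pos.2 (by positivity)
    exact ⟨⌈(N : ℝ) ^ κ⌉₊ - 1, by omega⟩
  have hya : (y : ℝ) < (N : ℝ) ^ κ := Nat.lt_ceil.1 (by omega)
  have hyb : (N : ℝ) ^ κ ≤ y + 1 := by
    have := Nat.le_ceil ((N : ℝ) ^ κ)
    rw [← hy] at this
    exact_mod_cast this
  have hya' : (y : ℝ) ≤ Real.exp (κ * L) := by rw [← hrp]; exact hya.le
  have hyb' : Real.exp (κ * L) ≤ y + 1 := by rw [← hrp]; exact hyb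
  have hML : (M : ℝ) + 2 ≤ κ / 2 * L := by
    have h1 : (M : ℝ) + 2 = κ / 2 * ((M + 2) * (2 / κ)) := by field_simp
    rw [h1]
    exact mul_le_mul_of_nonneg_left hLM (by positivity)
  obtain ⟨_, _, y3, y4, _, y6⟩ := y_core (M := M) hκ (by omega : 1 ≤ N) hML hya' hyb'
  have hy3 : 3 ≤ y := by omega
  have hy0 : (0 : ℝ) < y := by positivity
  have hVz0 : 0 ≤ Vz y := (Vz_pos' y).le
  have hly : 0 < Real.log y := Real.log_pos (by exact_mod_cast (by omega : 1 < y))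
  have hlyu : Real.log y ≤ κ * L := by
    rw [← Real.log_exp (κ * L)]
    exact Real.log_le_log hy0 hya'
  have huV : cs / L ≤ u * Vz y := by
    have t5 : cz / (κ * L) ≤ Vz y := (div_le_div_of_nonneg_left hcz.le hly hlyu).trans (VZ y hy3)
    calc cs / L = u * (cz / (κ * L)) := by rw [hcs, hu]; field_simp
      _ ≤ u * Vz y := mul_le_mul_of_nonneg_left t5 hu0.le
  -- the error of one step
  obtain ⟨X, hX⟩ : ∃ X : ℝ, X = N / L ^ (k + 3) := ⟨_, rfl⟩
  have hX0 : 0 < X := by rw [hX]; positivity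
  have h78 : 12 * (N : ℝ) ^ (7 / 8 : ℝ) ≤ δ * X := by
    rw [hrp, hX]
    have e : (7 / 8 : ℝ) * L = (1 - 1 / 8) * L := by ring
    rw [e]
    exact hs8
  have hx0 : 0 ≤ 3 * δ * X := by positivity
  have h0A : 0 ∉ A := fun h => by
    have := (mem_Icc.1 (hAN h)).1
    omega
  have hly1 : κ / 2 * L ≤ Real.log y := y4
  have hT2 : ({0, a} : Finset ℕ).card = 2 := by
    rw [card_insert_of_notMem (by rw [mem_singleton]; omega), card_singleton]
  obtain ⟨e, he⟩ : ∃ e : ℕ → ℝ, e = fun n => eP n * g3 N (n + a) := ⟨_, rfl⟩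
  have hev : ∀ n, e n = eP n * g3 N (n + a) := fun n => by rw [he]
  have hebd : ∀ n, 0 ≤ e n ∧ e n ≤ 1 := by
    intro n
    rw [hev]
    exact ⟨mul_nonneg (eP_bd n).1 (g3_bd N _).1, mul_le_one₀ (eP_bd n).2 (g3_bd N _).1 (g3_bd N _).2⟩
  have hg3ro : ∀ m, g3 N m ≤ ro y m := by
    refine g3_le_ro ?_
    refine hya.trans_le (Real.rpow_le_rpow_of_exponent_le (by exact_mod_cast (by omega : 1 ≤ N)) ?_)
    linarith
  refine hfew y hya' hyb' ⌊(N : ℝ) ^ (49 / 100 : ℝ)⌋₊ ?_ A {0, a} (Icc 1 y) hT2 ?_ ?_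
    (2 * N) ?_ ?_ ?_ e hebd ?_ (g3 N) ?_ H hH1 hAH ?_ Bad ?_
  · refine (Nat.floor_le (by positivity)).trans (le_of_eq ?_)
    rw [hrp]
    congr 1
    ring
  · rw [Nat.card_Icc, Nat.add_sub_cancel]
  · rw [disjoint_left]
    intro x hx hxA
    rw [mem_insert, mem_singleton] at hx
    rcases hx with rfl | rfl
    · exact h0A hxA
    · exact haA hxA
  · nlinarith
  · intro s hs
    have := (mem_Icc.1 (hAN hs)).2
    omega
  · intro s hs s' hs'
    have := (mem_Icc.1 (hAN hs)).2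
    have := (mem_Icc.1 (hAN hs')).2
    omega
  · intro n hn hny
    rw [rT_two (by omega), hev]
    refine mul_le_mul ?_ (hg3ro _) (g3_bd N _).1 (ro_nonneg _ _)
    unfold eP
    split_ifs with hp
    · unfold ro
      rw [if_pos]
      intro p hpp hpy hpn
      have h1 : p = n := (Nat.prime_dvd_prime_iff_eq hpp hp).1 hpn
      refine hny (mem_Icc.2 ⟨hp.one_lt.le, ?_⟩)
      omega
    · exact ro_nonneg _ _
  · intro n
    exact ⟨(g3_bd N n).1, hg3ro n⟩
  · intro j hj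
    have hoff : ∑ q ∈ ({0, a} : Finset ℕ).offDiag, gy y (CKT k ({0, a} : Finset ℕ).card) (dd q) ≤ K0 := by
      rw [hT2, offDiag_two (by omega), sum_insert (by
        rw [mem_singleton, Prod.mk.injEq]
        rintro ⟨h1, _⟩
        omega), sum_singleton, dd_comm a 0, hK0]
      have h1 : gy y (CKT k 2) (dd (0, a)) ≤ ∏ p ∈ a.primeFactors, (1 + (CKT k 2 : ℝ) / (p : ℝ)) := by
        have h2 : dd (0, a) = a := by unfold dd; simp
        rw [h2]
        unfold gy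
        refine prod_le_prod_of_subset_of_one_le ?_ (fun p _ => by positivity) fun p _ _ => ?_
        · intro p hp
          rw [mem_filter, mem_pz] at hp
          exact Nat.mem_primeFactors.2 ⟨hp.1.2, hp.2, by omega⟩
        · have : 0 ≤ (CKT k 2 : ℝ) / (p : ℝ) := by positivity
          linarith
      linarith
    have hav := avgT k hK' hK00 hAH (T0 := {0, a}) (y := y) (by rw [hT2]; exact hP2 y) (by
      rw [hT2]
      intro t ht
      rw [mem_insert, mem_singleton] at ht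
      rcases ht with rfl | rfl
      · exact hP0 y
      · exact hPa y) hoff j hj (by
      rw [disjoint_left]
      intro x hx hxA
      rw [mem_insert, mem_singleton] at hx
      rcases hx with rfl | rfl
      · exact h0A hxA
      · exact haA hxA)
    rw [hT2] at hav
    refine hav.trans ?_
    have h1 : Vz y ≤ (2 / κ) / L := by
      refine (Vz_le y (by omega)).trans ?_
      rw [div_div, one_div_le hly (by positivity)]
      calc 1 / (2 / (κ * L)) = κ / 2 * L := by field_simp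
        _ ≤ Real.log y := hly1
    have h2 : Vz y ^ (j + 2) ≤ ((2 / κ) / L) ^ (j + 2) := pow_le_pow_left₀ hVz0 h1 _
    have h3 : Vz y ^ (j + 2) * (H : ℝ) ^ j ≤ (2 / κ) ^ (j + 2) * ((H : ℝ) ^ j / L ^ (j + 2)) := by
      calc Vz y ^ (j + 2) * (H : ℝ) ^ j ≤ ((2 / κ) / L) ^ (j + 2) * (H : ℝ) ^ j :=
            mul_le_mul_of_nonneg_right h2 (by positivity)
        _ = _ := by rw [div_pow]; ring
    have e5 : (1 + K0 + (1 + 2 * ((2 : ℕ) : ℝ)) * K') = 1 + K0 + 5 * K' := by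
      push_cast
      ring
    rw [e5, mul_assoc]
    exact mul_le_mul_of_nonneg_left h3 (by positivity)
  · intro D hD
    obtain ⟨b1, b2, b3⟩ := hBad D hD
    refine ⟨b1, fun hg => ?_⟩
    rw [mem_powersetCard] at b1
    have h0 : 0 ∉ D := fun h => h0A (b1.1 h)
    have haD : a ∉ D := fun h => haA (b1.1 h)
    have hDN : ∀ h ∈ D, h ≤ N := fun h hh => (mem_Icc.1 (hAN (b1.1 hh))).2
    obtain ⟨T, hT⟩ : ∃ T, T = insert a D := ⟨_, rfl⟩
    rw [← hT] at b2 b3
    have h0T : 0 ∉ T := by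
      rw [hT, mem_insert]
      rintro (h | h)
      · omega
      · exact h0 h
    have hTc : T.card = k + 2 := by rw [hT, card_insert_of_notMem haD, b1.2]
    have hTN : ∀ h ∈ T, h ≤ N := by
      intro h hh
      rw [hT, mem_insert] at hh
      rcases hh with rfl | hh
      · exact haN
      · exact hDN h hh
    obtain ⟨c1, c2⟩ := hlow (pat T) (by rw [card_pat h0T, hTc]) b2
    have hCP : CT (pat T) ≤ 2 * PT (pat T) y := by
      have g1 := CT_up (pat T) (2 * N) y (fun t ht => by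
        unfold pat at ht
        rw [mem_insert] at ht
        rcases ht with rfl | ht
        · omega
        · have := hTN t ht
          omega) (by omega)
      rw [card_pat h0T, hTc] at g1
      refine g1.trans (mul_le_mul_of_nonneg_right ?_ (PT_nonneg _ _))
      have g6 : 2 * (((k + 2 + 1 : ℕ) : ℝ)) ^ 3 * (Nat.log y (2 * N)) / y ≤ 1 / 2 := by
        rw [div_le_div_iff₀ hy0 (by norm_num)]
        have g7 : 4 * (k + 3) ^ 3 * Nat.log y (2 * N) ≤ y := by
          refine le_trans ?_ y3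
          rw [hM]
          exact (Nat.mul_le_mul_left _ y6).trans (Nat.le_add_right _ _)
        have g8 : (4 * ((k : ℝ) + 3) ^ 3 * Nat.log y (2 * N)) ≤ y := by exact_mod_cast g7
        have g9 : (((k + 2 + 1 : ℕ) : ℝ)) ^ 3 = ((k : ℝ) + 3) ^ 3 := by push_cast; ring
        rw [g9]
        linarith
      calc Real.exp (2 * (((k + 2 + 1 : ℕ) : ℝ)) ^ 3 * (Nat.log y (2 * N)) / y) ≤ Real.exp (1 / 2) :=
            Real.exp_le_exp.2 g6
        _ ≤ 2 := by
            have h6 : Real.exp (1 / 2) * Real.exp (-(1 / 2)) = 1 := by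
              rw [← Real.exp_add]; norm_num
            have h7 := Real.exp_pos (1 / 2)
            have h8 : 1 / 2 ≤ Real.exp (-(1 / 2)) := by
              have := Real.add_one_le_exp (-(1 / 2) : ℝ)
              linarith
            nlinarith
    -- one step
    have hZ : ∀ t ∈ D, ∀ S1 ⊆ D.erase t,
        u * ∑ n ∈ Icc 1 N, WH e (g3 N) (ro y) (D.erase t) S1 n * ro y (n + t) - 3 * δ * X ≤
          ∑ n ∈ Icc 1 N, WH e (g3 N) (ro y) (D.erase t) S1 n * g3 N (n + t) := by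
      intro t ht S1 hS1
      set f := WH e (g3 N) (ro y) (D.erase t) S1 with hf
      have hf01 : ∀ n, 0 ≤ f n ∧ f n ≤ 1 := WH_bd hebd (g3_bd N) (ro_bd y) _ _
      have hgood := hg t ht S1 hS1
      rw [← hf, show k + 2 + 1 = k + 3 by ring, ← hX] at hgood
      have hs := STEP N hNN₁ y hya hyb f (fun n => (hf01 n).1) (fun n => (hf01 n).2) t (hDN t ht)
      have hW0 : 0 ≤ ∑ n ∈ Icc 1 N, f n * ro y (n + t) :=
        sum_nonneg fun n _ => mul_nonneg (hf01 n).1 (ro_nonneg _ _)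
      have h5 : u * ∑ n ∈ Icc 1 N, f n * ro y (n + t) ≤
          c₀' * κ * ∑ n ∈ Icc 1 N, f n * ro y (n + t) := by
        rw [hu]
        exact mul_le_mul_of_nonneg_right (mul_le_mul_of_nonneg_right hc₀2 hκ.le) hW0
      linarith
    have hlower := step_lower' (H := D) hx0 hu0.le hu1 hZ D (subset_refl _)
    rw [b1.2] at hlower
    have hmain := hm y hya hyb T h0T hTc (by rw [hT]; exact mem_insert_self _ _)
    -- the base
    have hWb : CA T a y N ≤ ∑ n ∈ Icc 1 N, WH e (g3 N) (ro y) D ∅ n := by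
      unfold CA
      rw [card_filter]
      push_cast
      refine sum_le_sum fun n _ => ?_
      split_ifs with h
      · obtain ⟨hp, hB, h3⟩ := h
        unfold WH
        rw [sdiff_empty, prod_empty, one_mul, hev]
        have h4 : ∏ s ∈ D, ro y (n + s) = 1 := by
          refine prod_eq_one fun s hs => ?_
          unfold ro
          rw [if_pos]
          exact (ro_iff T y n).2 hB s (by rw [hT]; exact mem_insert_of_mem hs)
        rw [h4, mul_one, h3, mul_one]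
        unfold eP
        rw [if_pos hp]
      · exact (WH_bd hebd (g3_bd N) (ro_bd y) _ _ n).1
    have hfull : ∑ n ∈ Icc 1 N, WH e (g3 N) (ro y) D D n ≤ pi3 T N := by
      refine le_trans (le_of_eq ?_) (WH_full_leK N y T)
      refine sum_congr rfl fun n _ => ?_
      unfold WH
      rw [sdiff_self, sdiff_self, bot_eq_empty, prod_empty, mul_one, mul_one, hev, hT, prod_insert haD]
      ring
    have hPT0 := PT_nonneg (pat T) y
    obtain ⟨Y, hY⟩ : ∃ Y : ℝ, Y = N / L * (PT (pat T) y * Vz y ^ (k + 2)) := ⟨_, rfl⟩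
    have hY0 : 0 ≤ Y := by rw [hY]; positivity
    rw [← hY] at hmain
    have hWu : u * (1 / 2 * Y - N / L ^ (k + 4) / u) ≤ ∑ n ∈ Icc 1 N, WH e (g3 N) (ro y) D ∅ n := by
      have h1 : u * (1 / 2 * Y - N / L ^ (k + 4) / u) = u / 2 * Y - N / L ^ (k + 4) := by
        field_simp
      rw [h1]
      have h2 : u / 2 * Y ≤ cB * κ / 2 * Y := by
        refine mul_le_mul_of_nonneg_right ?_ hY0
        rw [hu]
        have := mul_le_mul_of_nonneg_right hc₀1 hκ.le
        linarith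
      linarith
    have hpow : u ^ (k + 2) * (1 / 2 * Y - N / L ^ (k + 4) / u) ≤
        u ^ (k + 1) * ∑ n ∈ Icc 1 N, WH e (g3 N) (ro y) D ∅ n := by
      rw [pow_succ u (k + 1), mul_assoc]
      exact mul_le_mul_of_nonneg_left hWu (by positivity)
    have hxx : 0 ≤ 3 * δ * X := hx0
    have hfin := low_calcK (k := k + 1) (cs := cs) (cp := cp) (L := L) (n := N) (u := u) (V := Vz y)
      (PTy := PT (pat T) y) (W := 1 / 2 * Y - N / L ^ (k + 4) / u) (e := N / L ^ (k + 4) / u)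
      (x := 3 * δ * X) (CTy := CT (pat T))
      (P := pi3 T N) hcs0 hcp hL1 hN0 hu0.le hu1 hVz0 huV (PT_nonneg _ _) c2 hCP
      (by rw [← hY]) (by positivity) ?_ ?_ (by push_cast at hlower ⊢; linarith)
    · rw [hcs] at hfin
      rw [show k + 1 + 1 = k + 2 by ring, show k + 1 + 2 = k + 3 by ring] at hfin
      linarith
    · rw [show k + 1 + 1 = k + 2 by ring, show k + 1 + 2 = k + 3 by ring, ← hτ]
      have h1 : (N : ℝ) / L ^ (k + 4) / u = 1 / (u * L) * (N / L ^ (k + 3)) := by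
        rw [pow_succ L (k + 3)]
        field_simp
      rw [h1]
      refine mul_le_mul_of_nonneg_right ?_ (by positivity)
      rw [div_le_iff₀ (by positivity)]
      rw [div_le_iff₀ (by positivity)] at hLτ
      linarith
    · rw [show k + 1 + 1 = k + 2 by ring, show k + 1 + 2 = k + 3 by ring, ← hτ, ← hX, hδ]
      apply le_of_eq
      push_cast
      field_simp
      ring

end Pool.Agent.J4.H38.SR2
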