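import Mathlib
import Pool.Agent.J4.H38.SR2.Uni1
import Pool.Agent.TH891.SG.Gal1

/-! The common prime divisors of the values of a polynomial, on average. -/

set_option autoImplicit false

namespace Pool.Agent.J4.H38.SR2

open Finset Filter
open Pool.Agent.Y822
open Pool.Agent.J4.H38.SR
open Pool.Agent.H373R2.T7 (pz Vz mem_pz)

lemma prod_sq_le (M : ℕ) {B : ℝ} (hB : 0 ≤ B) :
    ∏ p ∈ pz M, (1 + B / (p : ℝ) ^ 2) ≤ Real.exp B := by
  have h1 : ∏ p ∈ pz M, (1 + B / (p : ℝ) ^ 2) ≤ ∏ p ∈ pz M, Real.exp (B * (1 / (p : ℝ) ^ 2)) := by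
    refine prod_le_prod (fun p _ => by positivity) fun p _ => ?_
    have h4 := Real.add_one_le_exp (B * (1 / (p : ℝ) ^ 2))
    have h5 : B * (1 / (p : ℝ) ^ 2) = B / (p : ℝ) ^ 2 := by ring
    rw [h5] at h4 ⊢
    linarith
  refine h1.trans ?_
  rw [← Real.exp_sum, Real.exp_le_exp, ← mul_sum]
  have h2 := inv_sq_gt (y := 1) le_rfl (pz M) (fun p hp => (mem_pz.1 hp).2.one_lt)
  simp only [Nat.cast_one, div_one] at h2
  calc B * ∑ p ∈ pz M, 1 / (p : ℝ) ^ 2 ≤ B * 1 := mul_le_mul_of_nonneg_left h2 hB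
    _ = B := mul_one B

lemma prod_one_le_M {B : ℝ} (hB : 0 ≤ B) : ∃ K : ℝ, 0 < K ∧ ∀ M : ℕ, 3 ≤ M →
    ∏ p ∈ pz M, (1 + B / (p : ℝ)) ≤ K * M := by
  obtain ⟨c1, hc1, hV⟩ := Vz_sharp
  obtain ⟨r, hr1, hrB⟩ : ∃ r : ℕ, 1 ≤ r ∧ B ≤ r := ⟨⌈B⌉₊ + 1, by omega, by
    push_cast
    have := Nat.le_ceil B
    linarith⟩
  have hr0 : (0 : ℝ) < r := by exact_mod_cast hr1
  refine ⟨(r / c1) ^ r, by positivity, fun M hM => ?_⟩
  have hM0 : (0 : ℝ) < M := by exact_mod_cast (by omega : 0 < M)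
  have hM3 : (3 : ℝ) ≤ M := by exact_mod_cast hM
  have hlM : 0 < Real.log M := Real.log_pos (by linarith)
  have h1 : (∏ p ∈ pz M, (1 + B / (p : ℝ))) * Vz M ^ r ≤ 1 := by
    unfold Vz
    rw [← prod_pow, ← prod_mul_distrib]
    refine prod_le_one (fun p hp => ?_) fun p hp => ?_
    · have hp2 : (2 : ℝ) ≤ p := by exact_mod_cast (mem_pz.1 hp).2.two_le
      have ht2 : 1 / (p : ℝ) ≤ 1 / 2 := one_div_le_one_div_of_le (by norm_num) hp2
      have : 0 ≤ 1 - 1 / (p : ℝ) := by linarith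
      positivity
    · have hp2 : (2 : ℝ) ≤ p := by exact_mod_cast (mem_pz.1 hp).2.two_le
      have ht2 : 1 / (p : ℝ) ≤ 1 / 2 := one_div_le_one_div_of_le (by norm_num) hp2
      have h2 : 1 - 1 / (p : ℝ) ≤ Real.exp (-(1 / p)) := by
        have := Real.add_one_le_exp (-(1 / (p : ℝ)))
        linarith
      have h3 : (1 - 1 / (p : ℝ)) ^ r ≤ Real.exp (-(1 / p)) ^ r :=
        pow_le_pow_left₀ (by linarith) h2 r
      have h4 : 1 + B / (p : ℝ) ≤ Real.exp (r * (1 / p)) := by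
        have := Real.add_one_le_exp (r * (1 / (p : ℝ)))
        have h5 : B / (p : ℝ) ≤ r * (1 / p) := by
          rw [mul_one_div]
          exact div_le_div_of_nonneg_right hrB (by linarith)
        linarith
      calc (1 + B / (p : ℝ)) * (1 - 1 / (p : ℝ)) ^ r
          ≤ Real.exp (r * (1 / p)) * Real.exp (-(1 / p)) ^ r :=
            mul_le_mul h4 h3 (by
              have : 0 ≤ 1 - 1 / (p : ℝ) := by linarith
              positivity) (Real.exp_pos _).le
        _ = 1 := by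
            rw [← Real.exp_nat_mul, ← Real.exp_add]
            have : (r : ℝ) * (1 / (p : ℝ)) + (r : ℝ) * -(1 / p) = 0 := by ring
            rw [this, Real.exp_zero]
  have h2 := hV M hM
  have h3 : (c1 / Real.log M) ^ r ≤ Vz M ^ r := pow_le_pow_left₀ (by positivity) h2 r
  have h4 : 0 < (c1 / Real.log M) ^ r := by positivity
  have h5 : 0 ≤ ∏ p ∈ pz M, (1 + B / (p : ℝ)) := prod_nonneg fun p _ => by positivity
  have h6 : (∏ p ∈ pz M, (1 + B / (p : ℝ))) * (c1 / Real.log M) ^ r ≤ 1 :=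
    (mul_le_mul_of_nonneg_left h3 h5).trans h1
  have h7 : ∏ p ∈ pz M, (1 + B / (p : ℝ)) ≤ 1 / (c1 / Real.log M) ^ r := by
    rw [le_div_iff₀ h4]
    exact h6
  refine h7.trans ?_
  have h8 : Real.log M ≤ r * (M : ℝ) ^ (1 / r : ℝ) := by
    have := Real.log_le_rpow_div hM0.le (by positivity : (0 : ℝ) < 1 / r)
    calc Real.log M ≤ (M : ℝ) ^ (1 / r : ℝ) / (1 / r) := this
      _ = _ := by field_simp
  have h9 : Real.log M ^ r ≤ (r : ℝ) ^ r * M := by
    calc Real.log M ^ r ≤ (r * (M : ℝ) ^ (1 / r : ℝ)) ^ r := pow_le_pow_left₀ hlM.le h8 r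
      _ = (r : ℝ) ^ r * M := by
          rw [mul_pow, ← Real.rpow_natCast ((M : ℝ) ^ (1 / r : ℝ)), ← Real.rpow_mul hM0.le,
            one_div_mul_cancel hr0.ne', Real.rpow_one]
  calc 1 / (c1 / Real.log M) ^ r = Real.log M ^ r / c1 ^ r := by
        rw [div_pow]
        field_simp
    _ ≤ (r : ℝ) ^ r * M / c1 ^ r := div_le_div_of_nonneg_right h9 (by positivity)
    _ = _ := by rw [div_pow]; ring

open Polynomial in
/-- the roots of `F - c` modulo `p` -/
noncomputable def RF (F : ℤ[X]) (c : ℤ) (p : ℕ) : Finset ℕ :=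
  (range p).filter (fun r : ℕ => (p : ℤ) ∣ F.eval (r : ℤ) - c)

open Polynomial in
lemma card_RF (F : ℤ[X]) (c : ℤ) {p : ℕ} (hp : p.Prime) (hd : 1 ≤ F.natDegree)
    (hl : ¬ (p : ℤ) ∣ F.leadingCoeff) : (RF F c p).card ≤ F.natDegree := by
  classical
  haveI := Fact.mk hp
  set g : (ZMod p)[X] := (F - C c).map (Int.castRingHom (ZMod p)) with hg
  have hcoef : g.coeff F.natDegree = ((F.leadingCoeff : ℤ) : ZMod p) := by
    rw [hg, coeff_map, coeff_sub, coeff_C, if_neg (by omega), sub_zero]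
    rfl
  have hne : g ≠ 0 := by
    intro h
    rw [h, coeff_zero] at hcoef
    exact hl ((ZMod.intCast_zmod_eq_zero_iff_dvd _ _).1 hcoef.symm)
  have hdeg : g.natDegree ≤ F.natDegree := by
    refine (natDegree_map_le).trans ?_
    refine (natDegree_sub_le _ _).trans ?_
    rw [natDegree_C]
    omega
  have h1 : (RF F c p).card ≤ g.roots.toFinset.card := by
    refine card_le_card_of_injOn (fun r : ℕ => (r : ZMod p)) ?_ ?_
    · intro r hr
      unfold RF at hr
      rw [mem_coe, mem_filter, mem_range] at hr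
      rw [mem_coe, Multiset.mem_toFinset, mem_roots hne, IsRoot.def]
      have h2 : g.eval (((r : ℤ)) : ZMod p) = (((F - C c).eval (r : ℤ) : ℤ) : ZMod p) := by
        rw [hg]
        exact Polynomial.eval_intCast_map (Int.castRingHom (ZMod p)) _ _
      have h3 : (((r : ℤ)) : ZMod p) = (r : ZMod p) := by push_cast; rfl
      simp only
      rw [← h3, h2, eval_sub, eval_C]
      exact (ZMod.intCast_zmod_eq_zero_iff_dvd _ _).2 hr.2
    · intro a ha b hb h
      unfold RF at ha hb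
      rw [mem_coe, mem_filter, mem_range] at ha hb
      have := (ZMod.natCast_eq_natCast_iff' a b p).1 h
      rwa [Nat.mod_eq_of_lt ha.1, Nat.mod_eq_of_lt hb.1] at this
  exact h1.trans ((Multiset.toFinset_card_le _).trans ((card_roots' _).trans hdeg))

lemma card_RF_le (F : Polynomial ℤ) (c : ℤ) (p : ℕ) : (RF F c p).card ≤ p := by
  unfold RF
  exact (card_filter_le _ _).trans (card_range p).le

/-- the sum over the small primes -/
lemma sum_smallF (F : Polynomial ℤ) (c : ℤ) (M : ℕ) {C : ℝ} (hC : 0 ≤ C) :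
    ∑ m ∈ Icc 1 M, ∏ p ∈ (pz M).filter (fun p : ℕ => (p : ℤ) ∣ F.eval (m : ℤ) - c), (1 + C / (p : ℝ)) ≤
      (M + 1) * ∏ p ∈ pz M, (1 + C * (RF F c p).card / (p : ℝ) ^ 2) +
        ∏ p ∈ pz M, (1 + C * (RF F c p).card / (p : ℝ)) := by
  classical
  have h1 : ∀ m ∈ Icc 1 M, ∏ p ∈ (pz M).filter (fun p : ℕ => (p : ℤ) ∣ F.eval (m : ℤ) - c),
      (1 + C / (p : ℝ)) = ∑ P ∈ (pz M).powerset, (∏ p ∈ P, C / (p : ℝ)) *
        (if (∀ p ∈ P, ((p : ℕ) : ℤ) ∣ F.eval (m : ℤ) - c) then 1 else 0) := by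
    intro m _
    rw [prod_one_add]
    have h2 : ((pz M).filter (fun p : ℕ => (p : ℤ) ∣ F.eval (m : ℤ) - c)).powerset =
        (pz M).powerset.filter (fun P => ∀ p ∈ P, ((p : ℕ) : ℤ) ∣ F.eval (m : ℤ) - c) := by
      ext P
      simp only [mem_powerset, mem_filter, subset_iff]
      constructor
      · exact fun h => ⟨fun p hp => (h hp).1, fun p hp => (h hp).2⟩
      · exact fun h p hp => ⟨h.1 hp, h.2 p hp⟩
    rw [h2, sum_filter]
    refine sum_congr rfl fun P _ => ?_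
    split_ifs <;> simp
  rw [sum_congr rfl h1, sum_comm]
  have h3 : ∀ P ∈ (pz M).powerset, ∑ m ∈ Icc 1 M,
      (∏ p ∈ P, C / (p : ℝ)) * (if (∀ p ∈ P, ((p : ℕ) : ℤ) ∣ F.eval (m : ℤ) - c) then (1 : ℝ) else 0) ≤
      (M + 1) * ∏ p ∈ P, (C * (RF F c p).card / (p : ℝ) ^ 2) + ∏ p ∈ P, (C * (RF F c p).card / (p : ℝ)) := by
    intro P hP
    rw [← mul_sum]
    have hPp : ∀ p ∈ P, p.Prime := fun p hp => (mem_pz.1 (mem_powerset.1 hP hp)).2
    have h4 : ∑ m ∈ Icc 1 M, (if (∀ p ∈ P, ((p : ℕ) : ℤ) ∣ F.eval (m : ℤ) - c) then (1 : ℝ) else 0) ≤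
        (∏ p ∈ P, ((RF F c p).card : ℝ)) * (((M + 1 : ℕ) : ℝ) / (∏ p ∈ P, (p : ℝ)) + 1) := by
      refine le_trans ?_ (Pool.Agent.TH891.SG.crt_count P hPp (RF F c) (M + 1))
      rw [← sum_filter, sum_const, nsmul_eq_mul, mul_one]
      have h5 : (Icc 1 M).filter (fun m : ℕ => ∀ p ∈ P, ((p : ℕ) : ℤ) ∣ F.eval (m : ℤ) - c) ⊆
          (range (M + 1)).filter (fun d => ∀ p ∈ P, d % p ∈ RF F c p) := by
        intro m hm
        rw [mem_filter, mem_Icc] at hm
        rw [mem_filter, mem_range]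
        refine ⟨by omega, fun p hp => ?_⟩
        unfold RF
        rw [mem_filter, mem_range]
        refine ⟨Nat.mod_lt _ (hPp p hp).pos, ?_⟩
        have h6 : ((m % p : ℕ) : ℤ) - (m : ℤ) ∣ F.eval ((m % p : ℕ) : ℤ) - F.eval (m : ℤ) :=
          Polynomial.sub_dvd_eval_sub _ _ _
        have h7 : (p : ℤ) ∣ ((m % p : ℕ) : ℤ) - (m : ℤ) := by
          have := Nat.mod_add_div m p
          refine ⟨-((m / p : ℕ) : ℤ), ?_⟩
          have h8 : ((m % p : ℕ) : ℤ) + (p : ℤ) * ((m / p : ℕ) : ℤ) = m := by exact_mod_cast this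
          linarith
        have h8 := (h7.trans h6).add (hm.2 p hp)
        have h9 : F.eval ((m % p : ℕ) : ℤ) - F.eval (m : ℤ) + (F.eval (m : ℤ) - c) =
            F.eval ((m % p : ℕ) : ℤ) - c := by ring
        rwa [h9] at h8
      exact_mod_cast card_le_card h5
    have h6 : 0 ≤ ∏ p ∈ P, C / (p : ℝ) := prod_nonneg fun p _ => by positivity
    refine (mul_le_mul_of_nonneg_left h4 h6).trans (le_of_eq ?_)
    have h8 : ∏ p ∈ P, (C * (RF F c p).card / (p : ℝ) ^ 2) =
        (∏ p ∈ P, C / (p : ℝ)) * (∏ p ∈ P, ((RF F c p).card : ℝ)) / (∏ p ∈ P, (p : ℝ)) := by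
      rw [← prod_mul_distrib, ← prod_div_distrib]
      refine prod_congr rfl fun p _ => ?_
      rw [sq]
      rcases eq_or_ne (p : ℝ) 0 with h | h
      · rw [h]; simp
      · field_simp
    have h9 : ∏ p ∈ P, (C * (RF F c p).card / (p : ℝ)) =
        (∏ p ∈ P, C / (p : ℝ)) * (∏ p ∈ P, ((RF F c p).card : ℝ)) := by
      rw [← prod_mul_distrib]
      refine prod_congr rfl fun p _ => ?_
      ring
    rw [h8, h9]
    push_cast
    ring
  refine (sum_le_sum h3).trans (le_of_eq ?_)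
  rw [sum_add_distrib, ← mul_sum, prod_one_add, prod_one_add]

/-- **the average over the values of a polynomial**, uniformly in the constant term -/
theorem poly_avg (F : Polynomial ℤ) (hd : 1 ≤ F.natDegree) {C : ℝ} (hC : 0 ≤ C) :
    ∃ K : ℝ, 0 < K ∧ ∀ M y x : ℕ, 3 ≤ M → Real.log x ≤ M → ∀ c : ℤ,
      (∀ m ∈ Icc 1 M, (F.eval (m : ℤ) - c).natAbs ≤ x) →
      ∑ m ∈ (Icc 1 M).filter (fun m : ℕ => F.eval (m : ℤ) ≠ c), gy y C (F.eval (m : ℤ) - c).natAbs ≤
        K * M := by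
  classical
  obtain ⟨d, hdd⟩ : ∃ d, d = F.natDegree := ⟨_, rfl⟩
  obtain ⟨K₁, hK₁, hM⟩ := prod_one_le_M (B := C * d) (by positivity)
  obtain ⟨S, hS⟩ : ∃ S, S = F.leadingCoeff.natAbs.primeFactors := ⟨_, rfl⟩
  have hF0 : F ≠ 0 := by
    intro h
    rw [h, Polynomial.natDegree_zero] at hd
    omega
  have hlc : F.leadingCoeff.natAbs ≠ 0 := by
    rw [Int.natAbs_ne_zero]
    exact Polynomial.leadingCoeff_ne_zero.2 hF0
  refine ⟨Real.exp C * ((1 + C) ^ S.card * (2 * Real.exp (C * d) + K₁)), by positivity,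
    fun M y x hM3 hlog c hc => ?_⟩
  have hM0 : (0 : ℝ) < M := by exact_mod_cast (by omega : 0 < M)
  have hM3' : (3 : ℝ) ≤ M := by exact_mod_cast hM3
  have hlM : 1 ≤ Real.log M := by
    have h1 : Real.exp 1 ≤ M := le_trans (by have := Real.exp_one_lt_d9; linarith) hM3'
    have := Real.log_le_log (Real.exp_pos 1) h1
    rwa [Real.log_exp] at this
  have hpt : ∀ m ∈ (Icc 1 M).filter (fun m : ℕ => F.eval (m : ℤ) ≠ c),
      gy y C (F.eval (m : ℤ) - c).natAbs ≤ Real.exp C *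
        ∏ p ∈ (pz M).filter (fun p : ℕ => (p : ℤ) ∣ F.eval (m : ℤ) - c), (1 + C / (p : ℝ)) := by
    intro m hm
    rw [mem_filter] at hm
    obtain ⟨v, hv⟩ : ∃ v, v = (F.eval (m : ℤ) - c).natAbs := ⟨_, rfl⟩
    have hv0 : v ≠ 0 := by
      rw [hv, Int.natAbs_ne_zero, sub_ne_zero]
      exact hm.2
    have hvx : v ≤ x := by rw [hv]; exact hc m hm.1
    rw [← hv]
    have g2 : gy y C v ≤ ∏ p ∈ v.primeFactors, (1 + C / (p : ℝ)) := by
      unfold gy
      refine prod_le_prod_of_subset_of_one_le ?_ (fun p _ => by positivity) fun p _ _ => ?_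
      · intro p hp
        rw [mem_filter, mem_pz] at hp
        exact Nat.mem_primeFactors.2 ⟨hp.1.2, hp.2, hv0⟩
      · have : 0 ≤ C / (p : ℝ) := by positivity
        linarith
    have g3 : ∏ p ∈ v.primeFactors, (1 + C / (p : ℝ)) =
        (∏ p ∈ v.primeFactors.filter (fun p => M < p), (1 + C / (p : ℝ))) *
          ∏ p ∈ v.primeFactors.filter (fun p => ¬ M < p), (1 + C / (p : ℝ)) :=
      (prod_filter_mul_prod_filter_not _ _ _).symm
    have g4 : v.primeFactors.filter (fun p => ¬ M < p) =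
        (pz M).filter (fun p : ℕ => (p : ℤ) ∣ F.eval (m : ℤ) - c) := by
      ext p
      rw [mem_filter, mem_filter, mem_pz, Nat.mem_primeFactors, hv, Int.natCast_dvd]
      constructor
      · rintro ⟨⟨h1, h2, _⟩, h3⟩
        exact ⟨⟨not_lt.1 h3, h1⟩, h2⟩
      · rintro ⟨⟨h1, h2⟩, h3⟩
        exact ⟨⟨h2, h3, by rw [← hv]; exact hv0⟩, not_lt.2 h1⟩
    have g5 : ∏ p ∈ v.primeFactors.filter (fun p => M < p), (1 + C / (p : ℝ)) ≤ Real.exp C := by
      have h1 : ∏ p ∈ v.primeFactors.filter (fun p => M < p), (1 + C / (p : ℝ)) ≤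
          ∏ _p ∈ v.primeFactors.filter (fun p => M < p), Real.exp (C / (M : ℝ)) := by
        refine prod_le_prod (fun p _ => by positivity) fun p hp => ?_
        have h2 : (M : ℝ) ≤ p := by exact_mod_cast (mem_filter.1 hp).2.le
        have h3 : C / (p : ℝ) ≤ C / M := div_le_div_of_nonneg_left hC hM0 h2
        have h4 := Real.add_one_le_exp (C / (M : ℝ))
        linarith
      refine h1.trans ?_
      rw [prod_const, ← Real.exp_nat_mul, Real.exp_le_exp]
      have h2 := card_big_le M v (by omega) (by omega)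
      have h3 : ((v.primeFactors.filter (fun p => M < p)).card : ℝ) ≤ Nat.log M v := by
        exact_mod_cast h2
      have h4 : (Nat.log M v : ℝ) ≤ Real.logb M v := Real.natLog_le_logb _ _
      have h5 : Real.logb M v ≤ M := by
        unfold Real.logb
        rw [div_le_iff₀ (by linarith)]
        have h6 : Real.log v ≤ Real.log x :=
          Real.log_le_log (by exact_mod_cast Nat.pos_of_ne_zero hv0) (by exact_mod_cast hvx)
        nlinarith
      calc _ ≤ (M : ℝ) * (C / M) := mul_le_mul_of_nonneg_right (h3.trans (h4.trans h5)) (by positivity)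
        _ = C := by field_simp
    rw [g3, g4] at g2
    have g6 : 0 ≤ ∏ p ∈ (pz M).filter (fun p : ℕ => (p : ℤ) ∣ F.eval (m : ℤ) - c), (1 + C / (p : ℝ)) :=
      prod_nonneg fun p _ => by positivity
    exact g2.trans (mul_le_mul_of_nonneg_right g5 g6)
  refine (sum_le_sum hpt).trans ?_
  rw [← mul_sum, mul_assoc]
  refine mul_le_mul_of_nonneg_left ?_ (Real.exp_pos _).le
  have g7 : ∑ m ∈ (Icc 1 M).filter (fun m : ℕ => F.eval (m : ℤ) ≠ c),
      ∏ p ∈ (pz M).filter (fun p : ℕ => (p : ℤ) ∣ F.eval (m : ℤ) - c), (1 + C / (p : ℝ)) ≤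
      ∑ m ∈ Icc 1 M, ∏ p ∈ (pz M).filter (fun p : ℕ => (p : ℤ) ∣ F.eval (m : ℤ) - c), (1 + C / (p : ℝ)) :=
    sum_le_sum_of_subset_of_nonneg (filter_subset _ _) fun m _ _ =>
      prod_nonneg fun p _ => by positivity
  refine g7.trans ((sum_smallF F c M hC).trans ?_)
  -- the local factors
  have hloc : ∀ e : ℕ, 1 ≤ e → ∏ p ∈ pz M, (1 + C * (RF F c p).card / (p : ℝ) ^ e) ≤
      (1 + C) ^ S.card * ∏ p ∈ pz M, (1 + C * d / (p : ℝ) ^ e) := by
    intro e he
    have h1 : ∀ p ∈ pz M, 1 + C * (RF F c p).card / (p : ℝ) ^ e ≤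
        (if p ∈ S then 1 + C else 1) * (1 + C * d / (p : ℝ) ^ e) := by
      intro p hp
      have hpp := (mem_pz.1 hp).2
      have hp1 : (1 : ℝ) ≤ p := by exact_mod_cast hpp.one_lt.le
      have hpe : (p : ℝ) ≤ (p : ℝ) ^ e := le_self_pow₀ hp1 (by omega)
      have hpe0 : 0 < (p : ℝ) ^ e := by positivity
      have h2 : 0 ≤ C * d / (p : ℝ) ^ e := by positivity
      by_cases hpS : p ∈ S
      · rw [if_pos hpS]
        have h3 : C * (RF F c p).card / (p : ℝ) ^ e ≤ C := by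
          rw [div_le_iff₀ hpe0]
          refine mul_le_mul_of_nonneg_left ?_ hC
          refine le_trans ?_ hpe
          exact_mod_cast card_RF_le F c p
        nlinarith
      · rw [if_neg hpS, one_mul]
        have h3 : ¬ (p : ℤ) ∣ F.leadingCoeff := by
          intro h
          apply hpS
          rw [hS, Nat.mem_primeFactors]
          exact ⟨hpp, Int.natCast_dvd.1 h, hlc⟩
        have h4 := card_RF F c hpp hd h3
        rw [← hdd] at h4
        have h5 : ((RF F c p).card : ℝ) ≤ d := by exact_mod_cast h4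
        have h6 : C * (RF F c p).card / (p : ℝ) ^ e ≤ C * d / (p : ℝ) ^ e :=
          div_le_div_of_nonneg_right (mul_le_mul_of_nonneg_left h5 hC) hpe0.le
        linarith
    refine (prod_le_prod (fun p _ => by positivity) h1).trans ?_
    rw [prod_mul_distrib]
    refine mul_le_mul_of_nonneg_right ?_ (prod_nonneg fun p _ => by positivity)
    rw [← prod_filter, prod_const]
    refine pow_le_pow_right₀ (by linarith) (card_le_card ?_)
    intro p hp
    exact (mem_filter.1 hp).2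
  have e1 := hloc 2 (by norm_num)
  have e2 := hloc 1 le_rfl
  simp only [pow_one] at e2
  have e3 := prod_sq_le M (B := C * d) (by positivity)
  have e4 := hM M hM3
  have hS0 : (0 : ℝ) ≤ (1 + C) ^ S.card := by positivity
  have hM1 : (M : ℝ) + 1 ≤ 2 * M := by linarith
  calc ((M : ℝ) + 1) * ∏ p ∈ pz M, (1 + C * (RF F c p).card / (p : ℝ) ^ 2) +
        ∏ p ∈ pz M, (1 + C * (RF F c p).card / (p : ℝ))
      ≤ (2 * M) * ((1 + C) ^ S.card * Real.exp (C * d)) + (1 + C) ^ S.card * (K₁ * M) := by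
        refine add_le_add ?_ ?_
        · refine mul_le_mul hM1 ?_ (prod_nonneg fun p _ => by positivity) (by positivity)
          exact e1.trans (mul_le_mul_of_nonneg_left e3 hS0)
        · exact e2.trans (mul_le_mul_of_nonneg_left e4 hS0)
    _ = _ := by ring

end Pool.Agent.J4.H38.SR2
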