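import Mathlib
import Pool.Agent.J4.H38.SR.Kuhn2

/-! Richert's logarithmic weights with level `499/1000` for numbers up to `N ^ (4/3)`. -/

set_option autoImplicit false

namespace Pool.Agent.J4.H38.SR2

open Finset
open Pool.Agent.W23
open Pool.Agent.W23.DC (tt pr LL MM Siz Mer SF mem_pr siz ind mem_EE)
open Pool.Agent.Y822.Lin (mer_of)
open Pool.Agent.Y822.F (iu sz_eq)
open Pool.Agent.J4.H38.SR (EEx_facts)

/-- the moduli of the error term -/
noncomputable def FR (N : ℕ) (ε₁ : ℝ) : Finset ℕ := by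
  classical
  exact (Icc 1 ⌊(N : ℝ) ^ (499 / 1000 : ℝ)⌋₊).filter
    (fun d => Squarefree d ∧ ∀ p ∈ d.primeFactors, ε₁ ≤ tt N p)

lemma mem_FR {N : ℕ} {ε₁ : ℝ} {d : ℕ} : d ∈ FR N ε₁ ↔ (1 ≤ d ∧ d ≤ ⌊(N : ℝ) ^ (499 / 1000 : ℝ)⌋₊) ∧
    Squarefree d ∧ ∀ p ∈ d.primeFactors, ε₁ ≤ tt N p := by
  classical
  unfold FR
  rw [mem_filter, mem_Icc]

/-- the weight of a prime of logarithmic size `t` -/
noncomputable def wR (t : ℝ) : ℝ := (141 - 300 * t) / 164

lemma wR_bd {t : ℝ} (h1 : 1 / 8 ≤ t) (h2 : t < 47 / 100) : 0 ≤ wR t ∧ wR t ≤ 1 := by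
  unfold wR
  constructor <;> linarith

/-- Richert's weight -/
noncomputable def WR (N : ℕ) (ε₁ : ℝ) (m : ℕ) : ℝ :=
  iu N ε₁ (1 / 8) m * (1 - ∑ q ∈ pr N (1 / 8) (47 / 100), wR (tt N q) * ind m q)

/-- the sifting limit for the multiples of `q` -/
noncomputable def zq (t : ℝ) : ℝ := min (1 / 8) (499 / 1000 - t)

lemma zq_le (t : ℝ) : zq t ≤ 1 / 8 := min_le_left _ _

lemma zq_le' (t : ℝ) : zq t ≤ 499 / 1000 - t := min_le_right _ _

lemma zq_ge {t : ℝ} (h : t < 47 / 100) : 29 / 1000 ≤ zq t := by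
  unfold zq
  rw [le_min_iff]
  constructor <;> linarith

/-- the pointwise inequality -/
theorem WR_ge {N : ℕ} (hN : 2 ≤ N) {ε₁ : ℝ} (K n : ℕ) :
    LL (pr N ε₁ (1 / 8)) (tt N) (ind n) K false (499 / 1000) (1 / 8) 1 -
      ∑ q ∈ pr N (1 / 8) (47 / 100), wR (tt N q) *
        LL (pr N ε₁ (1 / 8)) (tt N) (ind n) K true (499 / 1000 - tt N q) (zq (tt N q)) q ≤
      WR N ε₁ n := by
  classical
  have hS := siz hN ε₁ (1 / 8)
  have h1 := (Pool.Agent.W52.DC.PT (pr N ε₁ (1 / 8)) (tt N) hS n K (499 / 1000) (1 / 8) 1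
    (fun p hp _ h => (hS.pr p hp).one_lt.ne' (Nat.dvd_one.1 h))).2
  have h2 : ∀ q ∈ pr N (1 / 8) (47 / 100), iu N ε₁ (1 / 8) n * ind n q ≤
      LL (pr N ε₁ (1 / 8)) (tt N) (ind n) K true (499 / 1000 - tt N q) (zq (tt N q)) q := by
    intro q hq
    have h3 := (Pool.Agent.W52.DC.PT (pr N ε₁ (1 / 8)) (tt N) hS n K (499 / 1000 - tt N q)
      (zq (tt N q)) q (fun p hp _ h => by
      have h4 := (Nat.prime_dvd_prime_iff_eq (hS.pr p hp) (mem_pr.1 hq).2.1).1 h
      have h5 := (mem_pr.1 hp).2.2.2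
      have h6 := (mem_pr.1 hq).2.2.1
      rw [h4] at h5
      linarith)).1
    refine le_trans ?_ h3
    unfold iu ind
    by_cases h7 : ∀ p ∈ pr N ε₁ (1 / 8), ¬ p ∣ n
    · by_cases h8 : q ∣ n
      · rw [if_pos h7, if_pos h8, if_pos ⟨h8, fun p hp _ => h7 p hp⟩, one_mul]
      · rw [if_neg h8, mul_zero]
        split_ifs <;> norm_num
    · rw [if_neg h7, zero_mul]
      split_ifs <;> norm_num
  have h9 : LL (pr N ε₁ (1 / 8)) (tt N) (ind n) K false (499 / 1000) (1 / 8) 1 ≤ iu N ε₁ (1 / 8) n := by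
    refine h1.trans ?_
    unfold iu
    by_cases h7 : ∀ p ∈ pr N ε₁ (1 / 8), ¬ p ∣ n
    · rw [if_pos h7]
      split_ifs <;> norm_num
    · rw [if_neg h7, if_neg]
      rintro ⟨-, h8⟩
      exact h7 (fun p hp => h8 p hp (mem_pr.1 hp).2.2.2)
  have h10 : ∑ q ∈ pr N (1 / 8) (47 / 100), wR (tt N q) * (iu N ε₁ (1 / 8) n * ind n q) ≤
      ∑ q ∈ pr N (1 / 8) (47 / 100), wR (tt N q) *
        LL (pr N ε₁ (1 / 8)) (tt N) (ind n) K true (499 / 1000 - tt N q) (zq (tt N q)) q := by
    refine Finset.sum_le_sum fun q hq => mul_le_mul_of_nonneg_left (h2 q hq) ?_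
    exact (wR_bd (mem_pr.1 hq).2.2.1 (mem_pr.1 hq).2.2.2).1
  have h11 : WR N ε₁ n = iu N ε₁ (1 / 8) n -
      ∑ q ∈ pr N (1 / 8) (47 / 100), wR (tt N q) * (iu N ε₁ (1 / 8) n * ind n q) := by
    unfold WR
    rw [mul_sub, mul_one, mul_sum]
    congr 1
    refine sum_congr rfl fun q _ => ?_
    ring
  rw [h11]
  linarith

section
variable {N : ℕ} {ε₁ : ℝ}

/-- the first error term -/
theorem errR1 (hN : 2 ≤ N) (r : ℕ → ℝ) :
    ∑ e ∈ DC.EE (pr N ε₁ (1 / 8)) (tt N) (499 / 1000) (1 / 8), |r (1 * e)| ≤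
      ∑ d ∈ FR N ε₁, |r d| := by
  classical
  simp only [one_mul]
  apply Finset.sum_le_sum_of_subset_of_nonneg
  · intro e he
    obtain ⟨h1, h2, h3, h4⟩ := EEx_facts hN (by norm_num) he
    exact mem_FR.2 ⟨⟨h1, Nat.le_floor h3⟩, h2, fun p hp => (h4 p hp).1⟩
  · intro _ _ _
    exact abs_nonneg _

/-- the second error term -/
theorem errR2 (hN : 2 ≤ N) (hε2 : ε₁ ≤ 1 / 40) (r : ℕ → ℝ) :
    ∑ q ∈ pr N (1 / 8) (47 / 100),
      ∑ e ∈ DC.EE (pr N ε₁ (1 / 8)) (tt N) (499 / 1000 - tt N q) (zq (tt N q)), |r (q * e)| ≤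
      ∑ d ∈ FR N ε₁, |r d| := by
  classical
  have hN0 : (0 : ℝ) < N := by exact_mod_cast (by omega : 0 < N)
  have hL : 0 < Real.log N := Real.log_pos (by exact_mod_cast (by omega : 1 < N))
  rw [Finset.sum_sigma' (f := fun q e => |r (q * e)|)]
  have hinj : Set.InjOn (fun x : (_ : ℕ) × ℕ => x.1 * x.2)
      ((pr N (1 / 8) (47 / 100)).sigma
        (fun q => DC.EE (pr N ε₁ (1 / 8)) (tt N) (499 / 1000 - tt N q) (zq (tt N q))) :
          Finset ((_ : ℕ) × ℕ)) := by
    rintro ⟨q, e⟩ hqe ⟨q', e'⟩ hqe' heq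
    rw [mem_coe, mem_sigma] at hqe hqe'
    simp only at hqe hqe' heq
    have hq := mem_pr.1 hqe.1
    have hq' := mem_pr.1 hqe'.1
    obtain ⟨h1, h2, h3, h4⟩ := mem_EE hqe.2
    obtain ⟨h1', h2', h3', h4'⟩ := mem_EE hqe'.2
    have hqq : q = q' := by
      have hd : q ∣ q' * e' := heq ▸ Dvd.intro e rfl
      rcases (hq.2.1.dvd_mul).1 hd with h | h
      · exact (Nat.prime_dvd_prime_iff_eq hq.2.1 hq'.2.1).1 h
      · exfalso
        have := (h3' q (Nat.mem_primeFactors.2 ⟨hq.2.1, h, h1'⟩)).2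
        have h5 := zq_le (tt N q')
        linarith [hq.2.2.1]
    subst hqq
    have : e = e' := Nat.eq_of_mul_eq_mul_left hq.2.1.pos heq
    rw [this]
  calc ∑ x ∈ (pr N (1 / 8) (47 / 100)).sigma
        (fun q => DC.EE (pr N ε₁ (1 / 8)) (tt N) (499 / 1000 - tt N q) (zq (tt N q))), |r (x.1 * x.2)|
      = ∑ d ∈ ((pr N (1 / 8) (47 / 100)).sigma
        (fun q => DC.EE (pr N ε₁ (1 / 8)) (tt N) (499 / 1000 - tt N q) (zq (tt N q)))).image
          (fun x => x.1 * x.2), |r d| := by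
        rw [Finset.sum_image hinj]
    _ ≤ _ := by
        apply Finset.sum_le_sum_of_subset_of_nonneg
        · intro d hd
          rw [mem_image] at hd
          obtain ⟨⟨q, e⟩, hqe, rfl⟩ := hd
          rw [mem_sigma] at hqe
          simp only at hqe ⊢
          have hq := mem_pr.1 hqe.1
          obtain ⟨h1, h2, h3, h4⟩ := EEx_facts hN (by linarith [hq.2.2.2]) hqe.2
          have h9 := zq_le (tt N q)
          have hnd : ¬ q ∣ e := by
            intro h
            have := (h4 q (Nat.mem_primeFactors.2 ⟨hq.2.1, h, by omega⟩)).2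
            linarith [hq.2.2.1]
          have hq0 : (0 : ℝ) < q := by exact_mod_cast hq.2.1.pos
          have hcop : Nat.Coprime q e := (hq.2.1.coprime_iff_not_dvd).2 hnd
          refine mem_FR.2 ⟨⟨Nat.mul_pos hq.2.1.pos h1, Nat.le_floor ?_⟩,
            (Nat.squarefree_mul hcop).2 ⟨hq.2.1.prime.squarefree, h2⟩, ?_⟩
          · push_cast
            have h5 : (q : ℝ) = (N : ℝ) ^ (tt N q) := by
              rw [Real.rpow_def_of_pos hN0]
              unfold tt
              rw [mul_div_cancel₀ _ hL.ne', Real.exp_log hq0]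
            calc (q : ℝ) * e ≤ (N : ℝ) ^ (tt N q) * (N : ℝ) ^ (499 / 1000 - tt N q) := by
                  rw [← h5]
                  exact mul_le_mul_of_nonneg_left h3 hq0.le
              _ = (N : ℝ) ^ (499 / 1000 : ℝ) := by
                  rw [← Real.rpow_add hN0]
                  congr 1
                  ring
          · intro p hp
            rw [Nat.primeFactors_mul hq.2.1.ne_zero (by omega), mem_union, hq.2.1.primeFactors,
              mem_singleton] at hp
            rcases hp with rfl | hp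
            · linarith [hq.2.2.1]
            · exact (h4 p hp).1
        · intro _ _ _
          exact abs_nonneg _

end

/-- the sum over the middle primes -/
noncomputable def JR : ℝ := Real.log (8 / 5) * (27 / 16) + Real.log (3 / 2) * (413 / 250) +
    Real.log (4 / 3) * (1563 / 1000) + Real.log (47 / 40) * (2587 / 2000)

/-- the numerical inequality -/
theorem numR : JR < Real.log (374 / 125) / (499 / 1000) := by
  have a1 : Real.log (8 / 5) ≤ 0.4701 := by
    have h1 := Real.log_two_lt_d9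
    have h2 : Real.log (8 / 5) = 2 * Real.log 2 + Real.log (2 / 5) := by
      rw [show (2 : ℝ) * Real.log 2 = Real.log (2 ^ 2) by rw [Real.log_pow]; norm_num,
        ← Real.log_mul (by norm_num) (by norm_num)]
      norm_num
    have h3 : Real.log ((8 / 5) ^ 3) ≤ Real.log (2 ^ 2 * (128 / 125)) :=
      Real.log_le_log (by norm_num) (by norm_num)
    rw [Real.log_pow, Real.log_mul (by norm_num) (by norm_num), Real.log_pow] at h3
    have h4 := Real.log_le_sub_one_of_pos (by norm_num : (0 : ℝ) < 128 / 125)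
    push_cast at h3
    linarith
  have a2 : Real.log (3 / 2) ≤ 0.4056 := by
    have h1 := Real.log_two_lt_d9
    have h3 : Real.log ((3 / 2) ^ 12) ≤ Real.log (2 ^ 7 * (1014 / 1000)) :=
      Real.log_le_log (by norm_num) (by norm_num)
    rw [Real.log_pow, Real.log_mul (by norm_num) (by norm_num), Real.log_pow] at h3
    have h4 := Real.log_le_sub_one_of_pos (by norm_num : (0 : ℝ) < 1014 / 1000)
    push_cast at h3
    linarith
  have a3 : Real.log (4 / 3) ≤ 0.2884 := by
    have h1 := Real.log_two_lt_d9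
    have h3 : Real.log ((4 / 3) ^ 5) ≤ Real.log (2 ^ 2 * (1054 / 1000)) :=
      Real.log_le_log (by norm_num) (by norm_num)
    rw [Real.log_pow, Real.log_mul (by norm_num) (by norm_num), Real.log_pow] at h3
    have h4 : Real.log (1054 / 1000) ≤ 0.0556 := by
      rw [Real.log_le_iff_le_exp (by norm_num)]
      have := Real.quadratic_le_exp_of_nonneg (by norm_num : (0 : ℝ) ≤ 0.0556)
      refine le_trans ?_ this
      norm_num
    push_cast at h3
    linarith
  have a4 : Real.log (47 / 40) ≤ 0.1620 := by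
    rw [Real.log_le_iff_le_exp (by norm_num)]
    have := Real.quadratic_le_exp_of_nonneg (by norm_num : (0 : ℝ) ≤ 0.1620)
    refine le_trans ?_ this
    norm_num
  have b1 : 1.0892 ≤ Real.log (374 / 125) := by
    have h1 := Real.log_two_gt_d9
    have h3 : Real.log (2 ^ 3 * (111 / 100)) ≤ Real.log ((374 / 125) ^ 2) :=
      Real.log_le_log (by norm_num) (by norm_num)
    rw [Real.log_pow, Real.log_mul (by norm_num) (by norm_num), Real.log_pow] at h3
    have h4 := Real.one_sub_inv_le_log_of_pos (x := 111 / 100) (by norm_num)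
    have h5 : (1 : ℝ) - (111 / 100)⁻¹ = 11 / 111 := by norm_num
    rw [h5] at h4
    push_cast at h3
    linarith
  have e5 : 1.0892 / (499 / 1000) ≤ Real.log (374 / 125) / (499 / 1000) :=
    div_le_div_of_nonneg_right b1 (by norm_num)
  refine lt_of_lt_of_le ?_ e5
  unfold JR
  norm_num
  linarith

end Pool.Agent.J4.H38.SR2
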