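import Mathlib
import Pool.Agent.J4.H38.SR2.Ri1

/-! Richert's logarithmic weights: the lower bound. -/

set_option autoImplicit false

namespace Pool.Agent.J4.H38.SR2

open Finset
open Pool.Agent.W23
open Pool.Agent.W23.DC (tt pr LL MM Siz Mer SF mem_pr siz ind mem_EE)
open Pool.Agent.Y822.Lin (mer_of)
open Pool.Agent.Y822.F (iu sz_eq)

/-- the sum over the middle primes -/
theorem sumR (η : ℝ) (hη : 0 < η) : ∃ N₀ : ℕ, ∀ N : ℕ, N₀ ≤ N →
    ∑ q ∈ pr N (1 / 8) (47 / 100), 1 / (q : ℝ) * (wR (tt N q) * (1 / (499 / 1000 - tt N q))) ≤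
      JR + 8 * η ∧
    ∑ q ∈ pr N (1 / 8) (47 / 100), 1 / (q : ℝ) ≤ 2 + η := by
  classical
  obtain ⟨N₀, H⟩ := mer_of (1 / 8) (47 / 100) η (by norm_num) (by norm_num) hη
  refine ⟨N₀, fun N hN => ?_⟩
  have H' := H N hN
  have h1 := (abs_le.1 (H' (1 / 8) (1 / 5) (by norm_num) (by norm_num) (by norm_num))).2
  have h2 := (abs_le.1 (H' (1 / 5) (3 / 10) (by norm_num) (by norm_num) (by norm_num))).2
  have h3 := (abs_le.1 (H' (3 / 10) (2 / 5) (by norm_num) (by norm_num) (by norm_num))).2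
  have h4 := (abs_le.1 (H' (2 / 5) (47 / 100) (by norm_num) (by norm_num) (by norm_num))).2
  have h5 := (abs_le.1 (H' (1 / 8) (47 / 100) (by norm_num) (by norm_num) (by norm_num))).2
  rw [show (1 / 5 / (1 / 8) : ℝ) = 8 / 5 by norm_num] at h1
  rw [show (3 / 10 / (1 / 5) : ℝ) = 3 / 2 by norm_num] at h2
  rw [show (2 / 5 / (3 / 10) : ℝ) = 4 / 3 by norm_num] at h3
  rw [show (47 / 100 / (2 / 5) : ℝ) = 47 / 40 by norm_num] at h4
  rw [show (47 / 100 / (1 / 8) : ℝ) = 94 / 25 by norm_num] at h5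
  set Q := pr N (1 / 8) (47 / 100) with hQ
  constructor
  · have hpt : ∀ q ∈ Q, 1 / (q : ℝ) * (wR (tt N q) * (1 / (499 / 1000 - tt N q))) ≤
        ((if 1 / 8 ≤ tt N q ∧ tt N q < 1 / 5 then 1 / (q : ℝ) else 0) * (27 / 16) +
        (if 1 / 5 ≤ tt N q ∧ tt N q < 3 / 10 then 1 / (q : ℝ) else 0) * (413 / 250)) +
        ((if 3 / 10 ≤ tt N q ∧ tt N q < 2 / 5 then 1 / (q : ℝ) else 0) * (1563 / 1000) +
        (if 2 / 5 ≤ tt N q ∧ tt N q < 47 / 100 then 1 / (q : ℝ) else 0) * (2587 / 2000)) := by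
      intro q hq
      have hq1 := (mem_pr.1 hq).2.2.1
      have hq2 := (mem_pr.1 hq).2.2.2
      have hq0 : (0 : ℝ) ≤ 1 / (q : ℝ) := by positivity
      have hpos : 0 < 499 / 1000 - tt N q := by linarith
      have key : ∀ b : ℝ, wR (tt N q) ≤ b * (499 / 1000 - tt N q) →
          1 / (q : ℝ) * (wR (tt N q) * (1 / (499 / 1000 - tt N q))) ≤ 1 / (q : ℝ) * b := by
        intro b hb
        refine mul_le_mul_of_nonneg_left ?_ hq0
        rw [mul_one_div, div_le_iff₀ hpos]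
        exact hb
      have n1 : ∀ (P : Prop) [Decidable P] (c : ℝ), 0 ≤ c →
          0 ≤ (if P then 1 / (q : ℝ) else 0) * c := by
        intro P _ c hc
        split_ifs
        · exact mul_nonneg hq0 hc
        · simp
      have m1 := n1 (1 / 8 ≤ tt N q ∧ tt N q < 1 / 5) (27 / 16) (by norm_num)
      have m2 := n1 (1 / 5 ≤ tt N q ∧ tt N q < 3 / 10) (413 / 250) (by norm_num)
      have m3 := n1 (3 / 10 ≤ tt N q ∧ tt N q < 2 / 5) (1563 / 1000) (by norm_num)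
      have m4 := n1 (2 / 5 ≤ tt N q ∧ tt N q < 47 / 100) (2587 / 2000) (by norm_num)
      rcases lt_or_ge (tt N q) (1 / 5) with g1 | g1
      · have := key (27 / 16) (by unfold wR; linarith)
        rw [if_pos (⟨hq1, g1⟩ : 1 / 8 ≤ tt N q ∧ tt N q < 1 / 5)] at m1 ⊢
        linarith
      rcases lt_or_ge (tt N q) (3 / 10) with g2 | g2
      · have := key (413 / 250) (by unfold wR; linarith)
        rw [if_pos (⟨g1, g2⟩ : 1 / 5 ≤ tt N q ∧ tt N q < 3 / 10)] at m2 ⊢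
        linarith
      rcases lt_or_ge (tt N q) (2 / 5) with g3 | g3
      · have := key (1563 / 1000) (by unfold wR; linarith)
        rw [if_pos (⟨g2, g3⟩ : 3 / 10 ≤ tt N q ∧ tt N q < 2 / 5)] at m3 ⊢
        linarith
      · have := key (2587 / 2000) (by unfold wR; linarith)
        rw [if_pos (⟨g3, hq2⟩ : 2 / 5 ≤ tt N q ∧ tt N q < 47 / 100)] at m4 ⊢
        linarith
    refine (sum_le_sum hpt).trans ?_
    rw [sum_add_distrib, sum_add_distrib, sum_add_distrib, ← sum_mul, ← sum_mul, ← sum_mul, ← sum_mul,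
      ← sum_filter, ← sum_filter, ← sum_filter, ← sum_filter]
    have k1 := mul_le_mul_of_nonneg_right h1 (by norm_num : (0 : ℝ) ≤ 27 / 16)
    have k2 := mul_le_mul_of_nonneg_right h2 (by norm_num : (0 : ℝ) ≤ 413 / 250)
    have k3 := mul_le_mul_of_nonneg_right h3 (by norm_num : (0 : ℝ) ≤ 1563 / 1000)
    have k4 := mul_le_mul_of_nonneg_right h4 (by norm_num : (0 : ℝ) ≤ 2587 / 2000)
    unfold JR
    linarith
  · have e : Q.filter (fun p => 1 / 8 ≤ tt N p ∧ tt N p < 47 / 100) = Q := by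
      refine filter_true_of_mem fun q hq => ?_
      exact (mem_pr.1 hq).2.2
    rw [e] at h5
    have h6 : Real.log (94 / 25) ≤ 2 := by
      have h7 : Real.log (94 / 25) = Real.log 2 + Real.log (47 / 25) := by
        rw [← Real.log_mul (by norm_num) (by norm_num)]
        norm_num
      have h8 := Real.log_le_sub_one_of_pos (by norm_num : (0 : ℝ) < 47 / 25)
      have h9 := Real.log_two_lt_d9
      linarith
    linarith

/-- **the weighted sieve** -/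
theorem lowR : ∃ c₀ : ℝ, 0 < c₀ ∧ ∀ ε₁ : ℝ, 0 < ε₁ → ε₁ ≤ 1 / 40 → ∃ N₀ : ℕ, ∀ N : ℕ, N₀ ≤ N →
      ∀ (Ω : Finset ℕ) (w : ℕ → ℝ) (m : ℕ → ℕ) (X : ℝ), (∀ n ∈ Ω, 0 ≤ w n) → 0 ≤ X →
      c₀ * ε₁ * X - 2 * ∑ d ∈ FR N ε₁, |(∑ n ∈ Ω, w n * ind (m n) d) - X * (1 / (d : ℝ))| ≤
        ∑ n ∈ Ω, w n * WR N ε₁ (m n) := by
  classical
  obtain ⟨A0, F, f, hS⟩ := Pool.Agent.W366.DC.SFX
  obtain ⟨Z, hZ⟩ : ∃ Z : ℝ, Z = Real.log (374 / 125) / (499 / 1000) := ⟨_, rfl⟩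
  have hJZ : JR < Z := by rw [hZ]; exact numR
  obtain ⟨c₂, hc₂⟩ : ∃ c₂ : ℝ, c₂ = Z - JR := ⟨_, rfl⟩
  have hc₂0 : 0 < c₂ := by rw [hc₂]; linarith
  have hA0 := hS.pos
  refine ⟨A0 * c₂ / 2, by positivity, ?_⟩
  intro ε₁ hε hε2
  obtain ⟨η, hη0, HM⟩ := Pool.Agent.W505.DC.MT Pool.Agent.W505.DC.MI A0 F f hS ε₁ (ε₁ * A0 * c₂ / 32)
    ⌈1 / ε₁⌉₊ hε (by linarith) (by positivity)
  obtain ⟨N₁, hN₁⟩ := mer_of ε₁ (1 / 8) η hε (by norm_num) hη0
  obtain ⟨N₂, hN₂⟩ := sumR (min (c₂ / 40) 1) (lt_min (by positivity) one_pos)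
  refine ⟨max (max N₁ N₂) 2, ?_⟩
  intro N hN Ω w m X hw hX
  have hNN₁ : N₁ ≤ N := ((le_max_left _ _).trans (le_max_left _ _)).trans hN
  have hNN₂ : N₂ ≤ N := ((le_max_right _ _).trans (le_max_left _ _)).trans hN
  have hN2 : 2 ≤ N := (le_max_right _ _).trans hN
  set P := pr N ε₁ (1 / 8) with hP
  set Q := pr N (1 / 8) (47 / 100) with hQ
  set g : ℕ → ℝ := fun p => 1 / (p : ℝ) with hg
  set K := ⌈1 / ε₁⌉₊ with hK
  set r : ℕ → ℝ := fun e => (∑ n ∈ Ω, w n * ind (m n) e) - X * (1 / (e : ℝ)) with hr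
  set R := ∑ d ∈ FR N ε₁, |r d| with hR
  have hR0 : 0 ≤ R := Finset.sum_nonneg fun _ _ => abs_nonneg _
  have hKε : 1 ≤ (K + 2) * ε₁ := by
    have h1 : 1 / ε₁ ≤ K := Nat.le_ceil _
    have h2 : 1 / ε₁ * ε₁ = 1 := by field_simp
    nlinarith
  have hg0 : ∀ p ∈ P, 0 ≤ g p := fun p _ => by rw [hg]; positivity
  have HM' := HM P (tt N) g (1 / 8) (by norm_num) hg0 (fun p hp => (mem_pr.1 hp).2.2.1)
    (hN₁ N hNN₁) K le_rfl
  have hwQ : ∀ q ∈ Q, 0 ≤ wR (tt N q) ∧ wR (tt N q) ≤ 1 := fun q hq =>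
    wR_bd (mem_pr.1 hq).2.2.1 (mem_pr.1 hq).2.2.2
  -- the main terms
  have hminus : ε₁ * A0 * Z - ε₁ * A0 * c₂ / 32 ≤ MM P (tt N) g K false (499 / 1000) (1 / 8) := by
    have h1 := (HM' (499 / 1000) (1 / 8) (by linarith) (by linarith) le_rfl (by norm_num)
      (by norm_num)).2 (by norm_num)
    have h2 : ε₁ / (1 / 8) * f (499 / 1000 / (1 / 8)) = ε₁ * A0 * Z := by
      rw [hS.f4 _ (by norm_num) (by norm_num), hZ]
      have : (499 / 1000 / (1 / 8) - 1 : ℝ) = 374 / 125 := by norm_num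
      rw [this]
      ring
    rw [h2] at h1
    exact h1
  have hplus : ∀ q ∈ Q, MM P (tt N) g K true (499 / 1000 - tt N q) (zq (tt N q)) ≤
      ε₁ * A0 * (1 / (499 / 1000 - tt N q)) + ε₁ * A0 * c₂ / 32 := by
    intro q hq
    have hq1 := (mem_pr.1 hq).2.2.1
    have hq2 := (mem_pr.1 hq).2.2.2
    have hz1 := zq_le (tt N q)
    have hz2 := zq_le' (tt N q)
    have hz3 := zq_ge hq2
    have h5 := (HM' (499 / 1000 - tt N q) (zq (tt N q)) (by linarith) (by linarith) hz1 hz2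
      (by linarith)).1
    have h6 : 0 < 499 / 1000 - tt N q := by linarith
    have hz0 : 0 < zq (tt N q) := by linarith
    have h7 : ε₁ / zq (tt N q) * F ((499 / 1000 - tt N q) / zq (tt N q)) =
        ε₁ * A0 * (1 / (499 / 1000 - tt N q)) := by
      rw [hS.F3 _ ((one_le_div hz0).2 hz2) ((div_le_iff₀ hz0).2 ?_)]
      · field_simp
      · have h8 : zq (tt N q) = 1 / 8 ∨ zq (tt N q) = 499 / 1000 - tt N q := by
          unfold zq
          exact min_choice _ _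
        rcases h8 with h8 | h8
        · rw [h8]; linarith
        · rw [h8]; linarith
    rw [h7] at h5
    exact h5
  -- the recursion, summed
  have e1 := Pool.Agent.Y822.F.LL_eq hN2 (ε₁ := ε₁) (w := 1 / 8) Ω w m X K false (499 / 1000) (1 / 8) 1
    (fun p hp _ h => (mem_pr.1 hp).2.1.one_lt.ne' (Nat.dvd_one.1 h))
  have e2 : ∀ q ∈ Q, ∑ n ∈ Ω, w n *
      LL P (tt N) (ind (m n)) K true (499 / 1000 - tt N q) (zq (tt N q)) q =
      X * (1 / (q : ℝ) * MM P (tt N) g K true (499 / 1000 - tt N q) (zq (tt N q))) +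
        LL P (tt N) r K true (499 / 1000 - tt N q) (zq (tt N q)) q := by
    intro q hq
    exact Pool.Agent.Y822.F.LL_eq hN2 (ε₁ := ε₁) (w := 1 / 8) Ω w m X K true (499 / 1000 - tt N q)
      (zq (tt N q)) q
      (fun p hp _ h => by
      have h4 := (Nat.prime_dvd_prime_iff_eq (mem_pr.1 hp).2.1 (mem_pr.1 hq).2.1).1 h
      have h5 := (mem_pr.1 hp).2.2.2
      have h6 := (mem_pr.1 hq).2.2.1
      rw [h4] at h5
      linarith)
  have hsum : ∑ n ∈ Ω, w n * (LL P (tt N) (ind (m n)) K false (499 / 1000) (1 / 8) 1 -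
      ∑ q ∈ Q, wR (tt N q) *
        LL P (tt N) (ind (m n)) K true (499 / 1000 - tt N q) (zq (tt N q)) q) ≤
      ∑ n ∈ Ω, w n * WR N ε₁ (m n) :=
    Finset.sum_le_sum fun n hn => mul_le_mul_of_nonneg_left (WR_ge hN2 K _) (hw n hn)
  have hsplit : ∑ n ∈ Ω, w n * (LL P (tt N) (ind (m n)) K false (499 / 1000) (1 / 8) 1 -
      ∑ q ∈ Q, wR (tt N q) *
        LL P (tt N) (ind (m n)) K true (499 / 1000 - tt N q) (zq (tt N q)) q) =
      ∑ n ∈ Ω, w n * LL P (tt N) (ind (m n)) K false (499 / 1000) (1 / 8) 1 -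
      ∑ q ∈ Q, wR (tt N q) * ∑ n ∈ Ω, w n *
        LL P (tt N) (ind (m n)) K true (499 / 1000 - tt N q) (zq (tt N q)) q := by
    simp only [mul_sub, Finset.sum_sub_distrib, Finset.mul_sum]
    congr 1
    rw [Finset.sum_comm]
    refine sum_congr rfl fun q _ => sum_congr rfl fun n _ => ?_
    ring
  rw [hsplit] at hsum
  have e3 : ∑ q ∈ Q, wR (tt N q) * ∑ n ∈ Ω, w n *
        LL P (tt N) (ind (m n)) K true (499 / 1000 - tt N q) (zq (tt N q)) q =
      ∑ q ∈ Q, X * (wR (tt N q) * (1 / (q : ℝ) *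
        MM P (tt N) g K true (499 / 1000 - tt N q) (zq (tt N q)))) +
      ∑ q ∈ Q, wR (tt N q) * LL P (tt N) r K true (499 / 1000 - tt N q) (zq (tt N q)) q := by
    rw [← Finset.sum_add_distrib]
    refine sum_congr rfl fun q hq => ?_
    rw [e2 q hq]
    ring
  rw [e3, e1] at hsum
  -- the errors
  have hE1 : |LL P (tt N) r K false (499 / 1000) (1 / 8) 1| ≤ R :=
    (Pool.Agent.W586.DC.ER P (tt N) (siz hN2 _ _) r K false (499 / 1000) (1 / 8) 1 (by norm_num)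
      (fun _ => by norm_num)).trans (errR1 hN2 r)
  have hE2 : ∑ q ∈ Q, wR (tt N q) * LL P (tt N) r K true (499 / 1000 - tt N q) (zq (tt N q)) q ≤ R := by
    refine le_trans (sum_le_sum fun q hq => ?_) (errR2 hN2 hε2 r)
    have h1 := Pool.Agent.W586.DC.ER P (tt N) (siz hN2 _ _) r K true (499 / 1000 - tt N q) (zq (tt N q)) q
      (by have := (mem_pr.1 hq).2.2.2; linarith) (fun h => by simp at h)
    have h2 : wR (tt N q) * LL P (tt N) r K true (499 / 1000 - tt N q) (zq (tt N q)) q ≤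
        |LL P (tt N) r K true (499 / 1000 - tt N q) (zq (tt N q)) q| := by
      calc _ ≤ |wR (tt N q) * LL P (tt N) r K true (499 / 1000 - tt N q) (zq (tt N q)) q| :=
            le_abs_self _
        _ = wR (tt N q) * |LL P (tt N) r K true (499 / 1000 - tt N q) (zq (tt N q)) q| := by
            rw [abs_mul, abs_of_nonneg (hwQ q hq).1]
        _ ≤ 1 * |LL P (tt N) r K true (499 / 1000 - tt N q) (zq (tt N q)) q| :=
            mul_le_mul_of_nonneg_right (hwQ q hq).2 (abs_nonneg _)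
        _ = _ := one_mul _
    exact h2.trans h1
  -- the sum over `q`
  obtain ⟨hq1, hq2⟩ := hN₂ N hNN₂
  have hm1 : min (c₂ / 40) 1 ≤ c₂ / 40 := min_le_left _ _
  have hm2 : min (c₂ / 40) 1 ≤ 1 := min_le_right _ _
  have hq3 : ∑ q ∈ Q, X * (wR (tt N q) * (1 / (q : ℝ) *
        MM P (tt N) g K true (499 / 1000 - tt N q) (zq (tt N q)))) ≤
      X * (ε₁ * A0 * (JR + 8 * (c₂ / 40)) + ε₁ * A0 * c₂ / 32 * 3) := by
    calc ∑ q ∈ Q, X * (wR (tt N q) * (1 / (q : ℝ) *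
          MM P (tt N) g K true (499 / 1000 - tt N q) (zq (tt N q))))
        ≤ ∑ q ∈ Q, X * (ε₁ * A0 * (1 / (q : ℝ) * (wR (tt N q) * (1 / (499 / 1000 - tt N q)))) +
            ε₁ * A0 * c₂ / 32 * (1 / (q : ℝ))) := by
          apply Finset.sum_le_sum
          intro q hq
          have h1 := hplus q hq
          have h4 : (0 : ℝ) ≤ 1 / (q : ℝ) := by positivity
          obtain ⟨h5, h6⟩ := hwQ q hq
          refine mul_le_mul_of_nonneg_left ?_ hX
          have h2 := mul_le_mul_of_nonneg_left h1 (mul_nonneg h5 h4)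
          have h7 : wR (tt N q) * (1 / (q : ℝ)) * (ε₁ * A0 * c₂ / 32) ≤
              1 * (1 / (q : ℝ)) * (ε₁ * A0 * c₂ / 32) := by gcongr
          linarith
      _ = X * (ε₁ * A0 * (∑ q ∈ Q, 1 / (q : ℝ) * (wR (tt N q) * (1 / (499 / 1000 - tt N q)))) +
            ε₁ * A0 * c₂ / 32 * (∑ q ∈ Q, 1 / (q : ℝ))) := by
          rw [← Finset.mul_sum, Finset.sum_add_distrib, ← Finset.mul_sum, ← Finset.mul_sum]
      _ ≤ _ := by
          have h1 : 0 ≤ ε₁ * A0 := by positivity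
          have h2 : 0 ≤ ε₁ * A0 * c₂ / 32 := by positivity
          have h3 : ∑ q ∈ Q, 1 / (q : ℝ) * (wR (tt N q) * (1 / (499 / 1000 - tt N q))) ≤
              JR + 8 * (c₂ / 40) := by linarith
          have h4 : ∑ q ∈ Q, 1 / (q : ℝ) ≤ 3 := by linarith
          gcongr
  have hmain : X * (ε₁ * A0 * Z - ε₁ * A0 * c₂ / 32) ≤
      X * (1 / ((1 : ℕ) : ℝ) * MM P (tt N) g K false (499 / 1000) (1 / 8)) := by
    apply mul_le_mul_of_nonneg_left _ hX
    norm_num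
    linarith
  have hE1' := (abs_le.1 hE1).1
  have hfin : A0 * c₂ / 2 * ε₁ * X ≤
      X * (ε₁ * A0 * Z - ε₁ * A0 * c₂ / 32) -
      X * (ε₁ * A0 * (JR + 8 * (c₂ / 40)) + ε₁ * A0 * c₂ / 32 * 3) := by
    have h1 : X * (ε₁ * A0 * Z - ε₁ * A0 * c₂ / 32) -
      X * (ε₁ * A0 * (JR + 8 * (c₂ / 40)) + ε₁ * A0 * c₂ / 32 * 3) =
        X * (ε₁ * A0 * c₂) * (1 - 1 / 32 - 1 / 5 - 3 / 32) := by
      rw [hc₂]
      ring
    rw [h1]
    have h2 : 0 ≤ X * (ε₁ * A0 * c₂) := by positivity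
    nlinarith
  linarith

end Pool.Agent.J4.H38.SR2
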