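import Mathlib
import Pool.Agent.J4.H38.SR2.Ri2
import Pool.Agent.J4.H38.SR.Kuhn3

/-! Richert's logarithmic weights: one shift. -/

set_option autoImplicit false

namespace Pool.Agent.J4.H38.SR2

open Finset
open Pool.Agent.Y822
open Pool.Agent.W23
open Pool.Agent.W23.DC (tt pr mem_pr ind)
open Pool.Agent.Y822.F (iu)
open Pool.Agent.J4.H38.SR

/-- the number of the prime factors -/
theorem structR {N m : ℕ} (hN : 2 ≤ N) (hm : m ≠ 0) (hm2 : (m : ℝ) ≤ (N : ℝ) ^ (4 / 3 : ℝ))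
    (hsq : Squarefree m) (hbig : ∀ p ∈ m.primeFactors, (N : ℝ) ^ (1 / 8 : ℝ) ≤ p)
    (hS : ∑ q ∈ pr N (1 / 8) (47 / 100), wR (tt N q) * ind m q < 1) :
    m.primeFactorsList.length ≤ 3 := by
  classical
  have hN1 : (1 : ℝ) < N := by exact_mod_cast (by omega : 1 < N)
  have hN0 : (0 : ℝ) < N := by linarith
  have hL : 0 < Real.log N := Real.log_pos hN1
  have hlen : m.primeFactorsList.length = m.primeFactors.card := by
    rw [Nat.primeFactors, List.toFinset_card_of_nodup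
      ((Nat.squarefree_iff_nodup_primeFactorsList hm).1 hsq)]
  rw [hlen]
  by_contra hc
  push Not at hc
  have hcr : (4 : ℝ) ≤ m.primeFactors.card := by exact_mod_cast hc
  -- the sum of the sizes
  have h1 : ∑ q ∈ m.primeFactors, tt N q ≤ 4 / 3 := by
    have h2 : ∑ q ∈ m.primeFactors, tt N q = Real.log m / Real.log N := by
      unfold tt
      rw [← sum_div]
      congr 1
      have h3 : (m : ℝ) = ∏ q ∈ m.primeFactors, (q : ℝ) := by
        conv_lhs => rw [← Nat.prod_primeFactors_of_squarefree hsq]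
        push_cast
        rfl
      rw [h3, Real.log_prod]
      intro q hq
      have := (Nat.prime_of_mem_primeFactors hq).pos
      positivity
    rw [h2, div_le_iff₀ hL, ← Real.log_rpow hN0]
    exact Real.log_le_log (by exact_mod_cast Nat.pos_of_ne_zero hm) hm2
  have h2 : ∑ q ∈ m.primeFactors, wR (tt N q) ≤ ∑ q ∈ pr N (1 / 8) (47 / 100), wR (tt N q) * ind m q := by
    have h3 : ∑ q ∈ pr N (1 / 8) (47 / 100), wR (tt N q) * ind m q =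
        ∑ q ∈ (pr N (1 / 8) (47 / 100)).filter (fun q => q ∣ m), wR (tt N q) := by
      rw [sum_filter]
      refine sum_congr rfl fun q _ => ?_
      unfold ind
      split_ifs <;> simp
    have h4 : (pr N (1 / 8) (47 / 100)).filter (fun q => q ∣ m) =
        m.primeFactors.filter (fun q => tt N q < 47 / 100) := by
      ext q
      rw [mem_filter, mem_filter, mem_pr, Nat.mem_primeFactors]
      constructor
      · rintro ⟨⟨_, h5, _, h6⟩, h7⟩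
        exact ⟨⟨h5, h7, hm⟩, h6⟩
      · rintro ⟨⟨h5, h6, _⟩, h7⟩
        have h8 := hbig q (Nat.mem_primeFactors.2 ⟨h5, h6, hm⟩)
        refine ⟨⟨⟨h5.pos, ?_⟩, h5, (DC.le_tt_iff hN h5.pos _).2 h8, h7⟩, h6⟩
        have h9 := (DC.tt_lt_iff hN h5.pos _).1 h7
        have h10 : (q : ℝ) ≤ N := by
          calc (q : ℝ) ≤ (N : ℝ) ^ (47 / 100 : ℝ) := h9.le
            _ ≤ (N : ℝ) ^ (1 : ℝ) := Real.rpow_le_rpow_of_exponent_le hN1.le (by norm_num)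
            _ = N := Real.rpow_one _
        exact_mod_cast h10
    rw [h3, h4]
    have h5 := sum_filter_add_sum_filter_not m.primeFactors (fun q => tt N q < 47 / 100)
      (fun q => wR (tt N q))
    have h6 : ∑ q ∈ m.primeFactors.filter (fun q => ¬ tt N q < 47 / 100), wR (tt N q) ≤ 0 := by
      refine sum_nonpos fun q hq => ?_
      have h7 := not_lt.1 (mem_filter.1 hq).2
      unfold wR
      linarith
    linarith
  have h3 : ∑ q ∈ m.primeFactors, wR (tt N q) =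
      (141 * m.primeFactors.card - 300 * ∑ q ∈ m.primeFactors, tt N q) / 164 := by
    unfold wR
    rw [← sum_div, sum_sub_distrib, sum_const, nsmul_eq_mul, ← mul_sum]
    ring
  rw [h3] at h2
  linarith

/-- from a positive weight to an almost prime -/
theorem ptwR {N y : ℕ} {κ : ℝ} (hN : 2 ≤ N) (hy : (N : ℝ) ^ κ ≤ y + 1)
    {m : ℕ} (hm : m ≠ 0) (hm2 : (m : ℝ) ≤ (N : ℝ) ^ (4 / 3 : ℝ)) :
    ro y m * WR N κ m ≤ g3 N m + bq8 N m := by
  classical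
  have hN1 : (1 : ℝ) ≤ N := by exact_mod_cast (by omega : 1 ≤ N)
  have hg := g3_bd N m
  have hb := bq8_nonneg N m
  by_cases hro : Ro y m
  swap
  · unfold ro
    rw [if_neg hro, zero_mul]
    linarith
  have h1 : ro y m = 1 := by unfold ro; rw [if_pos hro]
  rw [h1, one_mul]
  by_cases hiu : ∀ p ∈ pr N κ (1 / 8), ¬ p ∣ m
  swap
  · unfold WR iu
    rw [if_neg hiu, zero_mul]
    linarith
  have h2 : WR N κ m = 1 - ∑ q ∈ pr N (1 / 8) (47 / 100), wR (tt N q) * ind m q := by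
    unfold WR iu
    rw [if_pos hiu, one_mul]
  have hs0 : 0 ≤ ∑ q ∈ pr N (1 / 8) (47 / 100), wR (tt N q) * ind m q := by
    refine sum_nonneg fun q hq => mul_nonneg (wR_bd (mem_pr.1 hq).2.2.1 (mem_pr.1 hq).2.2.2).1 ?_
    unfold ind
    split_ifs <;> norm_num
  by_cases hq : ∃ q : ℕ, q.Prime ∧ (N : ℝ) ^ (1 / 8 : ℝ) ≤ q ∧ q ^ 2 ∣ m
  · have hbq : bq8 N m = 1 := if_pos hq
    rw [h2, hbq]
    linarith
  rcases le_or_gt 1 (∑ q ∈ pr N (1 / 8) (47 / 100), wR (tt N q) * ind m q) with hc | hc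
  · rw [h2]
    linarith
  have hbig : ∀ p ∈ m.primeFactors, (N : ℝ) ^ (1 / 8 : ℝ) ≤ p := by
    intro p hp
    have hpp := Nat.prime_of_mem_primeFactors hp
    have hpm := Nat.dvd_of_mem_primeFactors hp
    by_contra hlt
    push Not at hlt
    have hpy : y < p := by
      by_contra h
      exact hro p hpp (by omega) hpm
    have hpk : (N : ℝ) ^ κ ≤ p := by
      have : (y : ℝ) + 1 ≤ p := by exact_mod_cast hpy
      linarith
    have hpN : p ≤ N := by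
      have : (p : ℝ) ≤ N := by
        calc (p : ℝ) ≤ (N : ℝ) ^ (1 / 8 : ℝ) := hlt.le
          _ ≤ (N : ℝ) ^ (1 : ℝ) := Real.rpow_le_rpow_of_exponent_le hN1 (by norm_num)
          _ = N := Real.rpow_one _
      exact_mod_cast this
    exact hiu p (mem_pr.2 ⟨⟨hpp.pos, hpN⟩, hpp, (DC.le_tt_iff hN hpp.pos κ).2 hpk,
      (DC.tt_lt_iff hN hpp.pos _).2 hlt⟩) hpm
  have hsq : Squarefree m := by
    rw [Nat.squarefree_iff_prime_squarefree]
    intro q hqp hqm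
    refine hq ⟨q, hqp, hbig q (Nat.mem_primeFactors.2 ⟨hqp, (dvd_mul_right q q).trans hqm, hm⟩), ?_⟩
    rw [sq]
    exact hqm
  have hg1 : g3 N m = 1 := by
    unfold g3
    rw [if_pos ⟨hm, structR hN hm hm2 hsq hbig hc, hbig⟩]
  rw [hg1, h2]
  linarith

open Classical in
/-- numbers `n ≤ N` such that `n + t` is divisible by the square of a large prime -/
theorem squaresR {N : ℕ} (hN : 2 ≤ N) (t : ℕ) (ht : ((N + t : ℕ) : ℝ) ≤ (N : ℝ) ^ (4 / 3 : ℝ)) :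
    ∑ n ∈ Icc 1 N, bq8 N (n + t) ≤ 12 * (N : ℝ) ^ (7 / 8 : ℝ) := by
  have hN1 : (1 : ℝ) ≤ N := by exact_mod_cast (by omega : 1 ≤ N)
  have hN0 : (0 : ℝ) < N := by linarith
  have hy1 : (1 : ℝ) ≤ (N : ℝ) ^ (1 / 8 : ℝ) := Real.one_le_rpow hN1 (by norm_num)
  obtain ⟨k, hk⟩ : ∃ k : ℕ, k + 1 = ⌈(N : ℝ) ^ (1 / 8 : ℝ)⌉₊ := by
    have : 0 < ⌈(N : ℝ) ^ (1 / 8 : ℝ)⌉₊ := Nat.ceil_pos.2 (by linarith)
    exact ⟨⌈(N : ℝ) ^ (1 / 8 : ℝ)⌉₊ - 1, by omega⟩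
  obtain ⟨B, hB⟩ : ∃ B : ℕ, B = ⌊(N : ℝ) ^ (2 / 3 : ℝ)⌋₊ := ⟨_, rfl⟩
  have h0 : ∀ n ∈ Icc 1 N, bq8 N (n + t) ≤
      ∑ q ∈ Ioo k (B + 1), (if q ^ 2 ∣ n + t then (1 : ℝ) else 0) := by
    intro n hn
    rw [mem_Icc] at hn
    unfold bq8
    split_ifs with h
    · obtain ⟨q, hq, hqN, hqd⟩ := h
      have h1 : q ^ 2 ≤ n + t := Nat.le_of_dvd (by omega) hqd
      have h6 : ⌈(N : ℝ) ^ (1 / 8 : ℝ)⌉₊ ≤ q := Nat.ceil_le.2 hqN
      have h8 : q ≤ B := by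
        rw [hB]
        refine Nat.le_floor ?_
        have h9 : ((q : ℝ)) ^ 2 ≤ ((N : ℝ) ^ (2 / 3 : ℝ)) ^ 2 := by
          have h10 : ((N : ℝ) ^ (2 / 3 : ℝ)) ^ 2 = (N : ℝ) ^ (4 / 3 : ℝ) := by
            rw [← Real.rpow_natCast, ← Real.rpow_mul hN0.le]
            norm_num
          rw [h10]
          refine le_trans ?_ ht
          have : q ^ 2 ≤ N + t := by omega
          exact_mod_cast this
        exact le_of_sq_le_sq h9 (by positivity)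
      have h7 : q ∈ Ioo k (B + 1) := by rw [mem_Ioo]; omega
      refine le_trans ?_ (single_le_sum (f := fun q => if q ^ 2 ∣ n + t then (1 : ℝ) else 0)
        (fun q _ => by split_ifs <;> norm_num) h7)
      simp only [if_pos hqd, le_refl]
    · exact sum_nonneg fun q _ => by split_ifs <;> norm_num
  have h1 : ∑ n ∈ Icc 1 N, bq8 N (n + t) ≤
      ∑ q ∈ Ioo k (B + 1), ∑ n ∈ Icc 1 N, (if q ^ 2 ∣ n + t then (1 : ℝ) else 0) := by
    rw [sum_comm]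
    exact sum_le_sum h0
  have h4 : ∑ q ∈ Ioo k (B + 1), ∑ n ∈ Icc 1 N, (if q ^ 2 ∣ n + t then (1 : ℝ) else 0) ≤
      N * ∑ q ∈ Ioo k (B + 1), ((q : ℝ) ^ 2)⁻¹ + B := by
    have h5 : ∀ q ∈ Ioo k (B + 1), ∑ n ∈ Icc 1 N, (if q ^ 2 ∣ n + t then (1 : ℝ) else 0) ≤
        N * ((q : ℝ) ^ 2)⁻¹ + 1 := by
      intro q hq
      have hq0 : 1 ≤ q := by have := (mem_Ioo.1 hq).1; omega
      have := card_mult_le N t (q ^ 2) (Nat.one_le_pow _ _ hq0)
      rw [div_eq_mul_inv] at this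
      push_cast at this
      exact this
    refine (sum_le_sum h5).trans ?_
    rw [sum_add_distrib, ← mul_sum, sum_const, nsmul_eq_mul, mul_one]
    have h6 : ((Ioo k (B + 1)).card : ℝ) ≤ B := by
      rw [Nat.card_Ioo]
      exact_mod_cast (by omega : B + 1 - k - 1 ≤ B)
    linarith
  have h6 := sum_Ioo_inv_sq_le (α := ℝ) k (B + 1)
  have h7 : (2 : ℝ) / (k + 1) ≤ 2 / (N : ℝ) ^ (1 / 8 : ℝ) := by
    apply div_le_div_of_nonneg_left (by norm_num) (by linarith)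
    have h8 := Nat.le_ceil ((N : ℝ) ^ (1 / 8 : ℝ))
    rw [← hk] at h8
    push_cast at h8
    exact h8
  have h9 : (N : ℝ) / (N : ℝ) ^ (1 / 8 : ℝ) = (N : ℝ) ^ (7 / 8 : ℝ) := by
    rw [div_eq_iff (by positivity), ← Real.rpow_add hN0]
    norm_num
  have h10 : (B : ℝ) ≤ (N : ℝ) ^ (7 / 8 : ℝ) := by
    rw [hB]
    refine (Nat.floor_le (by positivity)).trans ?_
    exact Real.rpow_le_rpow_of_exponent_le hN1 (by norm_num)
  calc _ ≤ N * ∑ q ∈ Ioo k (B + 1), ((q : ℝ) ^ 2)⁻¹ + B := h1.trans h4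
    _ ≤ N * (2 / (N : ℝ) ^ (1 / 8 : ℝ)) + (N : ℝ) ^ (7 / 8 : ℝ) :=
        add_le_add (mul_le_mul_of_nonneg_left (h6.trans h7) hN0.le) h10
    _ = 2 * ((N : ℝ) / (N : ℝ) ^ (1 / 8 : ℝ)) + (N : ℝ) ^ (7 / 8 : ℝ) := by ring
    _ = 3 * (N : ℝ) ^ (7 / 8 : ℝ) := by rw [h9]; ring
    _ ≤ _ := by
        have : 0 ≤ (N : ℝ) ^ (7 / 8 : ℝ) := by positivity
        linarith

/-- the error is part of the total discrepancy -/
lemma FR_le_LD {N y : ℕ} {κ : ℝ} (hN : 2 ≤ N) (hy : (y : ℝ) < (N : ℝ) ^ κ) (f : ℕ → ℝ) (t : ℕ) :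
    ∑ d ∈ FR N κ, |(∑ n ∈ Icc 1 N, f n * ro y (n + t) * ind (n + t) d) -
      (∑ n ∈ Icc 1 N, f n * ro y (n + t)) * (1 / (d : ℝ))| ≤
      LD y ⌊(N : ℝ) ^ (499 / 1000 : ℝ)⌋₊ N f t := by
  classical
  unfold LD
  have hsub : FR N κ ⊆ SD y ⌊(N : ℝ) ^ (499 / 1000 : ℝ)⌋₊ := by
    intro d hd
    rw [mem_FR] at hd
    refine mem_SD.2 ⟨hd.1, hd.2.1, fun p hp hpy hpd => ?_⟩
    have h1 := hd.2.2 p (Nat.mem_primeFactors.2 ⟨hp, hpd, by omega⟩)
    rw [DC.le_tt_iff hN hp.pos] at h1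
    have h2 : (p : ℝ) ≤ y := by exact_mod_cast hpy
    linarith
  refine le_trans (sum_le_sum fun d hd => ?_) (sum_le_sum_of_subset_of_nonneg hsub
    fun _ _ _ => mul_nonneg (by positivity) (abs_nonneg _))
  have e : (∑ n ∈ Icc 1 N, f n * ro y (n + t) * ind (n + t) d) -
      (∑ n ∈ Icc 1 N, f n * ro y (n + t)) * (1 / (d : ℝ)) =
      ∑ n ∈ Icc 1 N, f n * (ro y (n + t) * cen d (n + t)) := by
    rw [sum_mul, ← sum_sub_distrib]
    refine sum_congr rfl fun n _ => ?_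
    unfold cen ind
    ring
  rw [e]
  exact le_mul_of_one_le_left (abs_nonneg _) (one_le_pow₀ (by norm_num))

/-- **one shift** -/
theorem stepR : ∃ c₀ : ℝ, 0 < c₀ ∧ ∀ κ : ℝ, 0 < κ → κ ≤ 1 / 40 → ∃ N₀ : ℕ, ∀ N : ℕ, N₀ ≤ N →
    ∀ y : ℕ, (y : ℝ) < (N : ℝ) ^ κ → (N : ℝ) ^ κ ≤ y + 1 → ∀ f : ℕ → ℝ, (∀ n, 0 ≤ f n) →
    (∀ n, f n ≤ 1) → ∀ t : ℕ, ((N + t : ℕ) : ℝ) ≤ (N : ℝ) ^ (4 / 3 : ℝ) →
      c₀ * κ * (∑ n ∈ Icc 1 N, f n * ro y (n + t)) -
      2 * LD y ⌊(N : ℝ) ^ (499 / 1000 : ℝ)⌋₊ N f t - 12 * (N : ℝ) ^ (7 / 8 : ℝ) ≤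
      ∑ n ∈ Icc 1 N, f n * g3 N (n + t) := by
  classical
  obtain ⟨c₀, hc₀, H⟩ := lowR
  refine ⟨c₀, hc₀, fun κ hκ hκ1 => ?_⟩
  obtain ⟨N₀, H⟩ := H κ hκ hκ1
  refine ⟨max N₀ 2, fun N hN y hy1 hy2 f hf0 hf1 t ht => ?_⟩
  have hN2 : 2 ≤ N := (le_max_right _ _).trans hN
  have h1 := H N ((le_max_left _ _).trans hN) (Icc 1 N) (fun n => f n * ro y (n + t)) (fun n => n + t)
    (∑ n ∈ Icc 1 N, f n * ro y (n + t)) (fun n _ => mul_nonneg (hf0 n) (ro_nonneg _ _))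
    (sum_nonneg fun n _ => mul_nonneg (hf0 n) (ro_nonneg _ _))
  have h2 := FR_le_LD hN2 hy1 f t
  have h3 : ∑ n ∈ Icc 1 N, f n * ro y (n + t) * WR N κ (n + t) ≤
      ∑ n ∈ Icc 1 N, f n * g3 N (n + t) + ∑ n ∈ Icc 1 N, bq8 N (n + t) := by
    rw [← sum_add_distrib]
    refine sum_le_sum fun n hn => ?_
    rw [mem_Icc] at hn
    have hnt : ((n + t : ℕ) : ℝ) ≤ (N : ℝ) ^ (4 / 3 : ℝ) := by
      refine le_trans ?_ ht
      exact_mod_cast (by omega : n + t ≤ N + t)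
    have h4 := mul_le_mul_of_nonneg_left (ptwR hN2 hy2 (m := n + t) (by omega) hnt) (hf0 n)
    have h5 : f n * bq8 N (n + t) ≤ bq8 N (n + t) := mul_le_of_le_one_left (bq8_nonneg _ _) (hf1 n)
    nlinarith
  have h6 := squaresR hN2 t ht
  linarith

end Pool.Agent.J4.H38.SR2
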