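import Mathlib
import Pool.Agent.J4.H38.SR2.Gold1
import Pool.Agent.J4.H38.SR2.Ri3
import Pool.Agent.J4.H38.SR.Kuhn4

/-! Almost prime tuples in every interval, for almost all sets of shifts of a short interval. -/

set_option autoImplicit false

namespace Pool.Agent.J4.H38.SR2

open Finset Filter
open Pool.Agent.Y822
open Pool.Agent.Y822.Low (step_lower')
open Pool.Agent.J4.H38.SR
open Pool.Agent.H387R2.Uni (nuT Adm locT CT CT_nonneg)
open Pool.Agent.H373R2.T7 (pz Vz mem_pz)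

lemma sh_inj (z : ℕ) : Function.Injective (sh z) :=
  image_injective (add_left_injective z)

lemma powersetCard_sh (z : ℕ) (B : Finset ℕ) (j : ℕ) :
    (sh z B).powersetCard j = (B.powersetCard j).image (sh z) := by
  classical
  ext S
  rw [mem_powersetCard, mem_image]
  constructor
  · rintro ⟨h1, h2⟩
    have h3 : S = sh z (S.image (· - z)) := by
      unfold sh
      rw [image_image]
      ext t
      rw [mem_image]
      constructor
      · intro ht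
        obtain ⟨b, _, hb⟩ := mem_image.1 (h1 ht)
        refine ⟨t, ht, ?_⟩
        simp only [Function.comp]
        omega
      · rintro ⟨s, hs, h⟩
        obtain ⟨b, _, hb⟩ := mem_image.1 (h1 hs)
        simp only [Function.comp] at h
        have : s = t := by omega
        rw [← this]
        exact hs
    refine ⟨S.image (· - z), ?_, h3.symm⟩
    rw [mem_powersetCard]
    refine ⟨?_, ?_⟩
    · intro t ht
      obtain ⟨s, hs, rfl⟩ := mem_image.1 ht
      obtain ⟨b, hb, h⟩ := mem_image.1 (h1 hs)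
      have : s - z = b := by omega
      rw [this]
      exact hb
    · rw [← card_sh z (S.image (· - z)), ← h3]
      exact h2
  · rintro ⟨T, hT, rfl⟩
    rw [mem_powersetCard] at hT
    exact ⟨image_subset_image hT.1, by rw [card_sh]; exact hT.2⟩

lemma sum_pow_sh (z : ℕ) (B : Finset ℕ) (j : ℕ) (F : Finset ℕ → ℝ) :
    ∑ S ∈ (sh z B).powersetCard j, F S = ∑ S ∈ B.powersetCard j, F (sh z S) := by
  classical
  rw [powersetCard_sh, sum_image]
  intro a _ b _ h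
  exact sh_inj z h

lemma nuT_sh (z : ℕ) (S : Finset ℕ) {p : ℕ} (hp : 0 < p) : nuT (sh z S) p = nuT S p :=
  Pool.Agent.TH891.SG.nuT_add S z hp

lemma VT_sh (z y : ℕ) (S : Finset ℕ) : VT y (sh z S) = VT y S := by
  unfold VT
  rw [pz_eq]
  refine prod_congr rfl fun p hp => ?_
  have hpp := (mem_pz.1 hp).2.pos
  rw [fT_eq _ hpp, fT_eq _ hpp, nuT_sh z S hpp]

/-- the average density of the tuples of an interval at any position -/
theorem avgI (j : ℕ) : ∃ C : ℝ, 0 < C ∧ ∀ H y z : ℕ, 1 ≤ H → 2 * j ^ 2 + 2 ≤ y →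
    ∑ S ∈ (sh z (Icc 1 H)).powersetCard j, VT y (∅ ∪ S) ≤ C * ((H : ℝ) ^ j / Real.log y ^ j) := by
  classical
  obtain ⟨C1, hC1, h1⟩ := sum_CT0 j 1
  refine ⟨2 * C1, by positivity, fun H y z hH hy => ?_⟩
  have hy2 : 2 ≤ y := by omega
  have hly : 0 < Real.log y := Real.log_pos (by exact_mod_cast (by omega : 1 < y))
  rw [sum_pow_sh]
  have g1 : ∀ S ∈ (Icc 1 H).powersetCard j, VT y (∅ ∪ sh z S) ≤ 2 / Real.log y ^ j * CT S ^ 1 := by
    intro S hS
    have hSc := (mem_powersetCard.1 hS).2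
    rw [empty_union, VT_sh]
    have e1 := VT_le y j S hSc.le hy
    rw [hSc] at e1
    refine e1.trans (le_of_eq ?_)
    ring
  refine (sum_le_sum g1).trans ?_
  rw [← mul_sum]
  calc 2 / Real.log y ^ j * ∑ S ∈ (Icc 1 H).powersetCard j, CT S ^ 1
      ≤ 2 / Real.log y ^ j * (C1 * (H : ℝ) ^ j) := mul_le_mul_of_nonneg_left (h1 H hH) (by positivity)
    _ = _ := by ring

/-- the base weight one -/
noncomputable def e1 (_ : ℕ) : ℝ := 1

lemma e1_bd (n : ℕ) : 0 ≤ e1 n ∧ e1 n ≤ 1 := by unfold e1; norm_num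

lemma WH_e1 (g : ℕ → ℝ) (y N : ℕ) (H : Finset ℕ) :
    ∑ n ∈ Icc 1 N, WH e1 g (ro y) H ∅ n = ∑ n ∈ Icc 1 N, rT H y n := by
  refine sum_congr rfl fun n _ => ?_
  unfold WH e1 rT
  rw [prod_empty, one_mul, one_mul, sdiff_empty]

open Classical in
/-- the number of the integers `n ≤ N` such that all `n + z + d`, `d ∈ D`, have at most three prime factors,
all of them at least `N ^ (1/8)` -/
noncomputable def pi3I (z : ℕ) (D : Finset ℕ) (N : ℕ) : ℕ :=
  ((Icc 1 N).filter (fun n => ∀ d ∈ D, (n + (d + z)).primeFactorsList.length ≤ 3 ∧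
    ∀ q ∈ (n + (d + z)).primeFactors, (N : ℝ) ^ (1 / 8 : ℝ) ≤ q)).card

lemma WH_full_leI (z N y : ℕ) (D : Finset ℕ) :
    ∑ n ∈ Icc 1 N, WH e1 (g3 N) (ro y) (sh z D) (sh z D) n ≤ pi3I z D N := by
  classical
  unfold pi3I
  rw [card_filter]
  push_cast
  refine sum_le_sum fun n _ => ?_
  unfold WH e1
  rw [sdiff_self, bot_eq_empty, prod_empty, mul_one, one_mul]
  have p1 : ∏ s ∈ sh z D, g3 N (n + s) ≤ 1 :=
    prod_le_one (fun s _ => (g3_bd _ _).1) fun s _ => (g3_bd _ _).2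
  by_cases h : ∀ d ∈ D, (n + (d + z)).primeFactorsList.length ≤ 3 ∧
      ∀ q ∈ (n + (d + z)).primeFactors, (N : ℝ) ^ (1 / 8 : ℝ) ≤ q
  · rw [if_pos h]
    exact p1
  · rw [if_neg h]
    apply le_of_eq
    rw [not_forall] at h
    obtain ⟨s, hs⟩ := h
    rw [Classical.not_imp] at hs
    refine prod_eq_zero (i := s + z) (mem_image_of_mem _ hs.1) ?_
    unfold g3
    rw [if_neg]
    intro h4
    exact hs.2 h4.2

/-- **almost prime tuples** in every interval, for almost all sets of shifts -/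
theorem almostI : ∃ c : ℝ, 0 < c ∧ ∀ (k : ℕ) (ε : ℝ), 0 < ε → ∃ Λ : ℝ, 0 < Λ ∧ ∀ᶠ N : ℕ in atTop,
    ∀ z : ℕ, ((z + 2 * N : ℕ) : ℝ) ≤ (N : ℝ) ^ (4 / 3 : ℝ) →
    ∀ H : ℕ, Λ * Real.log N ≤ H → H ≤ N → ∀ Bad : Finset (Finset ℕ),
    (∀ D ∈ Bad, D ∈ (Icc 1 H).powersetCard (k + 1) ∧ Adm D ∧
      (pi3I z D N : ℝ) < c ^ (k + 1) * CT D * (N / Real.log N ^ (k + 1))) →
    (Bad.card : ℝ) ≤ ε * (H : ℝ) ^ (k + 1) := by
  classical
  obtain ⟨c₀', hc₀', STEP⟩ := stepR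
  obtain ⟨cz, hcz, VZ⟩ := Vz_sharp
  obtain ⟨c₀, hc₀d⟩ : ∃ c₀ : ℝ, c₀ = min c₀' 1 := ⟨_, rfl⟩
  have hc₀ : 0 < c₀ := by rw [hc₀d]; exact lt_min hc₀' one_pos
  have hc₀1 : c₀ ≤ 1 := by rw [hc₀d]; exact min_le_right _ _
  have hc₀2 : c₀ ≤ c₀' := by rw [hc₀d]; exact min_le_left _ _
  refine ⟨c₀ * cz / 8, by positivity, fun k ε hε => ?_⟩
  obtain ⟨cs, hcs⟩ : ∃ cs : ℝ, cs = c₀ * cz := ⟨_, rfl⟩
  have hcs0 : 0 < cs := by rw [hcs]; positivity
  obtain ⟨cp, hcp, hlow⟩ := Pool.Agent.Y822.PT_low k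
  obtain ⟨τ, hτ⟩ : ∃ τ : ℝ, τ = 1 / 16 * cs ^ (k + 1) * cp := ⟨_, rfl⟩
  have hτ0 : 0 < τ := by rw [hτ]; positivity
  obtain ⟨δ, hδ⟩ : ∃ δ : ℝ, δ = τ / (3 * (k + 1)) := ⟨_, rfl⟩
  have hδ0 : 0 < δ := by rw [hδ]; positivity
  obtain ⟨C0, K0, hC0, hK0, hcnt⟩ := cntT (k + 1)
  choose Cj hCj havg using avgI
  obtain ⟨Cv, hCv⟩ : ∃ Cv : ℝ, Cv = ∑ j ∈ range (k + 3), Cj j := ⟨_, rfl⟩
  have hCv1 : ∀ j ≤ k + 2, Cj j ≤ Cv := fun j hj => by
    rw [hCv]
    exact single_le_sum (f := Cj) (fun i _ => (hCj i).le) (mem_range.2 (by omega))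
  have hCv0 : 0 < Cv := lt_of_lt_of_le (hCj 0) (hCv1 0 (by omega))
  have hκ₂ : 0 < (1 / 2 : ℝ) / (4 * C0 * C0 + 1) := by positivity
  obtain ⟨κ, Λ, hκ, hκm, hκh, hΛ, hfew⟩ := few_short2 k 0 2 (by norm_num) (xs := 1 / 1000) (δ := δ)
    (ε' := ε) (κm := min (1 / 40) ((1 / 2) / (4 * C0 * C0 + 1))) (Cv := Cv) (by norm_num) (by norm_num)
    hδ0 hε (lt_min (by norm_num) hκ₂) hCv0
  have hκ40 : κ ≤ 1 / 40 := hκm.trans (min_le_left _ _)
  have hκK : κ ≤ (1 / 2) / (4 * C0 * C0 + 1) := hκm.trans (min_le_right _ _)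
  have hκσ : κ * (4 * C0 * C0 + 1) ≤ 1 / 2 := by
    rw [le_div_iff₀ (by positivity)] at hκK
    exact hκK
  obtain ⟨N₁, STEP⟩ := STEP κ hκ hκ40
  obtain ⟨M, hM⟩ : ∃ M : ℕ, M = 4 * (k + 2) ^ 3 * (⌈2 / κ⌉₊ + 1) + 3 + (2 * (k + 2) ^ 2 + 2) :=
    ⟨_, rfl⟩
  refine ⟨max Λ 1, lt_max_of_lt_right one_pos, ?_⟩
  filter_upwards [hfew, ev_logN (eventually_ge_atTop (max 5 ((M + 5) * (2 / κ)))),
    ev_small (k + 1) (by norm_num : (0 : ℝ) < 1 / 8) 12 hδ0,
    ev_small (k + 1) (by norm_num : (0 : ℝ) < 1 / 2) (2 + 2 * K0) hτ0,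
    eventually_ge_atTop (max N₁ 3)]
    with N hfew hL1' hs8 hs2 hN
  intro z hz H hH1' hHN Bad hBad
  have hNN₁ : N₁ ≤ N := (le_max_left _ _).trans hN
  have hN3 : 3 ≤ N := (le_max_right _ _).trans hN
  have hN2 : 2 ≤ N := by omega
  set L := Real.log N with hLd
  have hL5 : 5 ≤ L := (le_max_left _ _).trans hL1'
  have hL1 : 1 ≤ L := by linarith
  have hLM : (M + 5) * (2 / κ) ≤ L := (le_max_right _ _).trans hL1'
  have hL0 : 0 < L := by linarith
  have hH1 : Λ * L ≤ H := (mul_le_mul_of_nonneg_right (le_max_left _ _) hL0.le).trans hH1'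
  have hHL : L ≤ H := by
    have := (mul_le_mul_of_nonneg_right (le_max_right Λ 1) hL0.le).trans hH1'
    linarith
  have hH3 : 3 ≤ H := by
    have : (3 : ℝ) ≤ H := by linarith
    exact_mod_cast this
  have hN0 : (0 : ℝ) < N := by positivity
  have hN1 : (1 : ℝ) ≤ N := by exact_mod_cast (by omega : 1 ≤ N)
  have hNe : (N : ℝ) = Real.exp L := by rw [hLd, Real.exp_log hN0]
  have hrp : ∀ s : ℝ, (N : ℝ) ^ s = Real.exp (s * L) := by
    intro s
    rw [Real.rpow_def_of_pos hN0, ← hLd, mul_comm]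
  -- the sifting limit
  obtain ⟨y, hy⟩ : ∃ y : ℕ, y + 1 = ⌈(N : ℝ) ^ κ⌉₊ := by
    have : 0 < ⌈(N : ℝ) ^ κ⌉₊ := Nat.ceil_pos.2 (by positivity)
    exact ⟨⌈(N : ℝ) ^ κ⌉₊ - 1, by omega⟩
  have hya : (y : ℝ) < (N : ℝ) ^ κ := Nat.lt_ceil.1 (by omega)
  have hyb : (N : ℝ) ^ κ ≤ y + 1 := by
    have := Nat.le_ceil ((N : ℝ) ^ κ)
    rw [← hy] at this
    exact_mod_cast this
  have hya' : (y : ℝ) ≤ Real.exp (κ * L) := by rw [← hrp]; exact hya.le
  have hyb' : Real.exp (κ * L) ≤ y + 1 := by rw [← hrp]; exact hyb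
  have hML5 : (M : ℝ) + 5 ≤ κ / 2 * L := by
    have h1 : (M : ℝ) + 5 = κ / 2 * ((M + 5) * (2 / κ)) := by field_simp
    rw [h1]
    exact mul_le_mul_of_nonneg_left hLM (by positivity)
  have hM0 : (0 : ℝ) ≤ M := Nat.cast_nonneg _
  obtain ⟨_, _, y3, y4, _, y6⟩ := y_core (M := M) hκ (by omega : 1 ≤ N) (by linarith) hya' hyb'
  have hy3 : 3 ≤ y := by omega
  have hy0 : (0 : ℝ) < y := by positivity
  -- the factor of one step
  obtain ⟨u, hu⟩ : ∃ u : ℝ, u = c₀ * κ := ⟨_, rfl⟩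
  have hu0 : 0 ≤ u := by rw [hu]; positivity
  have hu1 : u ≤ 1 := by rw [hu]; exact mul_le_one₀ hc₀1 hκ.le (by linarith)
  have hVz0 : 0 ≤ Vz y := (Vz_pos' y).le
  have hly : 0 < Real.log y := Real.log_pos (by exact_mod_cast (by omega : 1 < y))
  have hlyu : Real.log y ≤ κ * L := by
    rw [← Real.log_exp (κ * L)]
    exact Real.log_le_log hy0 hya'
  have huV : cs / L ≤ u * Vz y := by
    have t5 : cz / (κ * L) ≤ Vz y := (div_le_div_of_nonneg_left hcz.le hly hlyu).trans (VZ y hy3)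
    calc cs / L = u * (cz / (κ * L)) := by rw [hcs, hu]; field_simp
      _ ≤ u * Vz y := mul_le_mul_of_nonneg_left t5 hu0
  -- the error of one step
  obtain ⟨X, hX⟩ : ∃ X : ℝ, X = N / L ^ (k + 1) := ⟨_, rfl⟩
  have hX0 : 0 < X := by rw [hX]; positivity
  have h78 : 12 * (N : ℝ) ^ (7 / 8 : ℝ) ≤ δ * X := by
    rw [hrp, hX]
    have e : (7 / 8 : ℝ) * L = (1 - 1 / 8) * L := by ring
    rw [e]
    exact hs8
  have hx0 : 0 ≤ 3 * δ * X := by positivity
  -- the bad sets, translated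
  have hBc : (Bad.image (sh z)).card = Bad.card := card_image_of_injective _ (sh_inj z)
  rw [← hBc]
  refine hfew y hya' hyb' ⌊(N : ℝ) ^ (499 / 1000 : ℝ)⌋₊ ?_ (sh z (Icc 1 H)) ∅ ∅ card_empty (by simp)
    (disjoint_empty_left _) (z + 2 * N) ?_ ?_ ?_ e1 e1_bd (fun n _ _ => ?_) (g3 N) ?_ H hH1 ?_ ?_
    (Bad.image (sh z)) ?_
  · refine (Nat.floor_le (by positivity)).trans (le_of_eq ?_)
    rw [hrp]
    congr 1
    ring
  · have h1 : ((z + 2 * N : ℕ) : ℝ) ≤ ((N ^ 2 : ℕ) : ℝ) := by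
      refine hz.trans ?_
      push_cast
      rw [← Real.rpow_natCast]
      exact Real.rpow_le_rpow_of_exponent_le hN1 (by norm_num)
    exact_mod_cast h1
  · intro a ha
    obtain ⟨d, hd, rfl⟩ := mem_image.1 ha
    rw [mem_Icc] at hd
    omega
  · intro a ha a' ha'
    obtain ⟨d, hd, rfl⟩ := mem_image.1 ha
    obtain ⟨d', hd', rfl⟩ := mem_image.1 ha'
    rw [mem_Icc] at hd hd'
    omega
  · unfold e1 rT
    rw [prod_empty]
  · intro n
    refine ⟨(g3_bd N n).1, g3_le_ro ?_ n⟩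
    refine hya.trans_le (Real.rpow_le_rpow_of_exponent_le hN1 ?_)
    linarith
  · rw [card_sh, Nat.card_Icc, Nat.add_sub_cancel]
  · intro j hj
    have h1 := havg j H y z (by omega) ?_
    · refine h1.trans ?_
      have h2 : (κ / 2 * L) ^ j ≤ Real.log y ^ j := pow_le_pow_left₀ (by positivity) y4 _
      have h3 : (H : ℝ) ^ j / Real.log y ^ j ≤ (H : ℝ) ^ j / (κ / 2 * L) ^ j :=
        div_le_div_of_nonneg_left (by positivity) (by positivity) h2
      have h4 : (H : ℝ) ^ j / (κ / 2 * L) ^ j = (2 / κ) ^ j * ((H : ℝ) ^ j / L ^ j) := by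
        rw [mul_pow, div_pow, div_pow]
        field_simp
      calc Cj j * ((H : ℝ) ^ j / Real.log y ^ j) ≤ Cv * ((H : ℝ) ^ j / (κ / 2 * L) ^ j) :=
            mul_le_mul (hCv1 j hj) h3 (by positivity) hCv0.le
        _ = _ := by rw [h4, add_zero]; ring
    · have h5 : j ^ 2 ≤ (k + 2) ^ 2 := Nat.pow_le_pow_left hj 2
      have h6 : M = 4 * (k + 2) ^ 3 * (⌈2 / κ⌉₊ + 1) + 3 + (2 * (k + 2) ^ 2 + 2) := hM
      omega
  · intro D' hD'
    obtain ⟨D, hD, rfl⟩ := mem_image.1 hD'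
    obtain ⟨b1, b2, b3⟩ := hBad D hD
    refine ⟨by rw [powersetCard_sh]; exact mem_image_of_mem _ b1, fun hg => ?_⟩
    rw [mem_powersetCard] at b1
    have hcs' : (sh z D).card = k + 1 := by rw [card_sh, b1.2]
    have hDN : ∀ h ∈ D, h ≤ N := fun h hh => ((mem_Icc.1 (b1.1 hh)).2).trans hHN
    obtain ⟨c1, c2⟩ := hlow D b1.2 b2
    have hCP : CT D ≤ 2 * PT D y := by
      have g1 := CT_up D (2 * N) y (fun t ht => by have := hDN t ht; omega) (by omega)
      rw [b1.2] at g1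
      refine g1.trans (mul_le_mul_of_nonneg_right ?_ (PT_nonneg _ _))
      have g6 : 2 * (((k + 1 : ℕ) : ℝ)) ^ 3 * (Nat.log y (2 * N)) / y ≤ 1 / 2 := by
        rw [div_le_div_iff₀ hy0 (by norm_num)]
        have g7 : 4 * (k + 2) ^ 3 * Nat.log y (2 * N) ≤ y := by
          refine le_trans ?_ y3
          rw [hM]
          exact (Nat.mul_le_mul_left _ y6).trans ((Nat.le_add_right _ _).trans (Nat.le_add_right _ _))
        have g8 : (4 * ((k : ℝ) + 2) ^ 3 * Nat.log y (2 * N)) ≤ y := by exact_mod_cast g7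
        have g9 : (((k + 1 : ℕ) : ℝ)) ^ 3 ≤ ((k : ℝ) + 2) ^ 3 := by
          refine pow_le_pow_left₀ (by positivity) ?_ 3
          push_cast
          linarith
        have g10 : (0 : ℝ) ≤ Nat.log y (2 * N) := Nat.cast_nonneg _
        have g11 := mul_le_mul_of_nonneg_right g9 g10
        linarith
      calc Real.exp (2 * (((k + 1 : ℕ) : ℝ)) ^ 3 * (Nat.log y (2 * N)) / y) ≤ Real.exp (1 / 2) :=
            Real.exp_le_exp.2 g6
        _ ≤ 2 := by
            have h6 : Real.exp (1 / 2) * Real.exp (-(1 / 2)) = 1 := by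
              rw [← Real.exp_add]; norm_num
            have h7 := Real.exp_pos (1 / 2)
            have h8 : 1 / 2 ≤ Real.exp (-(1 / 2)) := by
              have := Real.add_one_le_exp (-(1 / 2) : ℝ)
              linarith
            nlinarith
    -- one step
    have hZ : ∀ t ∈ sh z D, ∀ S1 ⊆ (sh z D).erase t,
        u * ∑ n ∈ Icc 1 N, WH e1 (g3 N) (ro y) ((sh z D).erase t) S1 n * ro y (n + t) - 3 * δ * X ≤
          ∑ n ∈ Icc 1 N, WH e1 (g3 N) (ro y) ((sh z D).erase t) S1 n * g3 N (n + t) := by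
      intro t ht S1 hS1
      set f := WH e1 (g3 N) (ro y) ((sh z D).erase t) S1 with hf
      have hf01 : ∀ n, 0 ≤ f n ∧ f n ≤ 1 := WH_bd e1_bd (g3_bd N) (ro_bd y) _ _
      have hgood := hg t ht S1 hS1
      rw [← hf, show k + 0 + 1 = k + 1 by ring, ← hX] at hgood
      have htN : ((N + t : ℕ) : ℝ) ≤ (N : ℝ) ^ (4 / 3 : ℝ) := by
        refine le_trans ?_ hz
        obtain ⟨d, hd, rfl⟩ := mem_image.1 ht
        have := hDN d hd
        exact_mod_cast (by omega : N + (d + z) ≤ z + 2 * N)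
      have hs := STEP N hNN₁ y hya hyb f (fun n => (hf01 n).1) (fun n => (hf01 n).2) t htN
      have hW0 : 0 ≤ ∑ n ∈ Icc 1 N, f n * ro y (n + t) :=
        sum_nonneg fun n _ => mul_nonneg (hf01 n).1 (ro_nonneg _ _)
      have h5 : u * ∑ n ∈ Icc 1 N, f n * ro y (n + t) ≤
          c₀' * κ * ∑ n ∈ Icc 1 N, f n * ro y (n + t) := by
        rw [hu]
        exact mul_le_mul_of_nonneg_right (mul_le_mul_of_nonneg_right hc₀2 hκ.le) hW0
      linarith
    have hlower := step_lower' (H := sh z D) hx0 hu0 hu1 hZ (sh z D) (subset_refl _)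
    rw [hcs'] at hlower
    -- the main term
    have hmain : 1 / 2 * (N * (PT D y * Vz y ^ (k + 1))) - (2 + 2 * K0) * Real.exp (1 / 2 * L) ≤
        ∑ n ∈ Icc 1 N, WH e1 (g3 N) (ro y) (sh z D) ∅ n := by
      rw [WH_e1]
      have h1 := hcnt C0 le_rfl y (by omega) (sh z D) hcs'.le N 0 0 1 1 le_rfl le_rfl (Ro_one y)
        (Ro_one y) (Nat.coprime_one_right 1)
      have h2 : ∑ n ∈ Icc 1 N, rT (sh z D) y n * ((if 1 ∣ n + 0 then (1 : ℝ) else 0) *
          (if 1 ∣ n + 0 then (1 : ℝ) else 0)) = ∑ n ∈ Icc 1 N, rT (sh z D) y n := by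
        refine sum_congr rfl fun n _ => ?_
        simp
      rw [h2] at h1
      have h3 := (abs_le.1 h1).1
      have h4 := Ad_coreY C0 K0 C0 hκ (by omega : 1 ≤ N) hya' hyb' (by linarith) hκσ
      rw [VT_sh, VT_eq, b1.2] at h3
      have h5 : ((1 : ℝ) / 2) ^ C0 ≤ 1 / 2 := by
        calc ((1 : ℝ) / 2) ^ C0 ≤ (1 / 2) ^ 1 :=
              pow_le_pow_of_le_one (by norm_num) (by norm_num) hC0
          _ = 1 / 2 := by norm_num
      have h6 : 0 ≤ (N : ℝ) * (PT D y * Vz y ^ (k + 1)) :=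
        mul_nonneg hN0.le (mul_nonneg (PT_nonneg _ _) (pow_nonneg hVz0 _))
      have h7 := mul_le_mul_of_nonneg_right h5 h6
      simp only [Nat.cast_one, mul_one, div_one] at h3
      rw [← hLd] at h4
      linarith
    have hfull := WH_full_leI z N y D
    have hNL : (N : ℝ) * L / L = N := by field_simp
    have hNL2 : (N : ℝ) * L / L ^ (k + 2) = X := by
      rw [hX, pow_succ L (k + 1)]
      field_simp
    have hfin := low_calcK (k := k) (cs := cs) (cp := cp) (L := L) (n := N * L) (u := u) (V := Vz y)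
      (PTy := PT D y) (W := ∑ n ∈ Icc 1 N, WH e1 (g3 N) (ro y) (sh z D) ∅ n)
      (e := (2 + 2 * K0) * Real.exp (1 / 2 * L))
      (x := 3 * δ * X) (CTy := CT D)
      (P := pi3I z D N) hcs0 hcp hL1 (by positivity) hu0 hu1 hVz0 huV (PT_nonneg _ _) c2 hCP
      (by rw [hNL]; exact hmain) (by positivity) ?_ ?_ (by push_cast at hlower; linarith)
    · rw [hcs, hNL2, hX] at hfin
      linarith
    · rw [hNL2, ← hτ, hX]
      have e : (1 - 1 / 2) * L = 1 / 2 * L := by ring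
      rw [← e]
      exact hs2
    · rw [hNL2, ← hτ, hδ]
      apply le_of_eq
      field_simp

end Pool.Agent.J4.H38.SR2
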